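import Pool.Agent.Lib.KV.SpecQ

/-!
# KV, block Q: the statement Adj (moving one marked point by an order isomorphism)
-/

set_option autoImplicit false

open Set Filter Topology Metric

namespace KV

namespace AdjAux

theorem low (G : Finset ℝ) (m : ℝ) (h : ∀ x ∈ G, x < m) : ∃ A < m, ∀ x ∈ G, x ≤ A := by
  classical
  refine ⟨(insert (m - 1) G).max' (Finset.insert_nonempty _ _), ?_,
    fun x hx => Finset.le_max' _ _ (Finset.mem_insert_of_mem hx)⟩
  rw [Finset.max'_lt_iff]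
  intro y hy
  rcases Finset.mem_insert.1 hy with rfl | hy
  · linarith
  · exact h y hy

theorem high (G : Finset ℝ) (m : ℝ) (h : ∀ x ∈ G, m < x) : ∃ B, m < B ∧ ∀ x ∈ G, B ≤ x := by
  classical
  refine ⟨(insert (m + 1) G).min' (Finset.insert_nonempty _ _), ?_,
    fun x hx => Finset.min'_le _ _ (Finset.mem_insert_of_mem hx)⟩
  rw [Finset.lt_min'_iff]
  intro y hy
  rcases Finset.mem_insert.1 hy with rfl | hy
  · linarith
  · exact h y hy

end AdjAux

theorem tAdj (h1 : S_Theta) : S_Adj := by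
  classical
  intro φ F ζ ζ' hζ hlt hne
  obtain ⟨A, hA, hA'⟩ := AdjAux.low ((F.filter (fun y => y < ζ)).image φ) (min (φ ζ) ζ') (by
    intro x hx
    obtain ⟨y, hy, rfl⟩ := Finset.mem_image.1 hx
    rw [Finset.mem_filter] at hy
    exact lt_min (φ.lt_iff_lt.2 hy.2) ((hlt y hy.1).1 hy.2))
  obtain ⟨B, hB, hB'⟩ := AdjAux.high ((F.filter (fun y => ζ < y)).image φ) (max (φ ζ) ζ') (by
    intro x hx
    obtain ⟨y, hy, rfl⟩ := Finset.mem_image.1 hx
    rw [Finset.mem_filter] at hy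
    refine max_lt (φ.lt_iff_lt.2 hy.2) ?_
    have h2 : ¬ φ y < ζ' := fun h => absurd ((hlt y hy.1).2 h) (not_lt.2 hy.2.le)
    exact lt_of_le_of_ne (not_lt.1 h2) (hne y hy.1).symm)
  obtain ⟨θ, hθ, hθA, hθB⟩ := h1 A B (φ ζ) ζ' (lt_of_lt_of_le hA (min_le_left _ _))
    (lt_of_le_of_lt (le_max_left _ _) hB) (lt_of_lt_of_le hA (min_le_right _ _))
    (lt_of_le_of_lt (le_max_right _ _) hB)
  refine ⟨φ.trans θ, hθ, fun y hy => ?_⟩
  show θ (φ y) = φ y
  rcases lt_trichotomy y ζ with h | h | h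
  · exact hθA _ (hA' _ (Finset.mem_image_of_mem _ (Finset.mem_filter.2 ⟨hy, h⟩)))
  · exact absurd (h ▸ hy) hζ
  · exact hθB _ (hB' _ (Finset.mem_image_of_mem _ (Finset.mem_filter.2 ⟨hy, h⟩)))

end KV
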