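import Pool.Agent.Lib.KV.SpecQ

set_option autoImplicit false

open Set Filter Topology Metric

namespace KV

theorem tAlgF (h1 : S_Dich) (_h2 : S_NowD) : S_AlgF := by
  intro ι _ f hf
  obtain ⟨P, hP0, hP⟩ := h1 (Option ι) _ hf
  refine ⟨P, hP0, fun x => ?_⟩
  by_contra hne
  have h := hP (cns (f x) x) hne
  have hmem : cns (f x) x ∈ {z : Option ι → ℝ | z none = f (fun i => z (some i))} := rfl
  have h' : ∀ᶠ y in 𝓝 (cns (f x) x),
      y ∈ {z : Option ι → ℝ | z none = f (fun i => z (some i))} :=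
    h.mono (fun y hy => hy.2 hmem)
  have hc : Continuous (fun t : ℝ => cns t x) := by
    refine continuous_pi ?_
    rintro (_ | i)
    · exact continuous_id
    · exact continuous_const
  have h3 : ∀ᶠ t in 𝓝 (f x), cns t x ∈
      {z : Option ι → ℝ | z none = f (fun i => z (some i))} :=
    (hc.tendsto (f x)).eventually h'
  have h4 : ∀ᶠ t in 𝓝 (f x), t = f x := h3
  have h5 : ∀ᶠ t in 𝓝[≠] (f x), t = f x := h4.filter_mono nhdsWithin_le_nhds
  have h6 : ∀ᶠ t in 𝓝[≠] (f x), t ≠ f x := self_mem_nhdsWithin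
  obtain ⟨t, ht, ht'⟩ := (h5.and h6).exists
  exact ht' ht

end KV
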