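import Pool.Agent.Lib.KV.SpecQ

/-!
# KV, Q/AllZ: if all zeros are marked then the signs correspond
-/

set_option autoImplicit false

open Set Filter Topology Metric

namespace KV

private theorem sg_const (g : Polynomial ℝ) (a b : ℝ) (h : ∀ s ∈ Set.uIcc a b, g.eval s ≠ 0) :
    SignType.sign (g.eval a) = SignType.sign (g.eval b) := by
  have hc : ContinuousOn (fun s => g.eval s) (Set.uIcc a b) := g.continuous.continuousOn
  have hi := intermediate_value_uIcc hc
  have h0 : (0 : ℝ) ∉ Set.uIcc (g.eval a) (g.eval b) := by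
    intro h1
    obtain ⟨s, hs, hs0⟩ := hi h1
    exact h s hs hs0
  rcases lt_trichotomy (g.eval a) 0 with ha | ha | ha
  · rcases lt_trichotomy (g.eval b) 0 with hb | hb | hb
    · rw [sign_neg ha, sign_neg hb]
    · exact absurd hb (h b Set.right_mem_uIcc)
    · exact absurd (Set.mem_uIcc.2 (Or.inl ⟨ha.le, hb.le⟩)) h0
  · exact absurd ha (h a Set.left_mem_uIcc)
  · rcases lt_trichotomy (g.eval b) 0 with hb | hb | hb
    · exact absurd (Set.mem_uIcc.2 (Or.inr ⟨hb.le, ha.le⟩)) h0
    · exact absurd hb (h b Set.right_mem_uIcc)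
    · rw [sign_pos ha, sign_pos hb]

private theorem endR (g : Polynomial ℝ) (hd : 0 < g.natDegree) :
    ∀ᶠ t in atTop, SignType.sign (g.eval t) = SignType.sign g.leadingCoeff := by
  have hd' : 0 < g.degree := Polynomial.natDegree_pos_iff_degree_pos.1 hd
  have h0 : g.leadingCoeff ≠ 0 := by
    intro h
    rw [Polynomial.leadingCoeff_eq_zero] at h
    rw [h, Polynomial.natDegree_zero] at hd
    exact lt_irrefl _ hd
  rcases lt_or_gt_of_ne h0 with h | h
  · have h1 := Polynomial.tendsto_atBot_of_leadingCoeff_nonpos g hd' h.le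
    filter_upwards [h1.eventually_lt_atBot 0] with t ht
    rw [sign_neg ht, sign_neg h]
  · have h1 := Polynomial.tendsto_atTop_of_leadingCoeff_nonneg g hd' h.le
    filter_upwards [h1.eventually_gt_atTop 0] with t ht
    rw [sign_pos ht, sign_pos h]

private theorem endL (g : Polynomial ℝ) (hd : 0 < g.natDegree) :
    ∀ᶠ t in atBot, SignType.sign (g.eval t) =
      SignType.sign g.leadingCoeff * SignType.sign ((-1 : ℝ) ^ g.natDegree) := by
  have hn : (-Polynomial.X : Polynomial ℝ).natDegree = 1 := by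
    rw [Polynomial.natDegree_neg, Polynomial.natDegree_X]
  have hl : (g.comp (-Polynomial.X)).leadingCoeff = g.leadingCoeff * (-1) ^ g.natDegree := by
    rw [Polynomial.leadingCoeff_comp (by rw [hn]; exact one_ne_zero), Polynomial.leadingCoeff_neg,
      Polynomial.leadingCoeff_X]
  have hd2 : 0 < (g.comp (-Polynomial.X)).natDegree := by
    rw [Polynomial.natDegree_comp, hn, mul_one]
    exact hd
  have h := endR (g.comp (-Polynomial.X)) hd2
  rw [hl, sign_mul] at h
  have h2 := tendsto_neg_atBot_atTop.eventually h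
  filter_upwards [h2] with t ht
  rw [← ht, Polynomial.eval_comp, Polynomial.eval_neg, Polynomial.eval_X, neg_neg]

private theorem sgR (g : Polynomial ℝ) (hd : 0 < g.natDegree) (t : ℝ)
    (h : ∀ s, t ≤ s → g.eval s ≠ 0) :
    SignType.sign (g.eval t) = SignType.sign g.leadingCoeff := by
  obtain ⟨s, hs, hts⟩ := ((endR g hd).and (eventually_ge_atTop t)).exists
  rw [← hs]
  apply sg_const
  intro r hr
  rw [Set.uIcc_of_le hts] at hr
  exact h r hr.1

private theorem sgL (g : Polynomial ℝ) (hd : 0 < g.natDegree) (t : ℝ)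
    (h : ∀ s, s ≤ t → g.eval s ≠ 0) :
    SignType.sign (g.eval t) =
      SignType.sign g.leadingCoeff * SignType.sign ((-1 : ℝ) ^ g.natDegree) := by
  obtain ⟨s, hs, hts⟩ := ((endL g hd).and (eventually_le_atBot t)).exists
  rw [← hs]
  apply sg_const
  intro r hr
  rw [Set.uIcc_of_ge hts] at hr
  exact h r hr.2

theorem tAllZ : S_AllZ := by
  intro p p' φ F hM h1 h2 t
  by_cases ht : t ∈ F
  · exact hM.sg t ht
  have hd' : 0 < p'.natDegree := hM.deg ▸ hM.deg0
  -- the right side
  rcases (F.filter (fun y => t < y)).eq_empty_or_nonempty with hR | hR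
  · have hR' : ∀ y ∈ F, ¬ t < y := fun y hy hty => by
      have : y ∈ F.filter (fun y => t < y) := Finset.mem_filter.2 ⟨hy, hty⟩
      rw [hR] at this
      exact absurd this (Finset.notMem_empty _)
    rw [sgR p hM.deg0 t, sgR p' hd' (φ t), hM.lc]
    · intro s hs hs0
      have hy : φ.symm s ∈ F := h2 _ (by rw [OrderIso.apply_symm_apply]; exact hs0)
      have hle : t ≤ φ.symm s := (OrderIso.le_symm_apply φ).2 hs
      refine hR' _ hy (lt_of_le_of_ne hle ?_)
      rintro rfl
      exact ht hy
    · intro s hs hs0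
      have hy := h1 s hs0
      refine hR' _ hy (lt_of_le_of_ne hs ?_)
      rintro rfl
      exact ht hy
  obtain ⟨b, hb, hbm⟩ : ∃ b ∈ F.filter (fun y => t < y), ∀ y ∈ F.filter (fun y => t < y), b ≤ y :=
    ⟨_, Finset.min'_mem _ hR, fun y hy => Finset.min'_le _ _ hy⟩
  obtain ⟨hbF, htb⟩ := Finset.mem_filter.1 hb
  have hbm' : ∀ y ∈ F, t ≤ y → b ≤ y := fun y hy hty => hbm y (Finset.mem_filter.2 ⟨hy,
    lt_of_le_of_ne hty (by rintro rfl; exact ht hy)⟩)
  by_cases hpb : p.eval b = 0
  swap
  · have hpb' : p'.eval (φ b) ≠ 0 := by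
      intro h
      have := hM.sg b hbF
      rw [h, sign_zero, sign_eq_zero_iff] at this
      exact hpb this
    have e1 : SignType.sign (p.eval t) = SignType.sign (p.eval b) := by
      apply sg_const
      intro s hs hs0
      rw [Set.uIcc_of_le htb.le] at hs
      have := hbm' s (h1 s hs0) hs.1
      rw [le_antisymm hs.2 this] at hs0
      exact hpb hs0
    have e2 : SignType.sign (p'.eval (φ t)) = SignType.sign (p'.eval (φ b)) := by
      apply sg_const
      intro s hs hs0
      rw [Set.uIcc_of_le (φ.monotone htb.le)] at hs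
      have hy : φ.symm s ∈ F := h2 _ (by rw [OrderIso.apply_symm_apply]; exact hs0)
      have := hbm' _ hy ((OrderIso.le_symm_apply φ).2 hs.1)
      have h3 := (OrderIso.le_symm_apply φ).1 this
      rw [le_antisymm hs.2 h3] at hs0
      exact hpb' hs0
    rw [e1, e2]
    exact hM.sg b hbF
  -- the left side
  rcases (F.filter (fun y => y < t)).eq_empty_or_nonempty with hL | hL
  · have hL' : ∀ y ∈ F, ¬ y < t := fun y hy hty => by
      have : y ∈ F.filter (fun y => y < t) := Finset.mem_filter.2 ⟨hy, hty⟩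
      rw [hL] at this
      exact absurd this (Finset.notMem_empty _)
    rw [sgL p hM.deg0 t, sgL p' hd' (φ t), hM.lc, hM.deg]
    · intro s hs hs0
      have hy : φ.symm s ∈ F := h2 _ (by rw [OrderIso.apply_symm_apply]; exact hs0)
      have hle : φ.symm s ≤ t := (OrderIso.symm_apply_le φ).2 hs
      refine hL' _ hy (lt_of_le_of_ne hle ?_)
      rintro rfl
      exact ht hy
    · intro s hs hs0
      have hy := h1 s hs0
      refine hL' _ hy (lt_of_le_of_ne hs ?_)
      rintro rfl
      exact ht hy
  obtain ⟨a, ha, ham⟩ : ∃ a ∈ F.filter (fun y => y < t), ∀ y ∈ F.filter (fun y => y < t), y ≤ a :=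
    ⟨_, Finset.max'_mem _ hL, fun y hy => Finset.le_max' _ _ hy⟩
  obtain ⟨haF, hat⟩ := Finset.mem_filter.1 ha
  have ham' : ∀ y ∈ F, y ≤ t → y ≤ a := fun y hy hty => ham y (Finset.mem_filter.2 ⟨hy,
    lt_of_le_of_ne hty (by rintro rfl; exact ht hy)⟩)
  by_cases hpa : p.eval a = 0
  swap
  · have hpa' : p'.eval (φ a) ≠ 0 := by
      intro h
      have := hM.sg a haF
      rw [h, sign_zero, sign_eq_zero_iff] at this
      exact hpa this
    have e1 : SignType.sign (p.eval t) = SignType.sign (p.eval a) := by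
      apply sg_const
      intro s hs hs0
      rw [Set.uIcc_of_ge hat.le] at hs
      have := ham' s (h1 s hs0) hs.2
      rw [le_antisymm this hs.1] at hs0
      exact hpa hs0
    have e2 : SignType.sign (p'.eval (φ t)) = SignType.sign (p'.eval (φ a)) := by
      apply sg_const
      intro s hs hs0
      rw [Set.uIcc_of_ge (φ.monotone hat.le)] at hs
      have hy : φ.symm s ∈ F := h2 _ (by rw [OrderIso.apply_symm_apply]; exact hs0)
      have := ham' _ hy ((OrderIso.symm_apply_le φ).2 hs.2)
      have h3 := (OrderIso.symm_apply_le φ).1 this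
      rw [le_antisymm h3 hs.1] at hs0
      exact hpa' hs0
    rw [e1, e2]
    exact hM.sg a haF
  -- Rolle
  exfalso
  obtain ⟨c, hc, hc0⟩ := exists_hasDerivAt_eq_zero (f := fun x => p.eval x)
    (f' := fun x => (Polynomial.derivative p).eval x) (hat.trans htb) p.continuous.continuousOn
    (by rw [hpa, hpb]) (fun x _ => p.hasDerivAt x)
  have hcF := hM.zer c hc0
  rcases le_total c t with hct | hct
  · exact absurd (ham' c hcF hct) (not_le.2 hc.1)
  · exact absurd (hbm' c hcF hct) (not_le.2 hc.2)

end KV
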