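import Pool.Agent.Lib.KV.SpecQ

set_option autoImplicit false

open Set Filter Topology Metric

namespace KV

namespace Ana1Aux

open scoped ContDiff

variable {ι : Type}

/-- The value of a polynomial with polynomial coefficients as a function of two variables. -/
noncomputable def GG (P : Polynomial (MvPolynomial ι ℝ)) (v : (ι → ℝ) × ℝ) : ℝ :=
  (spz v.1 P).eval v.2

theorem gg_eq (P : Polynomial (MvPolynomial ι ℝ)) (v : (ι → ℝ) × ℝ) :
    GG P v = MvPolynomial.eval (cns v.2 v.1) ((MvPolynomial.optionEquivLeft ℝ ι).symm P) := by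
  have := MvPolynomial.optionEquivLeft_elim_eval _ _ v.1 v.2
    ((MvPolynomial.optionEquivLeft ℝ ι).symm P)
  rw [AlgEquiv.apply_symm_apply] at this
  exact this.symm

theorem gg_contDiff [Fintype ι] (P : Polynomial (MvPolynomial ι ℝ)) (u : (ι → ℝ) × ℝ) :
    ContDiffAt ℝ ω (GG P) u := by
  have h : AnalyticAt ℝ (GG P) u := by
    have h1 : GG P = fun v : (ι → ℝ) × ℝ =>
        MvPolynomial.aeval (cns v.2 v.1) ((MvPolynomial.optionEquivLeft ℝ ι).symm P) := by
      funext v
      rw [gg_eq]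
      rfl
    rw [h1]
    refine AnalyticAt.aeval_mvPolynomial (f := fun v : (ι → ℝ) × ℝ => cns v.2 v.1) ?_ _
    rintro (_ | i)
    · exact analyticAt_snd
    · have h2 : AnalyticAt ℝ (fun v : (ι → ℝ) × ℝ => v.1) u := analyticAt_fst
      exact (analyticAt_pi_iff.1 h2) i
  exact h.contDiffAt

/-- The implicit function argument. -/
theorem implicit [Fintype ι] (P : Polynomial (MvPolynomial ι ℝ)) (f : (ι → ℝ) → ℝ)
    (x0 : ι → ℝ) (hc : ContinuousAt f x0) (hz : ∀ᶠ x in 𝓝 x0, (spz x P).eval (f x) = 0)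
    (hd : (spz x0 (Polynomial.derivative P)).eval (f x0) ≠ 0) : AnalyticAt ℝ f x0 := by
  have hG : ContDiffAt ℝ ω (GG P) (x0, f x0) := gg_contDiff P _
  have hne : (ω : WithTop ℕ∞) ≠ 0 := by simp
  -- the partial derivative
  have hF : HasFDerivAt (GG P) (fderiv ℝ (GG P) (x0, f x0)) (x0, f x0) :=
    (hG.differentiableAt hne).hasFDerivAt
  have hline : HasDerivAt (fun t : ℝ => ((x0, t) : (ι → ℝ) × ℝ)) (0, 1) (f x0) :=
    (hasDerivAt_const _ _).prodMk (hasDerivAt_id _)
  have hcomp : HasDerivAt (fun t : ℝ => GG P (x0, t))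
      (fderiv ℝ (GG P) (x0, f x0) (0, 1)) (f x0) :=
    hF.comp_hasDerivAt (f x0) hline
  have hpoly : HasDerivAt (fun t : ℝ => GG P (x0, t))
      ((spz x0 (Polynomial.derivative P)).eval (f x0)) (f x0) := by
    have := (spz x0 P).hasDerivAt (f x0)
    have h2 : Polynomial.derivative (spz x0 P) = spz x0 (Polynomial.derivative P) :=
      Polynomial.derivative_map _ _
    rw [h2] at this
    exact this
  have hval : fderiv ℝ (GG P) (x0, f x0) (0, 1) =
      (spz x0 (Polynomial.derivative P)).eval (f x0) := hcomp.unique hpoly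
  set c : ℝ := (spz x0 (Polynomial.derivative P)).eval (f x0) with hcdef
  have hinv : (fderiv ℝ (GG P) (x0, f x0) ∘L .inr ℝ (ι → ℝ) ℝ).IsInvertible := by
    refine ⟨ContinuousLinearEquiv.unitsEquivAut ℝ (Units.mk0 c hd), ?_⟩
    ext
    simp [hval]
  have h1 := hG.eventually_apply_eq_iff_implicitFunction hne hinv
  have h2 := (hG.contDiffAt_implicitFunction hne hinv).analyticAt
  have hpair : Tendsto (fun x => (x, f x)) (𝓝 x0) (𝓝 (x0, f x0)) :=
    (continuousAt_id.prodMk hc)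
  have h3 := hpair.eventually h1
  refine h2.congr ?_
  have hz0 : GG P (x0, f x0) = 0 := hz.self_of_nhds
  filter_upwards [h3, hz] with x hx hx2
  exact hx.1 (by rw [hz0]; exact hx2)

/-- Existence of a vanishing polynomial of degree `n` on a smaller open set. -/
def Good (f : (ι → ℝ) → ℝ) (O : Set (ι → ℝ)) (n : ℕ) : Prop :=
  ∃ P : Polynomial (MvPolynomial ι ℝ), P ≠ 0 ∧ P.natDegree = n ∧ ∃ O' ⊆ O, IsOpen O' ∧
    O'.Nonempty ∧ ∀ x ∈ O', (spz x P).eval (f x) = 0

end Ana1Aux

open Ana1Aux in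
theorem tAna1 (_h1 : S_TSn) (h2 : S_Cnt) (h3 : S_AlgF) (h4 : S_NowD) (_h5 : S_Dich) : S_Ana1 := by
  intro ι _ f hf O hO hne
  obtain ⟨q, hq0, hq⟩ := h2 ι f hf
  obtain ⟨P0, hP0, hP0z⟩ := h3 ι f hf
  obtain ⟨hqo, hqd⟩ := h4 ι q hq0
  set O1 : Set (ι → ℝ) := O ∩ {x : ι → ℝ | MvPolynomial.eval x q ≠ 0} with hO1
  have hO1o : IsOpen O1 := hO.inter hqo
  have hO1n : O1.Nonempty := hqd.inter_open_nonempty O hO hne
  have hex : ∃ n, Good f O1 n := by
    refine ⟨_, MvPolynomial.optionEquivLeft ℝ ι P0, ?_, rfl, O1, Subset.rfl, hO1o, hO1n, ?_⟩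
    · intro h
      exact hP0 ((MvPolynomial.optionEquivLeft ℝ ι).injective (by rw [h, map_zero]))
    · intro x _
      have := MvPolynomial.optionEquivLeft_elim_eval _ _ x (f x) P0
      unfold spz
      rw [← this]
      exact hP0z x
  classical
  obtain ⟨P, hPne, hPdeg, O', hO', hO'o, hO'n, hPz⟩ := Nat.find_spec hex
  have hmin : ∀ m < P.natDegree, ¬ Good f O1 m := fun m hm => Nat.find_min hex (hPdeg ▸ hm)
  have hdeg : P.natDegree ≠ 0 := by
    intro h0
    obtain ⟨c, hc⟩ := Polynomial.natDegree_eq_zero.1 h0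
    have hc0 : c ≠ 0 := by
      rintro rfl
      exact hPne (by rw [← hc, map_zero])
    obtain ⟨x, hx1, hx2⟩ := (h4 ι c hc0).2.inter_open_nonempty O' hO'o hO'n
    have := hPz x hx1
    rw [← hc] at this
    simp only [spz, Polynomial.map_C, Polynomial.eval_C] at this
    exact hx2 this
  have hder : (Polynomial.derivative P).natDegree < P.natDegree :=
    Polynomial.natDegree_derivative_lt hdeg
  have hder0 : Polynomial.derivative P ≠ 0 := by
    intro h
    exact hdeg (Polynomial.derivative_eq_zero.1 h)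
  have hpt : ∃ x0 ∈ O', (spz x0 (Polynomial.derivative P)).eval (f x0) ≠ 0 := by
    by_contra hcon
    push Not at hcon
    exact hmin _ hder ⟨_, hder0, rfl, O', hO', hO'o, hO'n, hcon⟩
  obtain ⟨x0, hx0, hx0d⟩ := hpt
  refine ⟨x0, (hO' hx0).1, implicit P f x0 (hq x0 (hO' hx0).2) ?_ hx0d⟩
  filter_upwards [hO'o.mem_nhds hx0] with x hx
  exact hPz x hx

end KV
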