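import Pool.Agent.Lib.KV.SpecQ

set_option autoImplicit false

open Set Filter Topology Metric

namespace KV

namespace AnaVAux

theorem sand {σ : Type} {P Q : (σ → ℝ) → Prop} (h : SQ {z | P z}) (h' : SQ {z | Q z}) :
    SQ {z | P z ∧ Q z} := h.inter h'

/-- The components of a map with semialgebraic graph. -/
theorem comp_sf (hT : S_TSn) {ι κ : Type} [Finite κ] {f : (ι → ℝ) → (κ → ℝ)} (hf : SF f)
    (j : κ) : SF1 (fun x => f x j) := by
  have h : SQ {z : Option ι → ℝ | ∃ y : κ → ℝ, y = f (fun i => z (some i)) ∧ z none = y j} := by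
    refine SQ.ex hT (P := fun (z : Option ι → ℝ) (y : κ → ℝ) =>
      y = f (fun i => z (some i)) ∧ z none = y j) ?_
    refine sand ?_ ?_
    · exact hf.reidx (fun s : ι ⊕ κ => s.elim (fun i => Sum.inl (some i)) (fun k => Sum.inr k))
    · have := SQ.eq (MvPolynomial.X (Sum.inl none) : MvPolynomial (Option ι ⊕ κ) ℝ)
        (MvPolynomial.X (Sum.inr j))
      simpa using this
  have h2 : {z : Option ι → ℝ | z none = f (fun i => z (some i)) j} =
      {z : Option ι → ℝ | ∃ y : κ → ℝ, y = f (fun i => z (some i)) ∧ z none = y j} := by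
    ext z
    constructor
    · intro hz; exact ⟨_, rfl, hz⟩
    · rintro ⟨y, rfl, hy⟩; exact hy
  show SQ {z : Option ι → ℝ | z none = f (fun i => z (some i)) j}
  rw [h2]
  exact h

theorem fin_step (hA : S_Ana1) {ι κ : Type} [Fintype ι] (f : κ → (ι → ℝ) → ℝ)
    (hf : ∀ j, SF1 (f j)) (s : Finset κ) : ∀ O : Set (ι → ℝ), IsOpen O → O.Nonempty →
    ∃ O' ⊆ O, IsOpen O' ∧ O'.Nonempty ∧ ∀ j ∈ s, ∀ x ∈ O', AnalyticAt ℝ (f j) x := by
  classical
  induction s using Finset.induction_on with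
  | empty => exact fun O hO hne => ⟨O, Subset.rfl, hO, hne, by simp⟩
  | insert j s _ ih =>
    intro O hO hne
    obtain ⟨O', hO', hop, hne', han⟩ := ih O hO hne
    obtain ⟨x, hx, hax⟩ := hA ι (f j) (hf j) O' hop hne'
    obtain ⟨W, hW1, hW2, hW3⟩ := _root_.mem_nhds_iff.1 hax.eventually_analyticAt
    refine ⟨O' ∩ W, inter_subset_left.trans hO', hop.inter hW2, ⟨x, hx, hW3⟩, ?_⟩
    intro k hk y hy
    rcases Finset.mem_insert.1 hk with rfl | hk
    · exact hW1 hy.2
    · exact han k hk y hy.1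

end AnaVAux

open AnaVAux in
theorem tAnaV (h1 : S_TSn) (h2 : S_Ana1) : S_AnaV := by
  intro ι κ _ _ f hf O hO hne
  obtain ⟨O', hO', _, ⟨x, hx⟩, han⟩ := fin_step h2 (fun j x => f x j)
    (fun j => comp_sf h1 hf j) Finset.univ O hO hne
  refine ⟨x, hO' hx, ?_⟩
  rw [analyticAt_pi_iff]
  exact fun j => han j (Finset.mem_univ _) x hx

end KV
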