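import Pool.Agent.Lib.KV.SpecQ

set_option autoImplicit false

open Set Filter Topology Metric

namespace KV

namespace CntAux

variable {ι : Type}

/-- Index type of the inner existential quantifier: two values and two points. -/
abbrev Kp (ι : Type) : Type := Option (Option (ι ⊕ ι))

/-- The matrix of the oscillation formula. -/
def Mat (f : (ι → ℝ) → ℝ) (ε δ : ℝ) (x : ι → ℝ) (w : Kp ι → ℝ) : Prop :=
  (((∀ i, w (some (some (Sum.inl i))) < x i + δ) ∧ (∀ i, x i < w (some (some (Sum.inl i))) + δ)) ∧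
    ((∀ i, w (some (some (Sum.inr i))) < x i + δ) ∧
      (∀ i, x i < w (some (some (Sum.inr i))) + δ))) ∧
    ((w none = f (fun i => w (some (some (Sum.inl i)))) ∧
      w (some none) = f (fun i => w (some (some (Sum.inr i))))) ∧
      ε + w (some none) ≤ w none)

/-- Oscillation at least `ε` at `x`. -/
def Osc (f : (ι → ℝ) → ℝ) (ε : ℝ) (x : ι → ℝ) : Prop :=
  ∀ δ : ℝ, ¬ (0 < δ) ∨ ∃ w : Kp ι → ℝ, Mat f ε δ x w

theorem osc_iff [Fintype ι] (f : (ι → ℝ) → ℝ) (ε : ℝ) (x : ι → ℝ) :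
    Osc f ε x ↔ ∀ δ > 0, ∃ y ∈ ball x δ, ∃ y' ∈ ball x δ, ε ≤ f y - f y' := by
  constructor
  · intro h δ hδ
    rcases h δ with h | ⟨w, ⟨⟨h1, h2⟩, h3, h4⟩, ⟨h5, h6⟩, h7⟩
    · exact absurd hδ h
    refine ⟨fun i => w (some (some (Sum.inl i))), ?_, fun i => w (some (some (Sum.inr i))), ?_, ?_⟩
    · rw [mem_ball, dist_pi_lt_iff hδ]
      intro i
      rw [Real.dist_eq, abs_lt]
      constructor <;> linarith [h1 i, h2 i]
    · rw [mem_ball, dist_pi_lt_iff hδ]
      intro i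
      rw [Real.dist_eq, abs_lt]
      constructor <;> linarith [h3 i, h4 i]
    · rw [← h5, ← h6]; linarith
  · intro h δ
    by_cases hδ : 0 < δ
    · right
      obtain ⟨y, hy, y', hy', hyy⟩ := h δ hδ
      rw [mem_ball, dist_pi_lt_iff hδ] at hy hy'
      refine ⟨fun o => o.elim (f y) (fun o' => o'.elim (f y') (fun s => Sum.elim y y' s)),
        ⟨⟨?_, ?_⟩, ?_, ?_⟩, ⟨rfl, rfl⟩, ?_⟩
      · intro i
        have := hy i
        rw [Real.dist_eq, abs_lt] at this
        show y i < x i + δ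
        linarith [this.2]
      · intro i
        have := hy i
        rw [Real.dist_eq, abs_lt] at this
        show x i < y i + δ
        linarith [this.1]
      · intro i
        have := hy' i
        rw [Real.dist_eq, abs_lt] at this
        show y' i < x i + δ
        linarith [this.2]
      · intro i
        have := hy' i
        rw [Real.dist_eq, abs_lt] at this
        show x i < y' i + δ
        linarith [this.1]
      · show ε + f y' ≤ f y
        linarith
    · exact Or.inl hδ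

theorem not_cont_iff [Fintype ι] (f : (ι → ℝ) → ℝ) (x : ι → ℝ) :
    ¬ ContinuousAt f x ↔ ∃ ε : ℝ, 0 < ε ∧ Osc f ε x := by
  rw [Metric.continuousAt_iff]
  constructor
  · intro h
    push Not at h
    obtain ⟨ε, hε, h⟩ := h
    refine ⟨ε, hε, (osc_iff f ε x).2 fun δ hδ => ?_⟩
    obtain ⟨y, hy, hy2⟩ := h δ hδ
    rw [Real.dist_eq] at hy2
    rcases le_abs.1 hy2 with h3 | h3
    · exact ⟨y, hy, x, mem_ball_self hδ, h3⟩
    · exact ⟨x, mem_ball_self hδ, y, hy, by linarith⟩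
  · rintro ⟨ε, hε, h⟩ hc
    obtain ⟨δ, hδ, hd⟩ := hc (ε / 2) (by linarith)
    obtain ⟨y, hy, y', hy', hyy⟩ := (osc_iff f ε x).1 h δ hδ
    have h1 := hd hy
    have h2 := hd hy'
    rw [Real.dist_eq, abs_lt] at h1 h2
    linarith [h1.1, h1.2, h2.1, h2.2]

theorem sall {σ J : Type} [Finite J] {P : J → (σ → ℝ) → Prop}
    (h : ∀ j, SQ {z : σ → ℝ | P j z}) : SQ {z : σ → ℝ | ∀ j, P j z} := by
  have := SQ.iInter h
  have h2 : (⋂ j, {z : σ → ℝ | P j z}) = {z : σ → ℝ | ∀ j, P j z} := by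
    ext z
    simp
  rwa [h2] at this

theorem sand {σ : Type} {P Q : (σ → ℝ) → Prop} (h : SQ {z | P z}) (h' : SQ {z | Q z}) :
    SQ {z | P z ∧ Q z} := h.inter h'

theorem sor {σ : Type} {P Q : (σ → ℝ) → Prop} (h : SQ {z | P z}) (h' : SQ {z | Q z}) :
    SQ {z | P z ∨ Q z} := h.union h'

theorem snot {σ : Type} {P : (σ → ℝ) → Prop} (h : SQ {z | P z}) :
    SQ {z | ¬ P z} := h.compl

/-- The oscillation set in the variables `(ε, x)` is semialgebraic. -/
theorem sq_osc (hT : S_TSn) [Finite ι] {f : (ι → ℝ) → ℝ} (hf : SF1 f) :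
    SQ {z : Option ι → ℝ | Osc f (z none) (fun i => z (some i))} := by
  refine SQ.all1 hT (P := fun (z : Option ι → ℝ) (δ : ℝ) =>
    ¬ (0 < δ) ∨ ∃ w : Kp ι → ℝ, Mat f (z none) δ (fun i => z (some i)) w) ?_
  refine sor (snot ?_) ?_
  · have := SQ.pos (MvPolynomial.X none : MvPolynomial (Option (Option ι)) ℝ)
    simpa using this
  · refine SQ.ex hT (P := fun (z : Option (Option ι) → ℝ) (w : Kp ι → ℝ) =>
      Mat f (z (some none)) (z none) (fun i => z (some (some i))) w) ?_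
    refine sand (sand (sand ?_ ?_) (sand ?_ ?_)) (sand (sand ?_ ?_) ?_)
    · refine sall fun i => ?_
      have := SQ.lt (ι := Option (Option ι) ⊕ Kp ι)
        (MvPolynomial.X (Sum.inr (some (some (Sum.inl i)))))
        (MvPolynomial.X (Sum.inl (some (some i))) + MvPolynomial.X (Sum.inl none))
      simpa using this
    · refine sall fun i => ?_
      have := SQ.lt (ι := Option (Option ι) ⊕ Kp ι)
        (MvPolynomial.X (Sum.inl (some (some i))))
        (MvPolynomial.X (Sum.inr (some (some (Sum.inl i)))) + MvPolynomial.X (Sum.inl none))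
      simpa using this
    · refine sall fun i => ?_
      have := SQ.lt (ι := Option (Option ι) ⊕ Kp ι)
        (MvPolynomial.X (Sum.inr (some (some (Sum.inr i)))))
        (MvPolynomial.X (Sum.inl (some (some i))) + MvPolynomial.X (Sum.inl none))
      simpa using this
    · refine sall fun i => ?_
      have := SQ.lt (ι := Option (Option ι) ⊕ Kp ι)
        (MvPolynomial.X (Sum.inl (some (some i))))
        (MvPolynomial.X (Sum.inr (some (some (Sum.inr i)))) + MvPolynomial.X (Sum.inl none))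
      simpa using this
    · exact SQ.reidx (ι := Option (Option ι) ⊕ Kp ι) hf (fun o : Option ι =>
        o.elim (Sum.inr none) (fun i => Sum.inr (some (some (Sum.inl i)))))
    · exact SQ.reidx (ι := Option (Option ι) ⊕ Kp ι) hf (fun o : Option ι =>
        o.elim (Sum.inr (some none)) (fun i => Sum.inr (some (some (Sum.inr i)))))
    · have := SQ.le (ι := Option (Option ι) ⊕ Kp ι)
        (MvPolynomial.X (Sum.inl (some none)) + MvPolynomial.X (Sum.inr (some none)))
        (MvPolynomial.X (Sum.inr none))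
      simpa using this

/-- The set of the discontinuities is semialgebraic. -/
theorem sq_disc (hT : S_TSn) [Fintype ι] {f : (ι → ℝ) → ℝ} (hf : SF1 f) :
    SQ {x : ι → ℝ | ¬ ContinuousAt f x} := by
  have h : SQ {x : ι → ℝ | ∃ ε : ℝ, 0 < ε ∧ Osc f ε x} := by
    refine SQ.ex1 hT (P := fun (x : ι → ℝ) (ε : ℝ) => 0 < ε ∧ Osc f ε x) ?_
    refine sand ?_ (sq_osc hT hf)
    have := SQ.pos (MvPolynomial.X none : MvPolynomial (Option ι) ℝ)
    simpa using this
  have h2 : {x : ι → ℝ | ¬ ContinuousAt f x} = {x : ι → ℝ | ∃ ε : ℝ, 0 < ε ∧ Osc f ε x} := by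
    ext x
    exact not_cont_iff f x
  rw [h2]
  exact h

/-- The oscillation sets with a constant `ε` are semialgebraic. -/
theorem sq_oscC (hT : S_TSn) [Finite ι] {f : (ι → ℝ) → ℝ} (hf : SF1 f) (ε : ℝ) :
    SQ {x : ι → ℝ | Osc f ε x} := by
  have := (sq_osc hT hf).preim (ι := ι) (fun o : Option ι => o.elim (MvPolynomial.C ε)
    (fun i => MvPolynomial.X i))
  simpa using this

/-- Preimages of intervals. -/
theorem sq_pre (hT : S_TSn) [Finite ι] {f : (ι → ℝ) → ℝ} (hf : SF1 f) (a b : ℝ) :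
    SQ {x : ι → ℝ | a ≤ f x ∧ f x ≤ b} := by
  have h : SQ {x : ι → ℝ | ∃ t : ℝ, t = f x ∧ (a ≤ t ∧ t ≤ b)} := by
    refine SQ.ex1 hT (P := fun (x : ι → ℝ) (t : ℝ) => t = f x ∧ (a ≤ t ∧ t ≤ b)) ?_
    refine sand hf (sand ?_ ?_)
    · have := SQ.le (MvPolynomial.C a : MvPolynomial (Option ι) ℝ) (MvPolynomial.X none)
      simpa using this
    · have := SQ.le (MvPolynomial.X none : MvPolynomial (Option ι) ℝ) (MvPolynomial.C b)
      simpa using this
  have h2 : {x : ι → ℝ | a ≤ f x ∧ f x ≤ b} =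
      {x : ι → ℝ | ∃ t : ℝ, t = f x ∧ (a ≤ t ∧ t ≤ b)} := by
    ext x
    constructor
    · intro hx; exact ⟨f x, rfl, hx⟩
    · rintro ⟨t, rfl, ht⟩; exact ht
  rw [h2]
  exact h

/-- An open set of discontinuities is empty. -/
theorem no_open (hT : S_TSn) (hB : S_Bai) [Fintype ι] {f : (ι → ℝ) → ℝ} (hf : SF1 f)
    (O : Set (ι → ℝ)) (hO : IsOpen O) (hne : O.Nonempty)
    (hd : ∀ x ∈ O, ¬ ContinuousAt f x) : False := by
  -- first step: a uniform oscillation on a smaller open set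
  obtain ⟨N, hN⟩ := hB ι O (fun n : ℕ => {x : ι → ℝ | Osc f (1 / ((n : ℝ) + 1)) x}) hO hne
    (fun n => sq_oscC hT hf _) (by
      intro x hx
      obtain ⟨ε, hε, hosc⟩ := (not_cont_iff f x).1 (hd x hx)
      obtain ⟨n, hn⟩ := exists_nat_one_div_lt hε
      rw [mem_iUnion]
      refine ⟨n, (osc_iff f _ x).2 fun δ hδ => ?_⟩
      obtain ⟨y, hy, y', hy', hyy⟩ := (osc_iff f ε x).1 hosc δ hδ
      exact ⟨y, hy, y', hy', hn.le.trans hyy⟩)
  set c : ℝ := 1 / ((N : ℝ) + 1) with hc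
  have hc0 : 0 < c := by positivity
  -- second step: small oscillation on a smaller open set
  obtain ⟨m, hm⟩ := hB ι (interior {x : ι → ℝ | Osc f c x} ∩ O)
    (fun n : ℕ => {x : ι → ℝ | ((Equiv.intEquivNat.symm n : ℤ) : ℝ) * (c / 3) ≤ f x ∧
      f x ≤ (((Equiv.intEquivNat.symm n : ℤ) : ℝ) + 1) * (c / 3)})
    (isOpen_interior.inter hO) hN (fun n => sq_pre hT hf _ _) (by
      intro x _
      rw [mem_iUnion]
      refine ⟨Equiv.intEquivNat ⌊f x / (c / 3)⌋, ?_⟩
      have hc3 : 0 < c / 3 := by positivity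
      simp only [mem_ofPred_eq, Equiv.symm_apply_apply]
      constructor
      · rw [← le_div_iff₀ hc3]; exact Int.floor_le _
      · rw [← div_le_iff₀ hc3]; exact (Int.lt_floor_add_one _).le)
  set j : ℝ := ((Equiv.intEquivNat.symm m : ℤ) : ℝ) with hj
  obtain ⟨x, hx1, hx2, hx3⟩ := hm
  have hxi : x ∈ {x : ι → ℝ | Osc f c x} := interior_subset hx2
  obtain ⟨δ, hδ, hball⟩ := Metric.isOpen_iff.1 isOpen_interior x hx1
  obtain ⟨y, hy, y', hy', hyy⟩ := (osc_iff f c x).1 hxi δ hδ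
  have h1 := interior_subset (hball hy)
  have h2 := interior_subset (hball hy')
  simp only [mem_ofPred_eq] at h1 h2
  linarith [h1.1, h1.2, h2.1, h2.2]

end CntAux

open CntAux in
theorem tCnt (h1 : S_TSn) (h2 : S_Dich) (h3 : S_Bai) (_h4 : S_NowD) : S_Cnt := by
  intro ι _ f hf
  obtain ⟨q, hq0, hq⟩ := h2 ι _ (sq_disc h1 hf)
  refine ⟨q, hq0, fun x hx => ?_⟩
  by_contra hcon
  have h := hq x hx
  have h' : ∀ᶠ y in 𝓝 x, ¬ ContinuousAt f y := h.mono (fun y hy => hy.2 hcon)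
  obtain ⟨O, hO1, hO2, hO3⟩ := _root_.mem_nhds_iff.1 h'
  exact no_open h1 h3 hf O hO2 ⟨x, hO3⟩ (fun y hy => hO1 hy)

end KV
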