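import Pool.Agent.Lib.KV.SpecQ

/-! # KV, block Q, module ContF (helper51) -/

set_option autoImplicit false

open Set Filter Topology Metric

namespace KV

namespace ContFAux

theorem cgr {ι : Type} {A B : Set (ι → ℝ)} (h : SQ A) (e : ∀ x, x ∈ A ↔ x ∈ B) : SQ B := by
  have h1 : A = B := Set.ext e
  rw [← h1]
  exact h

/-- Substitution of a semialgebraic function of a polynomial map. -/
theorem fsub (h : S_TSn) {ι κ : Type} {f : (κ → ℝ) → ℝ} (hf : SF1 f)
    (g : κ → MvPolynomial ι ℝ) {A : Set (Option ι → ℝ)} (hA : SQ A) :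
    SQ {w : ι → ℝ | cns (f (fun j => MvPolynomial.eval w (g j))) w ∈ A} := by
  have h1 : SQ {w : ι → ℝ | ∃ s : ℝ, s = f (fun j => MvPolynomial.eval w (g j)) ∧
      cns s w ∈ A} := by
    refine SQ.ex1 h (P := fun w s => s = f (fun j => MvPolynomial.eval w (g j)) ∧
      cns s w ∈ A) ?_
    have e1 : SQ {z : Option ι → ℝ | z none =
        f (fun j => MvPolynomial.eval (fun i => z (some i)) (g j))} := by
      have h2 := hf.preim (fun o : Option κ => match o with
        | none => (MvPolynomial.X none : MvPolynomial (Option ι) ℝ)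
        | some j => MvPolynomial.rename some (g j))
      have h3 : {x : Option ι → ℝ | (fun j => MvPolynomial.eval x ((fun o : Option κ => match o with
        | none => (MvPolynomial.X none : MvPolynomial (Option ι) ℝ)
        | some j => MvPolynomial.rename some (g j)) j)) ∈
          {z : Option κ → ℝ | z none = f (fun i => z (some i))}} =
          {z : Option ι → ℝ | z none =
            f (fun j => MvPolynomial.eval (fun i => z (some i)) (g j))} := by
        ext x
        show (MvPolynomial.eval x (MvPolynomial.X none) = f (fun i => MvPolynomial.eval x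
          (MvPolynomial.rename some (g i)))) ↔ _
        rw [MvPolynomial.eval_X]
        have h4 : (fun i => MvPolynomial.eval x (MvPolynomial.rename some (g i))) =
            fun j => MvPolynomial.eval (fun i => x (some i)) (g j) := by
          funext j
          rw [MvPolynomial.eval_rename]
          rfl
        rw [h4]
        rfl
      rw [h3] at h2
      exact h2
    have e2 : {z : Option ι → ℝ | cns (z none) (fun i => z (some i)) ∈ A} = A := by
      ext z
      have : cns (z none) (fun i => z (some i)) = z := by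
        funext o
        cases o <;> rfl
      rw [mem_ofPred_eq, this]
    have e3 : SQ {z : Option ι → ℝ | cns (z none) (fun i => z (some i)) ∈ A} := by
      rw [e2]
      exact hA
    exact e1.inter e3
  have h2 : {w : ι → ℝ | ∃ s : ℝ, s = f (fun j => MvPolynomial.eval w (g j)) ∧
      cns s w ∈ A} = {w : ι → ℝ | cns (f (fun j => MvPolynomial.eval w (g j))) w ∈ A} := by
    ext w
    constructor
    · rintro ⟨s, rfl, hs⟩
      exact hs
    · intro hw
      exact ⟨_, rfl, hw⟩
  rw [h2] at h1
  exact h1

/-- The set where the difference of two values is less than a polynomial. -/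
theorem sub_lt (h : S_TSn) {ι κ : Type} {f : (κ → ℝ) → ℝ} (hf : SF1 f)
    (g g' : κ → MvPolynomial ι ℝ) (p : MvPolynomial ι ℝ) :
    SQ {w : ι → ℝ | f (fun j => MvPolynomial.eval w (g j)) -
      f (fun j => MvPolynomial.eval w (g' j)) < MvPolynomial.eval w p} := by
  have e0 : SQ {u : Option (Option ι) → ℝ | u (some none) - u none <
      MvPolynomial.eval (fun i => u (some (some i))) p} := by
    have h1 := SQ.lt (MvPolynomial.X (some none) - MvPolynomial.X none :
      MvPolynomial (Option (Option ι)) ℝ) (MvPolynomial.rename (fun i => some (some i)) p)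
    have h2 : {x : Option (Option ι) → ℝ | MvPolynomial.eval x (MvPolynomial.X (some none) -
        MvPolynomial.X none : MvPolynomial (Option (Option ι)) ℝ) <
        MvPolynomial.eval x (MvPolynomial.rename (fun i => some (some i)) p)} =
        {u : Option (Option ι) → ℝ | u (some none) - u none <
          MvPolynomial.eval (fun i => u (some (some i))) p} := by
      ext x
      rw [mem_ofPred_eq, mem_ofPred_eq, MvPolynomial.eval_rename, map_sub, MvPolynomial.eval_X,
        MvPolynomial.eval_X]
      rfl
    rw [h2] at h1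
    exact h1
  have e1 := fsub h hf (fun j => MvPolynomial.rename some (g' j)) e0
  have e2 := fsub h hf g e1
  have e3 : {w : ι → ℝ | cns (f (fun j => MvPolynomial.eval w (g j))) w ∈
      {w : Option ι → ℝ | cns (f (fun j => MvPolynomial.eval w
        (MvPolynomial.rename some (g' j)))) w ∈ {u : Option (Option ι) → ℝ |
        u (some none) - u none < MvPolynomial.eval (fun i => u (some (some i))) p}}} =
      {w : ι → ℝ | f (fun j => MvPolynomial.eval w (g j)) -
      f (fun j => MvPolynomial.eval w (g' j)) < MvPolynomial.eval w p} := by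
    ext w
    rw [mem_ofPred_eq, mem_ofPred_eq, mem_ofPred_eq, mem_ofPred_eq]
    have h4 : (fun j => MvPolynomial.eval (cns (f fun j => MvPolynomial.eval w (g j)) w)
        (MvPolynomial.rename some (g' j))) = fun j => MvPolynomial.eval w (g' j) := by
      funext j
      rw [MvPolynomial.eval_rename]
      rfl
    rw [h4]
    rfl
  rw [e3] at e2
  exact e2

/-- The set of the points of continuity. -/
theorem cont_sq (h : S_TSn) {κ : Type} [Fintype κ] {f : (κ → ℝ) → ℝ} (hf : SF1 f) :
    SQ {z : κ → ℝ | ContinuousAt f z} := by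
  have e0 : SQ {w : Option (Option κ) ⊕ κ → ℝ |
      (∀ i, |w (Sum.inr i) - w (Sum.inl (some (some i)))| < w (Sum.inl none)) →
      |f (fun i => w (Sum.inr i)) - f (fun i => w (Sum.inl (some (some i))))| <
        w (Sum.inl (some none))} := by
    have a1 : SQ {w : Option (Option κ) ⊕ κ → ℝ |
        ∀ i, |w (Sum.inr i) - w (Sum.inl (some (some i)))| < w (Sum.inl none)} := by
      have b1 : ∀ i : κ, SQ {w : Option (Option κ) ⊕ κ → ℝ |
          |w (Sum.inr i) - w (Sum.inl (some (some i)))| < w (Sum.inl none)} := by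
        intro i
        have c1 := SQ.lt (MvPolynomial.X (Sum.inr i) - MvPolynomial.X (Sum.inl (some (some i))) :
          MvPolynomial (Option (Option κ) ⊕ κ) ℝ) (MvPolynomial.X (Sum.inl none))
        have c2 := SQ.lt (-(MvPolynomial.X (Sum.inr i) - MvPolynomial.X (Sum.inl (some (some i)))) :
          MvPolynomial (Option (Option κ) ⊕ κ) ℝ) (MvPolynomial.X (Sum.inl none))
        have c3 := c1.inter c2
        have c4 : {w : Option (Option κ) ⊕ κ → ℝ |
            |w (Sum.inr i) - w (Sum.inl (some (some i)))| < w (Sum.inl none)} =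
            {x | MvPolynomial.eval x (MvPolynomial.X (Sum.inr i) -
              MvPolynomial.X (Sum.inl (some (some i))) : MvPolynomial (Option (Option κ) ⊕ κ) ℝ) <
              MvPolynomial.eval x (MvPolynomial.X (Sum.inl none))} ∩
            {x | MvPolynomial.eval x (-(MvPolynomial.X (Sum.inr i) -
              MvPolynomial.X (Sum.inl (some (some i)))) : MvPolynomial (Option (Option κ) ⊕ κ) ℝ) <
              MvPolynomial.eval x (MvPolynomial.X (Sum.inl none))} := by
          ext x
          simp only [mem_ofPred_eq, mem_inter_iff, map_sub, map_neg, MvPolynomial.eval_X, abs_lt]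
          constructor
          · rintro ⟨h1, h2⟩
            exact ⟨h2, by linarith⟩
          · rintro ⟨h1, h2⟩
            exact ⟨by linarith, h1⟩
        rw [c4]
        exact c3
      have b2 := SQ.iInter b1
      have b3 : (⋂ i : κ, {w : Option (Option κ) ⊕ κ → ℝ |
          |w (Sum.inr i) - w (Sum.inl (some (some i)))| < w (Sum.inl none)}) =
          {w : Option (Option κ) ⊕ κ → ℝ |
            ∀ i, |w (Sum.inr i) - w (Sum.inl (some (some i)))| < w (Sum.inl none)} := by
        ext w
        simp only [mem_iInter, mem_ofPred_eq]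
      rw [b3] at b2
      exact b2
    have a2 := sub_lt h hf (fun i => (MvPolynomial.X (Sum.inr i) :
      MvPolynomial (Option (Option κ) ⊕ κ) ℝ)) (fun i => MvPolynomial.X (Sum.inl (some (some i))))
      (MvPolynomial.X (Sum.inl (some none)))
    have a3 := sub_lt h hf (fun i => (MvPolynomial.X (Sum.inl (some (some i))) :
      MvPolynomial (Option (Option κ) ⊕ κ) ℝ)) (fun i => MvPolynomial.X (Sum.inr i))
      (MvPolynomial.X (Sum.inl (some none)))
    have a4 := a1.compl.union (a2.inter a3)
    refine cgr a4 (fun w => ?_)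
    simp only [mem_union, mem_compl_iff, mem_ofPred_eq, mem_inter_iff, MvPolynomial.eval_X, abs_lt]
    constructor
    · rintro (h1 | ⟨h1, h2⟩) h3
      · exact absurd h3 h1
      · exact ⟨by linarith, h1⟩
    · intro h1
      by_cases h3 : ∀ i, -w (Sum.inl none) < w (Sum.inr i) - w (Sum.inl (some (some i))) ∧
          w (Sum.inr i) - w (Sum.inl (some (some i))) < w (Sum.inl none)
      · obtain ⟨h4, h5⟩ := h1 h3
        exact Or.inr ⟨h5, by linarith⟩
      · exact Or.inl h3
  have e1 := SQ.all h (ι := Option (Option κ)) (κ := κ) (P := fun u y =>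
    (∀ i, |y i - u (some (some i))| < u none) →
      |f y - f (fun i => u (some (some i)))| < u (some none)) e0
  have e2 : SQ {u : Option (Option κ) → ℝ | 0 < u none ∧ ∀ y : κ → ℝ,
      (∀ i, |y i - u (some (some i))| < u none) →
      |f y - f (fun i => u (some (some i)))| < u (some none)} := by
    have b1 := SQ.pos (MvPolynomial.X none : MvPolynomial (Option (Option κ)) ℝ)
    have b2 := b1.inter e1
    refine cgr b2 (fun w => ?_)
    simp only [mem_inter_iff, mem_ofPred_eq, MvPolynomial.eval_X]
  have e3 := SQ.ex1 h (ι := Option κ) (P := fun z δ => 0 < δ ∧ ∀ y : κ → ℝ,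
    (∀ i, |y i - z (some i)| < δ) → |f y - f (fun i => z (some i))| < z none) e2
  have e4 : SQ {z : Option κ → ℝ | 0 < z none → ∃ δ : ℝ, 0 < δ ∧ ∀ y : κ → ℝ,
      (∀ i, |y i - z (some i)| < δ) → |f y - f (fun i => z (some i))| < z none} := by
    have b1 := (SQ.pos (MvPolynomial.X none : MvPolynomial (Option κ) ℝ)).compl
    have b2 := b1.union e3
    refine cgr b2 (fun w => ?_)
    simp only [mem_union, mem_compl_iff, mem_ofPred_eq, MvPolynomial.eval_X, imp_iff_not_or]
  have e5 := SQ.all1 h (ι := κ) (P := fun z ε => 0 < ε → ∃ δ : ℝ, 0 < δ ∧ ∀ y : κ → ℝ,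
    (∀ i, |y i - z i| < δ) → |f y - f z| < ε) e4
  refine cgr e5 (fun z => ?_)
  rw [mem_ofPred_eq, mem_ofPred_eq, Metric.continuousAt_iff]
  constructor
  · intro h1 ε hε
    obtain ⟨δ, hδ, h2⟩ := h1 ε hε
    refine ⟨δ, hδ, fun {y} hy => ?_⟩
    rw [Real.dist_eq]
    refine h2 y (fun i => ?_)
    rw [← Real.dist_eq]
    exact lt_of_le_of_lt (dist_le_pi_dist y z i) hy
  · intro h1 ε hε
    obtain ⟨δ, hδ, h2⟩ := h1 ε hε
    refine ⟨δ, hδ, fun y hy => ?_⟩
    have h3 : dist y z < δ := by
      rw [dist_pi_lt_iff hδ]
      intro i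
      rw [Real.dist_eq]
      exact hy i
    have h4 := h2 h3
    rw [Real.dist_eq] at h4
    exact h4

end ContFAux

open ContFAux in
/-- **ContF**. Continuity near generic points of the face. -/
theorem tContF (h1 : S_TSn) (h2 : S_Cnt) (h3 : S_DL) (h4 : S_NowD) : S_ContF := by
  intro ι _ f hf
  obtain ⟨Q, hQ0, hQ⟩ := h2 (Option ι) f hf
  obtain ⟨q, hq0, hq⟩ := h3 ι _ (cont_sq h1 hf).compl
  refine ⟨q, hq0, fun x0 hx0 => ?_⟩
  obtain ⟨δ, hδ, hB | hB⟩ := hq x0 hx0
  · exfalso
    have hU : IsOpen {z : Option ι → ℝ | (fun i => z (some i)) ∈ ball x0 δ ∧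
        z none ∈ Ioo (0 : ℝ) δ} := by
      refine IsOpen.inter ?_ ?_
      · exact isOpen_ball.preimage (by fun_prop)
      · exact isOpen_Ioo.preimage (by fun_prop)
    have hne : {z : Option ι → ℝ | (fun i => z (some i)) ∈ ball x0 δ ∧
        z none ∈ Ioo (0 : ℝ) δ}.Nonempty :=
      ⟨cns (δ / 2) x0, mem_ball_self hδ, half_pos hδ, half_lt_self hδ⟩
    obtain ⟨z, ⟨hz1, hz2⟩, hz3⟩ := (h4 (Option ι) Q hQ0).2.inter_open_nonempty _ hU hne
    have h5 := hB _ hz1 _ hz2
    have h6 : cns (z none) (fun i => z (some i)) = z := by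
      funext o
      cases o <;> rfl
    rw [h6] at h5
    exact h5 (hQ z hz3)
  · exact ⟨δ, hδ, fun x hx t ht => not_not.mp (hB x hx t ht)⟩

end KV
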