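import Pool.Agent.Lib.KV.SpecQ

/-!
# KV (MP_64edc4_ag), block Q: semialgebraic sets near a generic point of the face `t = 0`
-/

set_option autoImplicit false

open Set Filter Topology Metric

namespace KV

namespace DLAux

/-- Evaluation of the specialization. -/
theorem spz_eval {ι : Type} (t : ℝ) (x : ι → ℝ) (f : MvPolynomial (Option ι) ℝ) :
    (spz x (MvPolynomial.optionEquivLeft ℝ ι f)).eval t = MvPolynomial.eval (cns t x) f := by
  induction f using MvPolynomial.induction_on with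
  | C a =>
    rw [MvPolynomial.optionEquivLeft_C, spz, Polynomial.map_C, Polynomial.eval_C,
      MvPolynomial.eval_C, MvPolynomial.eval_C]
  | add p q hp hq =>
    rw [map_add, spz, Polynomial.map_add, Polynomial.eval_add, map_add (MvPolynomial.eval _)]
    rw [spz] at hp hq
    rw [hp, hq]
  | mul_X p o hp =>
    rw [map_mul, spz, Polynomial.map_mul, Polynomial.eval_mul, map_mul (MvPolynomial.eval _)]
    rw [spz] at hp
    rw [hp]
    congr 1
    cases o with
    | none =>
      rw [MvPolynomial.optionEquivLeft_X_none, Polynomial.map_X, Polynomial.eval_X,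
        MvPolynomial.eval_X, cns_none]
    | some i =>
      rw [MvPolynomial.optionEquivLeft_X_some, Polynomial.map_C, Polynomial.eval_C,
        MvPolynomial.eval_X, MvPolynomial.eval_X, cns_some]

/-- The sign of a nonzero polynomial near a generic point of the face. -/
theorem one {ι : Type} [Fintype ι] (f : MvPolynomial (Option ι) ℝ) (hf : f ≠ 0) :
    ∃ c : MvPolynomial ι ℝ, c ≠ 0 ∧ ∀ x0, MvPolynomial.eval x0 c ≠ 0 →
      ∀ᶠ δ in 𝓝[>] (0 : ℝ), ∀ x ∈ ball x0 δ, ∀ t ∈ Ioo (0 : ℝ) δ,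
        SignType.sign (MvPolynomial.eval (cns t x) f) = SignType.sign (MvPolynomial.eval x0 c) := by
  have hF : MvPolynomial.optionEquivLeft ℝ ι f ≠ 0 := by
    intro h
    apply hf
    exact (MvPolynomial.optionEquivLeft ℝ ι).injective (by rw [h, map_zero])
  obtain ⟨G, hG, hdvd⟩ := Polynomial.exists_eq_pow_rootMultiplicity_mul_and_not_dvd
    (MvPolynomial.optionEquivLeft ℝ ι f) hF 0
  rw [Polynomial.C_0, sub_zero] at hG hdvd
  rw [Polynomial.X_dvd_iff] at hdvd
  generalize Polynomial.rootMultiplicity 0 (MvPolynomial.optionEquivLeft ℝ ι f) = m at hG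
  refine ⟨G.coeff 0, hdvd, fun x0 hx0 => ?_⟩
  obtain ⟨g, hg⟩ := (MvPolynomial.optionEquivLeft ℝ ι).surjective G
  have hev : ∀ (t : ℝ) (x : ι → ℝ), MvPolynomial.eval (cns t x) f =
      t ^ m * MvPolynomial.eval (cns t x) g := by
    intro t x
    rw [← spz_eval, hG, ← spz_eval, hg, spz, spz, Polynomial.map_mul, Polynomial.map_pow,
      Polynomial.map_X, Polynomial.eval_mul, Polynomial.eval_pow, Polynomial.eval_X]
  have h0 : MvPolynomial.eval (cns 0 x0) g = MvPolynomial.eval x0 (G.coeff 0) := by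
    rw [← spz_eval, hg, spz, ← Polynomial.coeff_zero_eq_eval_zero, Polynomial.coeff_map]
  have hc : Continuous (fun z : Option ι → ℝ => MvPolynomial.eval z g) :=
    MvPolynomial.continuous_eval g
  have hs : ∀ᶠ z in 𝓝 (cns 0 x0), SignType.sign (MvPolynomial.eval z g) =
      SignType.sign (MvPolynomial.eval x0 (G.coeff 0)) := by
    rw [← h0]
    have hne : MvPolynomial.eval (cns 0 x0) g ≠ 0 := by rw [h0]; exact hx0
    rcases lt_or_gt_of_ne hne with h | h
    · filter_upwards [hc.continuousAt.eventually (gt_mem_nhds h)] with y hy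
      rw [sign_neg hy, sign_neg h]
    · filter_upwards [hc.continuousAt.eventually (lt_mem_nhds h)] with y hy
      rw [sign_pos hy, sign_pos h]
  obtain ⟨ε, hε, hball⟩ := Metric.eventually_nhds_iff_ball.1 hs
  filter_upwards [Ioo_mem_nhdsGT hε] with δ hδ
  intro x hx t ht
  have hmem : cns t x ∈ ball (cns 0 x0) ε := by
    rw [Metric.mem_ball]
    refine lt_of_le_of_lt ((dist_pi_le_iff hδ.1.le).2 (fun o => ?_)) hδ.2
    cases o with
    | none =>
      rw [cns_none, cns_none, Real.dist_eq, sub_zero, abs_of_pos ht.1]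
      exact ht.2.le
    | some i =>
      rw [cns_some, cns_some]
      exact le_trans (dist_le_pi_dist x x0 i) (Metric.mem_ball.1 hx).le
  rw [hev, sign_mul, sign_pos (pow_pos ht.1 m), one_mul]
  exact hball _ hmem

end DLAux

open DLAux in
theorem tDL : S_DL := by
  classical
  intro ι _ A hA
  obtain ⟨Q, hQ⟩ := hA
  have hex : ∀ f : MvPolynomial (Option ι) ℝ, ∃ c : MvPolynomial ι ℝ, c ≠ 0 ∧
      (f ≠ 0 → ∀ x0, MvPolynomial.eval x0 c ≠ 0 →
      ∀ᶠ δ in 𝓝[>] (0 : ℝ), ∀ x ∈ ball x0 δ, ∀ t ∈ Ioo (0 : ℝ) δ,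
        SignType.sign (MvPolynomial.eval (cns t x) f) =
          SignType.sign (MvPolynomial.eval x0 c)) := by
    intro f
    by_cases hf : f = 0
    · exact ⟨1, one_ne_zero, fun h => absurd hf h⟩
    · obtain ⟨c, hc, h⟩ := one f hf
      exact ⟨c, hc, fun _ => h⟩
  choose c hc0 hc using hex
  refine ⟨∏ f ∈ Q, c f, ?_, fun x0 hx0 => ?_⟩
  · rw [Finset.prod_ne_zero_iff]
    exact fun f _ => hc0 f
  · rw [map_prod, Finset.prod_ne_zero_iff] at hx0
    have key : ∀ᶠ δ in 𝓝[>] (0 : ℝ), ∀ f ∈ Q, ∀ x ∈ ball x0 δ, ∀ t ∈ Ioo (0 : ℝ) δ,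
        ∀ x' ∈ ball x0 δ, ∀ t' ∈ Ioo (0 : ℝ) δ,
        SignType.sign (MvPolynomial.eval (cns t x) f) =
          SignType.sign (MvPolynomial.eval (cns t' x') f) := by
      rw [Filter.eventually_all_finset]
      intro f hf
      by_cases hf0 : f = 0
      · subst hf0
        refine Eventually.of_forall (fun δ x _ t _ x' _ t' _ => ?_)
        rw [map_zero (MvPolynomial.eval (cns t x)), map_zero (MvPolynomial.eval (cns t' x'))]
      · filter_upwards [hc f hf0 x0 (hx0 f hf)] with δ hδ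
        intro x hx t ht x' hx' t' ht'
        rw [hδ x hx t ht, hδ x' hx' t' ht']
    obtain ⟨δ, hδ, hpos⟩ := (key.and self_mem_nhdsWithin).exists
    refine ⟨δ, hpos, ?_⟩
    have hx00 : x0 ∈ ball x0 δ := mem_ball_self hpos
    have ht00 : δ / 2 ∈ Ioo (0 : ℝ) δ := ⟨by linarith, by linarith⟩
    by_cases hA : cns (δ / 2) x0 ∈ A
    · left
      intro x hx t ht
      exact hQ _ _ (fun f hf => hδ f hf x0 hx00 (δ / 2) ht00 x hx t ht) hA
    · right
      intro x hx t ht hm
      exact hA (hQ _ _ (fun f hf => hδ f hf x hx t ht x0 hx00 (δ / 2) ht00) hm)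

end KV
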