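import Pool.Agent.Lib.KV.SpecQ

/-!
# KV (MP_64edc4_ag), block Q: a semialgebraic set is locally constant off the zero set of a
polynomial
-/

set_option autoImplicit false

open Set Filter Topology Metric

namespace KV

theorem tDich : S_Dich := by
  classical
  intro ι _ A hA
  obtain ⟨Q, hQ⟩ := hA
  refine ⟨∏ f ∈ Q.filter (fun f => f ≠ 0), f, ?_, fun x hx => ?_⟩
  · rw [Finset.prod_ne_zero_iff]
    intro f hf
    exact (Finset.mem_filter.1 hf).2
  · rw [map_prod, Finset.prod_ne_zero_iff] at hx
    have key : ∀ᶠ y in 𝓝 x, ∀ f ∈ Q, SignType.sign (MvPolynomial.eval y f) =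
        SignType.sign (MvPolynomial.eval x f) := by
      rw [Filter.eventually_all_finset]
      intro f hf
      by_cases hf0 : f = 0
      · subst hf0
        exact Eventually.of_forall (fun y => by
          rw [map_zero (MvPolynomial.eval y), map_zero (MvPolynomial.eval x)])
      · have hne := hx f (Finset.mem_filter.2 ⟨hf, hf0⟩)
        have hc : Continuous (fun x : ι → ℝ => MvPolynomial.eval x f) :=
          MvPolynomial.continuous_eval f
        rcases lt_or_gt_of_ne hne with h | h
        · filter_upwards [hc.continuousAt.eventually (gt_mem_nhds h)] with y hy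
          rw [sign_neg hy, sign_neg h]
        · filter_upwards [hc.continuousAt.eventually (lt_mem_nhds h)] with y hy
          rw [sign_pos hy, sign_pos h]
    filter_upwards [key] with y hy
    exact ⟨fun h => hQ y x (fun f hf => hy f hf) h, fun h => hQ x y (fun f hf => (hy f hf).symm) h⟩

end KV
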