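import Pool.Agent.Lib.KV.SpecQ

/-! # KV, block Q: a one sided Dini derivative bound -/

set_option autoImplicit false

open Set Filter Topology Metric

namespace KV

theorem tDini : S_Dini := by
  intro g a b τ hab hg h
  have key := image_le_of_liminf_slope_right_le_deriv_boundary (f := g) (a := a) (b := b) hg
    (B := fun x => g a + τ * (x - a)) (B' := fun _ => τ) (by simp)
    (by fun_prop)
    (fun x _ => by
      have h1 : HasDerivAt (fun x : ℝ => g a + τ * (x - a)) (τ * 1) x :=
        (((hasDerivAt_id x).sub_const a).const_mul τ).const_add (g a)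
      rw [mul_one] at h1
      exact h1.hasDerivWithinAt)
    (by
      intro x hx r hr
      rw [(nhdsGT_basis x).frequently_iff]
      intro u hu
      obtain ⟨s', hs', h2⟩ := h x hx (u - x) (sub_pos.2 hu)
      refine ⟨s', ⟨hs'.1, by have := hs'.2; linarith⟩, ?_⟩
      rw [slope_def_field]
      have h3 : 0 < s' - x := sub_pos.2 hs'.1
      rw [div_lt_iff₀ h3]
      calc g s' - g x ≤ τ * (s' - x) := h2
        _ < r * (s' - x) := mul_lt_mul_of_pos_right hr h3)
  have h4 : g b ≤ g a + τ * (b - a) := key (right_mem_Icc.2 hab.le)
  linarith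

end KV
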