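import Pool.Agent.Lib.KV.SpecQ

/-! # KV, block Q, module DirF (helper51) -/

set_option autoImplicit false

open Set Filter Topology Metric

namespace KV

namespace DirFAux

theorem cgr {ι : Type} {A B : Set (ι → ℝ)} (h : SQ A) (e : ∀ x, x ∈ A ↔ x ∈ B) : SQ B := by
  have h1 : A = B := Set.ext e
  rw [← h1]
  exact h

/-- Substitution of a semialgebraic function of a polynomial map. -/
theorem fsub (h : S_TSn) {ι κ : Type} {f : (κ → ℝ) → ℝ} (hf : SF1 f)
    (g : κ → MvPolynomial ι ℝ) {A : Set (Option ι → ℝ)} (hA : SQ A) :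
    SQ {w : ι → ℝ | cns (f (fun j => MvPolynomial.eval w (g j))) w ∈ A} := by
  have h1 : SQ {w : ι → ℝ | ∃ s : ℝ, s = f (fun j => MvPolynomial.eval w (g j)) ∧
      cns s w ∈ A} := by
    refine SQ.ex1 h (P := fun w s => s = f (fun j => MvPolynomial.eval w (g j)) ∧
      cns s w ∈ A) ?_
    have e1 : SQ {z : Option ι → ℝ | z none =
        f (fun j => MvPolynomial.eval (fun i => z (some i)) (g j))} := by
      have h2 := hf.preim (fun o : Option κ => match o with
        | none => (MvPolynomial.X none : MvPolynomial (Option ι) ℝ)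
        | some j => MvPolynomial.rename some (g j))
      have h3 : {x : Option ι → ℝ | (fun j => MvPolynomial.eval x ((fun o : Option κ => match o with
        | none => (MvPolynomial.X none : MvPolynomial (Option ι) ℝ)
        | some j => MvPolynomial.rename some (g j)) j)) ∈
          {z : Option κ → ℝ | z none = f (fun i => z (some i))}} =
          {z : Option ι → ℝ | z none =
            f (fun j => MvPolynomial.eval (fun i => z (some i)) (g j))} := by
        ext x
        show (MvPolynomial.eval x (MvPolynomial.X none) = f (fun i => MvPolynomial.eval x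
          (MvPolynomial.rename some (g i)))) ↔ _
        rw [MvPolynomial.eval_X]
        have h4 : (fun i => MvPolynomial.eval x (MvPolynomial.rename some (g i))) =
            fun j => MvPolynomial.eval (fun i => x (some i)) (g j) := by
          funext j
          rw [MvPolynomial.eval_rename]
          rfl
        rw [h4]
        rfl
      rw [h3] at h2
      exact h2
    have e2 : {z : Option ι → ℝ | cns (z none) (fun i => z (some i)) ∈ A} = A := by
      ext z
      have : cns (z none) (fun i => z (some i)) = z := by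
        funext o
        cases o <;> rfl
      rw [mem_ofPred_eq, this]
    have e3 : SQ {z : Option ι → ℝ | cns (z none) (fun i => z (some i)) ∈ A} := by
      rw [e2]
      exact hA
    exact e1.inter e3
  have h2 : {w : ι → ℝ | ∃ s : ℝ, s = f (fun j => MvPolynomial.eval w (g j)) ∧
      cns s w ∈ A} = {w : ι → ℝ | cns (f (fun j => MvPolynomial.eval w (g j))) w ∈ A} := by
    ext w
    constructor
    · rintro ⟨s, rfl, hs⟩
      exact hs
    · intro hw
      exact ⟨_, rfl, hw⟩
  rw [h2] at h1
  exact h1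

/-- The set where the difference of two values is less than a polynomial. -/
theorem sub_lt (h : S_TSn) {ι κ : Type} {f : (κ → ℝ) → ℝ} (hf : SF1 f)
    (g g' : κ → MvPolynomial ι ℝ) (p : MvPolynomial ι ℝ) :
    SQ {w : ι → ℝ | f (fun j => MvPolynomial.eval w (g j)) -
      f (fun j => MvPolynomial.eval w (g' j)) < MvPolynomial.eval w p} := by
  have e0 : SQ {u : Option (Option ι) → ℝ | u (some none) - u none <
      MvPolynomial.eval (fun i => u (some (some i))) p} := by
    have h1 := SQ.lt (MvPolynomial.X (some none) - MvPolynomial.X none :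
      MvPolynomial (Option (Option ι)) ℝ) (MvPolynomial.rename (fun i => some (some i)) p)
    have h2 : {x : Option (Option ι) → ℝ | MvPolynomial.eval x (MvPolynomial.X (some none) -
        MvPolynomial.X none : MvPolynomial (Option (Option ι)) ℝ) <
        MvPolynomial.eval x (MvPolynomial.rename (fun i => some (some i)) p)} =
        {u : Option (Option ι) → ℝ | u (some none) - u none <
          MvPolynomial.eval (fun i => u (some (some i))) p} := by
      ext x
      rw [mem_ofPred_eq, mem_ofPred_eq, MvPolynomial.eval_rename, map_sub, MvPolynomial.eval_X,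
        MvPolynomial.eval_X]
      rfl
    rw [h2] at h1
    exact h1
  have e1 := fsub h hf (fun j => MvPolynomial.rename some (g' j)) e0
  have e2 := fsub h hf g e1
  have e3 : {w : ι → ℝ | cns (f (fun j => MvPolynomial.eval w (g j))) w ∈
      {w : Option ι → ℝ | cns (f (fun j => MvPolynomial.eval w
        (MvPolynomial.rename some (g' j)))) w ∈ {u : Option (Option ι) → ℝ |
        u (some none) - u none < MvPolynomial.eval (fun i => u (some (some i))) p}}} =
      {w : ι → ℝ | f (fun j => MvPolynomial.eval w (g j)) -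
      f (fun j => MvPolynomial.eval w (g' j)) < MvPolynomial.eval w p} := by
    ext w
    rw [mem_ofPred_eq, mem_ofPred_eq, mem_ofPred_eq, mem_ofPred_eq]
    have h4 : (fun j => MvPolynomial.eval (cns (f fun j => MvPolynomial.eval w (g j)) w)
        (MvPolynomial.rename some (g' j))) = fun j => MvPolynomial.eval w (g' j) := by
      funext j
      rw [MvPolynomial.eval_rename]
      rfl
    rw [h4]
    rfl
  rw [e3] at e2
  exact e2


/-- The point `z + s e_o`, as a polynomial map in the variables `s`, `ρ`, `z`. -/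
noncomputable def shp {ι : Type} [DecidableEq ι] (i : ι) (o : Option ι) :
    MvPolynomial (Option (Option (Option ι))) ℝ :=
  if o = some i then MvPolynomial.X (some (some o)) + MvPolynomial.X none
  else MvPolynomial.X (some (some o))

/-- The sets `G`. -/
theorem sqG (h : S_TSn) {ι : Type} [DecidableEq ι] {f : (Option ι → ℝ) → ℝ} (hf : SF1 f) (i : ι)
    (τ : ℝ) : SQ {z : Option ι → ℝ | ∃ ρ : ℝ, 0 < ρ ∧ ∀ s : ℝ, 0 < s → s < ρ →
      τ * s ≤ f (Function.update z (some i) (z (some i) + s)) - f z} ∧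
    SQ {z : Option ι → ℝ | ∃ ρ : ℝ, 0 < ρ ∧ ∀ s : ℝ, 0 < s → s < ρ →
      τ * s ≤ -(f (Function.update z (some i) (z (some i) + s)) - f z)} := by
  have hsh : ∀ w : Option (Option (Option ι)) → ℝ,
      (fun o => MvPolynomial.eval w (shp i o)) =
      Function.update (fun o => w (some (some o))) (some i) (w (some (some (some i))) + w none) := by
    intro w
    funext o
    by_cases ho : o = some i
    · subst ho
      rw [Function.update_self]
      show MvPolynomial.eval w (if some i = some i then _ else _) = _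
      rw [if_pos rfl, map_add, MvPolynomial.eval_X, MvPolynomial.eval_X]
    · rw [Function.update_of_ne ho]
      show MvPolynomial.eval w (if o = some i then _ else _) = _
      rw [if_neg ho, MvPolynomial.eval_X]
  have hpos : SQ {w : Option (Option (Option ι)) → ℝ | 0 < w none} := by
    refine cgr (SQ.pos (MvPolynomial.X none)) (fun w => ?_)
    rw [mem_ofPred_eq, mem_ofPred_eq, MvPolynomial.eval_X]
  have hlt : SQ {w : Option (Option (Option ι)) → ℝ | w none < w (some none)} := by
    refine cgr (SQ.lt (MvPolynomial.X none) (MvPolynomial.X (some none))) (fun w => ?_)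
    rw [mem_ofPred_eq, mem_ofPred_eq, MvPolynomial.eval_X, MvPolynomial.eval_X]
  have hpos' : SQ {w : Option (Option ι) → ℝ | 0 < w none} := by
    refine cgr (SQ.pos (MvPolynomial.X none)) (fun w => ?_)
    rw [mem_ofPred_eq, mem_ofPred_eq, MvPolynomial.eval_X]
  constructor
  · have e0 := sub_lt h hf (shp i) (fun o => MvPolynomial.X (some (some o)))
      (MvPolynomial.C τ * MvPolynomial.X none)
    have e1 : SQ {w : Option (Option (Option ι)) → ℝ | 0 < w none → w none < w (some none) →
        τ * w none ≤ f (Function.update (fun o => w (some (some o))) (some i)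
          (w (some (some (some i))) + w none)) - f (fun o => w (some (some o)))} := by
      refine cgr (hpos.compl.union (hlt.compl.union e0.compl)) (fun w => ?_)
      simp only [mem_union, mem_compl_iff, mem_ofPred_eq, hsh, map_mul, MvPolynomial.eval_C,
        MvPolynomial.eval_X, not_lt]
      constructor
      · rintro (h1 | h1 | h1) h2 h3
        · exact absurd h2 (not_lt.mpr h1)
        · exact absurd h3 (not_lt.mpr h1)
        · exact h1
      · intro h1
        by_cases h2 : 0 < w none
        · by_cases h3 : w none < w (some none)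
          · exact Or.inr (Or.inr (h1 h2 h3))
          · exact Or.inr (Or.inl (not_lt.mp h3))
        · exact Or.inl (not_lt.mp h2)
    have e2 := SQ.all1 h (ι := Option (Option ι)) (P := fun z s => 0 < s → s < z none →
      τ * s ≤ f (Function.update (fun o => z (some o)) (some i)
          (z (some (some i)) + s)) - f (fun o => z (some o))) e1
    exact SQ.ex1 h (ι := Option ι) (P := fun z ρ => 0 < ρ ∧ ∀ s : ℝ, 0 < s → s < ρ →
      τ * s ≤ f (Function.update z (some i) (z (some i) + s)) - f z) (hpos'.inter e2)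
  · have e0 := sub_lt h hf (fun o => MvPolynomial.X (some (some o))) (shp i)
      (MvPolynomial.C τ * MvPolynomial.X none)
    have e1 : SQ {w : Option (Option (Option ι)) → ℝ | 0 < w none → w none < w (some none) →
        τ * w none ≤ -(f (Function.update (fun o => w (some (some o))) (some i)
          (w (some (some (some i))) + w none)) - f (fun o => w (some (some o))))} := by
      refine cgr (hpos.compl.union (hlt.compl.union e0.compl)) (fun w => ?_)
      simp only [mem_union, mem_compl_iff, mem_ofPred_eq, hsh, map_mul, MvPolynomial.eval_C,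
        MvPolynomial.eval_X, not_lt, neg_sub]
      constructor
      · rintro (h1 | h1 | h1) h2 h3
        · exact absurd h2 (not_lt.mpr h1)
        · exact absurd h3 (not_lt.mpr h1)
        · exact h1
      · intro h1
        by_cases h2 : 0 < w none
        · by_cases h3 : w none < w (some none)
          · exact Or.inr (Or.inr (h1 h2 h3))
          · exact Or.inr (Or.inl (not_lt.mp h3))
        · exact Or.inl (not_lt.mp h2)
    have e2 := SQ.all1 h (ι := Option (Option ι)) (P := fun z s => 0 < s → s < z none →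
      τ * s ≤ -(f (Function.update (fun o => z (some o)) (some i)
          (z (some (some i)) + s)) - f (fun o => z (some o)))) e1
    exact SQ.ex1 h (ι := Option ι) (P := fun z ρ => 0 < ρ ∧ ∀ s : ℝ, 0 < s → s < ρ →
      τ * s ≤ -(f (Function.update z (some i) (z (some i) + s)) - f z)) (hpos'.inter e2)

theorem cont_path {ι : Type} [Fintype ι] [DecidableEq ι] (t : ℝ) (x : ι → ℝ) (i : ι) :
    Continuous fun u : ℝ => cns t (Function.update x i (x i + u)) := by
  refine continuous_pi fun o => ?_
  rcases o with _ | j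
  · exact continuous_const
  · show Continuous fun u : ℝ => Function.update x i (x i + u) j
    by_cases hj : j = i
    · subst hj
      simp only [Function.update_self]
      fun_prop
    · simp only [Function.update_of_ne hj]
      fun_prop

theorem upd_cns {ι : Type} [DecidableEq ι] (t : ℝ) (x : ι → ℝ) (i : ι) (a : ℝ) :
    Function.update (cns t x) (some i) a = cns t (Function.update x i a) := by
  funext o
  rcases o with _ | j
  · rfl
  · by_cases hj : j = i
    · subst hj
      rw [Function.update_self, cns_some, Function.update_self]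
    · rw [Function.update_of_ne (fun h => hj (Option.some.inj h)), cns_some, cns_some,
        Function.update_of_ne hj]

theorem box {ι : Type} [Fintype ι] [DecidableEq ι] (x0 x : ι → ℝ) (i : ι) (δ s u : ℝ)
    (hx : x ∈ ball x0 δ) (hs : Function.update x i (x i + s) ∈ ball x0 δ) (hu : 0 ≤ u)
    (hus : u ≤ s) : Function.update x i (x i + u) ∈ ball x0 δ := by
  have hδ : 0 < δ := lt_of_le_of_lt dist_nonneg hx
  rw [mem_ball, dist_pi_lt_iff hδ] at hx hs ⊢
  intro j
  by_cases hj : j = i
  · subst hj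
    have h1 := hx j
    have h2 := hs j
    rw [Function.update_self] at h2 ⊢
    rw [Real.dist_eq, abs_lt] at h1 h2 ⊢
    constructor
    · linarith [h1.1]
    · linarith [h2.2]
  · rw [Function.update_of_ne hj]
    exact hx j

/-- The path function. -/
theorem path {ι : Type} [Fintype ι] [DecidableEq ι] (F : (Option ι → ℝ) → ℝ) (x0 : ι → ℝ)
    (δ : ℝ) (hc : ∀ x ∈ ball x0 δ, ∀ t ∈ Ioo (0 : ℝ) δ, ContinuousAt F (cns t x)) (x : ι → ℝ)
    (i : ι) (t : ℝ) (ht : t ∈ Ioo (0 : ℝ) δ) (s : ℝ) (hx : x ∈ ball x0 δ)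
    (hs : Function.update x i (x i + s) ∈ ball x0 δ) :
    ContinuousOn (fun u : ℝ => F (cns t (Function.update x i (x i + u)))) (Icc 0 s) := by
  intro u hu
  have h1 := hc _ (box x0 x i δ s u hx hs hu.1 hu.2) t ht
  have h2 : ContinuousAt (fun u : ℝ => F (cns t (Function.update x i (x i + u)))) u :=
    ContinuousAt.comp (f := fun u : ℝ => cns t (Function.update x i (x i + u))) (g := F) h1
      (cont_path t x i).continuousAt
  exact h2.continuousWithinAt

theorem upd_upd {ι : Type} [DecidableEq ι] (x : ι → ℝ) (i : ι) (u s : ℝ) :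
    Function.update (Function.update x i (x i + u)) i
      ((Function.update x i (x i + u)) i + s) = Function.update x i (x i + (u + s)) := by
  rw [Function.update_self, Function.update_idem, add_assoc]

/-- Small difference quotients on one side. -/
theorem onesided {ι : Type} [Fintype ι] [DecidableEq ι] (hD : S_Dini)
    (F : (Option ι → ℝ) → ℝ) (x0 : ι → ℝ) (δ τ : ℝ)
    (hc : ∀ x ∈ ball x0 δ, ∀ t ∈ Ioo (0 : ℝ) δ, ContinuousAt F (cns t x)) (i : ι)
    (hG : ∀ x ∈ ball x0 δ, ∀ t ∈ Ioo (0 : ℝ) δ, ¬ ∃ ρ : ℝ, 0 < ρ ∧ ∀ s : ℝ, 0 < s → s < ρ →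
      τ * s ≤ F (Function.update (cns t x) (some i) (cns t x (some i) + s)) - F (cns t x))
    (x : ι → ℝ) (t : ℝ) (ht : t ∈ Ioo (0 : ℝ) δ) (s : ℝ) (hx : x ∈ ball x0 δ)
    (hs : Function.update x i (x i + s) ∈ ball x0 δ) (hs0 : 0 < s) :
    F (cns t (Function.update x i (x i + s))) - F (cns t x) ≤ τ * s := by
  have h1 := hD (fun u : ℝ => F (cns t (Function.update x i (x i + u)))) 0 s τ hs0
    (path F x0 δ hc x i t ht s hx hs) ?_
  · rw [sub_zero] at h1
    have h2 : Function.update x i (x i + 0) = x := by rw [add_zero, Function.update_eq_self]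
    simp only [h2] at h1
    exact h1
  · intro u hu ρ hρ
    have hxu := box x0 x i δ s u hx hs hu.1 hu.2.le
    have h2 := hG _ hxu t ht
    push Not at h2
    obtain ⟨s', hs'0, hs'1, hs'2⟩ := h2 ρ hρ
    refine ⟨u + s', ⟨by linarith, by linarith⟩, ?_⟩
    rw [upd_cns, cns_some, upd_upd] at hs'2
    show F (cns t (Function.update x i (x i + (u + s')))) -
      F (cns t (Function.update x i (x i + u))) ≤ τ * (u + s' - u)
    rw [add_sub_cancel_left]
    exact hs'2.le

/-- The other alternative is impossible. -/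
theorem impos {ι : Type} [Fintype ι] [DecidableEq ι] (hD : S_Dini)
    (F : (Option ι → ℝ) → ℝ) (x0 : ι → ℝ) (δ τ C : ℝ) (hδ : 0 < δ) (hτ : 0 < τ)
    (hc : ∀ x ∈ ball x0 δ, ∀ t ∈ Ioo (0 : ℝ) δ, ContinuousAt F (cns t x))
    (hC : ∀ x ∈ ball x0 δ, ∀ t ∈ Ioo (0 : ℝ) δ, |F (cns t x)| ≤ C * t) (i : ι)
    (hG : ∀ x ∈ ball x0 δ, ∀ t ∈ Ioo (0 : ℝ) δ, ∃ ρ : ℝ, 0 < ρ ∧ ∀ s : ℝ, 0 < s → s < ρ →
      τ * s ≤ F (Function.update (cns t x) (some i) (cns t x (some i) + s)) - F (cns t x)) :
    False := by
  have hx : x0 ∈ ball x0 δ := mem_ball_self hδ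
  have hs : Function.update x0 i (x0 i + δ / 2) ∈ ball x0 δ := by
    rw [mem_ball, dist_pi_lt_iff hδ]
    intro j
    by_cases hj : j = i
    · subst hj
      rw [Function.update_self, Real.dist_eq, add_sub_cancel_left, abs_of_pos (half_pos hδ)]
      exact half_lt_self hδ
    · rw [Function.update_of_ne hj, dist_self]
      exact hδ
  have hmain : ∀ t ∈ Ioo (0 : ℝ) δ, τ * (δ / 2) ≤ 2 * (C * t) := by
    intro t ht
    have h1 := hD (fun u : ℝ => -F (cns t (Function.update x0 i (x0 i + u)))) 0 (δ / 2) (-τ)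
      (half_pos hδ) (path F x0 δ hc x0 i t ht (δ / 2) hx hs).neg ?_
    · rw [sub_zero] at h1
      have h2 : Function.update x0 i (x0 i + 0) = x0 := by rw [add_zero, Function.update_eq_self]
      simp only [h2] at h1
      have h3 := hC _ hs t ht
      have h4 := hC _ hx t ht
      have h5 := (abs_le.mp h3).2
      have h6 := (abs_le.mp h4).1
      linarith
    · intro u hu ρ hρ
      have hxu := box x0 x0 i δ (δ / 2) u hx hs hu.1 hu.2.le
      obtain ⟨ρ', hρ', h2⟩ := hG _ hxu t ht
      have hm : 0 < min ρ ρ' / 2 := half_pos (lt_min hρ hρ')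
      have hm1 : min ρ ρ' / 2 < ρ := lt_of_lt_of_le (half_lt_self (lt_min hρ hρ')) (min_le_left _ _)
      have hm2 : min ρ ρ' / 2 < ρ' := lt_of_lt_of_le (half_lt_self (lt_min hρ hρ')) (min_le_right _ _)
      have h3 := h2 _ hm hm2
      rw [upd_cns, cns_some, upd_upd] at h3
      refine ⟨u + min ρ ρ' / 2, ⟨by linarith, by linarith⟩, ?_⟩
      show -F (cns t (Function.update x0 i (x0 i + (u + min ρ ρ' / 2)))) -
        -F (cns t (Function.update x0 i (x0 i + u))) ≤ -τ * (u + min ρ ρ' / 2 - u)
      rw [add_sub_cancel_left]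
      linarith
  -- a small `t`
  have hC1 : 0 < |C| + 1 := by positivity
  set t : ℝ := min (δ / 2) (τ * δ / (8 * (|C| + 1))) with ht
  have ht0 : 0 < t := lt_min (half_pos hδ) (by positivity)
  have ht1 : t < δ := lt_of_le_of_lt (min_le_left _ _) (half_lt_self hδ)
  have ht2 : t ≤ τ * δ / (8 * (|C| + 1)) := min_le_right _ _
  have h1 := hmain t ⟨ht0, ht1⟩
  have h2 : C * t ≤ (|C| + 1) * t := by
    apply mul_le_mul_of_nonneg_right _ ht0.le
    linarith [le_abs_self C]
  have h3 : (|C| + 1) * t ≤ τ * δ / 8 := by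
    calc (|C| + 1) * t ≤ (|C| + 1) * (τ * δ / (8 * (|C| + 1))) :=
          mul_le_mul_of_nonneg_left ht2 hC1.le
      _ = τ * δ / 8 := by field_simp
  have h4 : 0 < τ * δ := mul_pos hτ hδ
  linarith

end DirFAux

open DirFAux in
/-- **DirF**. Small difference quotients in the directions of the face. -/
theorem tDirF (h1 : S_TSn) (h2 : S_ContF) (h3 : S_DL) (h4 : S_Dini) : S_DirF := by
  intro ι _ _ f hf O C δ0 τ hO hδ0 hτ hC
  obtain ⟨q0, hq0, hq0'⟩ := h2 ι f hf
  choose q1 hq1 hq1' using fun i : ι => h3 ι _ (sqG h1 hf i τ).1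
  choose q2 hq2 hq2' using fun i : ι => h3 ι _ (sqG h1 hf i τ).2
  refine ⟨q0 * ((∏ i, q1 i) * ∏ i, q2 i), mul_ne_zero hq0 (mul_ne_zero
    (Finset.prod_ne_zero_iff.mpr fun i _ => hq1 i)
    (Finset.prod_ne_zero_iff.mpr fun i _ => hq2 i)), fun x0 hx0 hx => ?_⟩
  rw [map_mul, map_mul, map_prod, map_prod] at hx
  have hx0' : MvPolynomial.eval x0 q0 ≠ 0 := left_ne_zero_of_mul hx
  have hx1 : ∀ i, MvPolynomial.eval x0 (q1 i) ≠ 0 := fun i =>
    Finset.prod_ne_zero_iff.mp (left_ne_zero_of_mul (right_ne_zero_of_mul hx)) i (Finset.mem_univ i)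
  have hx2 : ∀ i, MvPolynomial.eval x0 (q2 i) ≠ 0 := fun i =>
    Finset.prod_ne_zero_iff.mp (right_ne_zero_of_mul (right_ne_zero_of_mul hx)) i
      (Finset.mem_univ i)
  obtain ⟨δ1, hδ1, hc⟩ := hq0' x0 hx0'
  obtain ⟨δ2, hδ2, hO2⟩ := Metric.isOpen_iff.mp hO x0 hx0
  choose d1 hd1 hd1' using fun i => hq1' i x0 (hx1 i)
  choose d2 hd2 hd2' using fun i => hq2' i x0 (hx2 i)
  obtain ⟨δ, hδ, hδa⟩ : ∃ δ : ℝ, 0 < δ ∧ (δ ≤ δ0 ∧ δ ≤ δ1 ∧ δ ≤ δ2 ∧ (∀ i, δ ≤ d1 i) ∧
      ∀ i, δ ≤ d2 i) := by
    have hev : ∀ a : ℝ, 0 < a → ∀ᶠ δ in 𝓝[>] (0 : ℝ), δ ≤ a := by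
      intro a ha
      filter_upwards [Ioo_mem_nhdsGT ha] with δ hδ
      exact hδ.2.le
    have hall : ∀ᶠ δ in 𝓝[>] (0 : ℝ), 0 < δ ∧ (δ ≤ δ0 ∧ δ ≤ δ1 ∧ δ ≤ δ2 ∧ (∀ i, δ ≤ d1 i) ∧
        ∀ i, δ ≤ d2 i) := by
      filter_upwards [self_mem_nhdsWithin, hev δ0 hδ0, hev δ1 hδ1, hev δ2 hδ2,
        eventually_all.mpr fun i => hev (d1 i) (hd1 i),
        eventually_all.mpr fun i => hev (d2 i) (hd2 i)] with δ a b c d e g
      exact ⟨a, b, c, d, e, g⟩
    exact hall.exists
  obtain ⟨a0, a1, a2, a3, a4⟩ := hδa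
  have hcF : ∀ x ∈ ball x0 δ, ∀ t ∈ Ioo (0 : ℝ) δ, ContinuousAt f (cns t x) :=
    fun x hx t ht => hc x (ball_subset_ball a1 hx) t ⟨ht.1, lt_of_lt_of_le ht.2 a1⟩
  have hcN : ∀ x ∈ ball x0 δ, ∀ t ∈ Ioo (0 : ℝ) δ, ContinuousAt (fun z => -f z) (cns t x) :=
    fun x hx t ht => (hcF x hx t ht).neg
  have hCF : ∀ x ∈ ball x0 δ, ∀ t ∈ Ioo (0 : ℝ) δ, |f (cns t x)| ≤ C * t :=
    fun x hx t ht => hC x (hO2 (ball_subset_ball a2 hx)) t ⟨ht.1, lt_of_lt_of_le ht.2 a0⟩
  have hCN : ∀ x ∈ ball x0 δ, ∀ t ∈ Ioo (0 : ℝ) δ, |(fun z => -f z) (cns t x)| ≤ C * t := by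
    intro x hx t ht
    show |-f (cns t x)| ≤ C * t
    rw [abs_neg]
    exact hCF x hx t ht
  have hG1 : ∀ i, ∀ x ∈ ball x0 δ, ∀ t ∈ Ioo (0 : ℝ) δ, ¬ ∃ ρ : ℝ, 0 < ρ ∧ ∀ s : ℝ, 0 < s →
      s < ρ → τ * s ≤ f (Function.update (cns t x) (some i) (cns t x (some i) + s)) -
        f (cns t x) := by
    intro i
    rcases hd1' i with h | h
    · exact (impos h4 f x0 δ τ C hδ hτ hcF hCF i (fun x hx t ht =>
        h x (ball_subset_ball (a3 i) hx) t ⟨ht.1, lt_of_lt_of_le ht.2 (a3 i)⟩)).elim
    · exact fun x hx t ht =>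
        h x (ball_subset_ball (a3 i) hx) t ⟨ht.1, lt_of_lt_of_le ht.2 (a3 i)⟩
  have hG2 : ∀ i, ∀ x ∈ ball x0 δ, ∀ t ∈ Ioo (0 : ℝ) δ, ¬ ∃ ρ : ℝ, 0 < ρ ∧ ∀ s : ℝ, 0 < s →
      s < ρ → τ * s ≤ (fun z => -f z) (Function.update (cns t x) (some i)
        (cns t x (some i) + s)) - (fun z => -f z) (cns t x) := by
    intro i
    have hcv : ∀ (z : Option ι → ℝ) (a : ℝ), (∃ ρ : ℝ, 0 < ρ ∧ ∀ s : ℝ, 0 < s → s < ρ →
        τ * s ≤ -(f (Function.update z (some i) (z (some i) + s)) - f z)) ↔
        ∃ ρ : ℝ, 0 < ρ ∧ ∀ s : ℝ, 0 < s → s < ρ →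
        τ * s ≤ (fun z => -f z) (Function.update z (some i) (z (some i) + s)) -
          (fun z => -f z) z := by
      intro z a
      have e : ∀ s, -(f (Function.update z (some i) (z (some i) + s)) - f z) =
          (fun z => -f z) (Function.update z (some i) (z (some i) + s)) - (fun z => -f z) z := by
        intro s
        show _ = -f _ - -f z
        ring
      simp only [e]
    rcases hd2' i with h | h
    · exact (impos h4 (fun z => -f z) x0 δ τ C hδ hτ hcN hCN i (fun x hx t ht =>
        (hcv _ 0).mp (h x (ball_subset_ball (a4 i) hx) t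
          ⟨ht.1, lt_of_lt_of_le ht.2 (a4 i)⟩))).elim
    · exact fun x hx t ht hh =>
        h x (ball_subset_ball (a4 i) hx) t ⟨ht.1, lt_of_lt_of_le ht.2 (a4 i)⟩ ((hcv _ 0).mpr hh)
  have hpos : ∀ i, ∀ x ∈ ball x0 δ, ∀ s : ℝ, 0 < s →
      Function.update x i (x i + s) ∈ ball x0 δ → ∀ t ∈ Ioo (0 : ℝ) δ,
      |f (cns t (Function.update x i (x i + s))) - f (cns t x)| ≤ τ * s := by
    intro i x hx s hs hxs t ht
    have e1 := onesided h4 f x0 δ τ hcF i (hG1 i) x t ht s hx hxs hs
    have e2 : -f (cns t (Function.update x i (x i + s))) - -f (cns t x) ≤ τ * s :=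
      onesided h4 (fun z => -f z) x0 δ τ hcN i (hG2 i) x t ht s hx hxs hs
    rw [abs_le]
    constructor <;> linarith
  refine ⟨δ, hδ, fun i x hx s hs t ht => ?_⟩
  rcases lt_trichotomy s 0 with h0 | h0 | h0
  · have e1 : Function.update (Function.update x i (x i + s)) i
        ((Function.update x i (x i + s)) i + -s) = x := by
      rw [upd_upd, add_neg_cancel, add_zero, Function.update_eq_self]
    have e2 := hpos i _ hs (-s) (by linarith) (by rw [e1]; exact hx) t ht
    rw [e1] at e2
    rw [abs_of_neg h0, abs_sub_comm]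
    exact e2
  · rw [h0, add_zero, Function.update_eq_self, sub_self, abs_zero, mul_zero]
  · rw [abs_of_pos h0]
    exact hpos i x hx s h0 hs t ht

end KV
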