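import Pool.Agent.Lib.KV.SpecQ

/-!
# KV (MP_64edc4_ag), block Q: generic points
-/

set_option autoImplicit false

open Set Filter Topology Metric

namespace KV

theorem tGenP (h1 : S_NowD) : S_GenP := by
  intro ι _ O q hO hne hq
  have hd : Dense (⋂ n, {x : ι → ℝ | MvPolynomial.eval x (q n) ≠ 0}) :=
    dense_iInter_of_isOpen (fun n => (h1 ι (q n) (hq n)).1) (fun n => (h1 ι (q n) (hq n)).2)
  obtain ⟨x, hxO, hx⟩ := (dense_iff_inter_open.1 hd) O hO hne
  exact ⟨x, hxO, fun n => mem_iInter.1 hx n⟩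

end KV
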