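import Pool.Agent.Lib.KV.SpecQ

/-! # KV, block Q: Lipschitz constants in the directions of the face -/

set_option autoImplicit false

open Set Filter Topology Metric

namespace KV

namespace LipSAux

theorem congr' {κ : Type} {A B : Set (κ → ℝ)} (h : SQ A) (e : ∀ x, x ∈ A ↔ x ∈ B) : SQ B := by
  have : A = B := Set.ext e
  rwa [this] at h

theorem imp' {κ : Type} {A B : (κ → ℝ) → Prop} (hA : SQ {x | A x}) (hB : SQ {x | B x}) :
    SQ {x | A x → B x} := by
  refine congr' (hA.compl.union hB) fun x => ?_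
  simp only [mem_union, mem_compl_iff, mem_ofPred_eq]
  tauto

theorem subst {κ ι : Type} (h : S_TSn) {f : (ι → ℝ) → ℝ} (hf : SF1 f)
    (F : ι → MvPolynomial κ ℝ) {R : (κ → ℝ) → ℝ → Prop}
    (hR : SQ {z : Option κ → ℝ | R (fun i => z (some i)) (z none)}) :
    SQ {x : κ → ℝ | R x (f (fun i => MvPolynomial.eval x (F i)))} := by
  have h1 : SQ {z : Option κ → ℝ |
      z none = f (fun i => MvPolynomial.eval (fun k => z (some k)) (F i))} := by
    have h2 := SQ.preim (ι := Option κ) hf (fun o : Option ι =>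
      o.elim (MvPolynomial.X none) (fun i => MvPolynomial.rename some (F i)))
    refine congr' h2 fun z => ?_
    simp only [mem_ofPred_eq, Option.elim_none, Option.elim_some, MvPolynomial.eval_X,
      MvPolynomial.eval_rename]
    rfl
  have h3 : SQ {x : κ → ℝ | ∃ t : ℝ, t = f (fun i => MvPolynomial.eval x (F i)) ∧ R x t} :=
    SQ.ex1 h (P := fun x t => t = f (fun i => MvPolynomial.eval x (F i)) ∧ R x t) (h1.inter hR)
  refine congr' h3 fun x => ?_
  simp only [mem_ofPred_eq, exists_eq_left]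

theorem absLt {κ : Type} (p q : MvPolynomial κ ℝ) :
    SQ {x : κ → ℝ | |MvPolynomial.eval x p| < MvPolynomial.eval x q} := by
  refine congr' ((SQ.lt p q).inter (SQ.lt (-p) q)) fun x => ?_
  simp only [mem_inter_iff, mem_ofPred_eq, map_neg, abs_lt]
  constructor
  · rintro ⟨h1, h2⟩; exact ⟨by linarith, h1⟩
  · rintro ⟨h1, h2⟩; exact ⟨h2, by linarith⟩

theorem absLe {κ : Type} (p q : MvPolynomial κ ℝ) :
    SQ {x : κ → ℝ | |MvPolynomial.eval x p| ≤ MvPolynomial.eval x q} := by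
  refine congr' ((SQ.le p q).inter (SQ.le (-p) q)) fun x => ?_
  simp only [mem_inter_iff, mem_ofPred_eq, map_neg, abs_le]
  constructor
  · rintro ⟨h1, h2⟩; exact ⟨by linarith, h1⟩
  · rintro ⟨h1, h2⟩; exact ⟨h2, by linarith⟩

theorem box {κ ι : Type} [Finite ι] (A : ι → MvPolynomial κ ℝ) (B : MvPolynomial κ ℝ) :
    SQ {x : κ → ℝ | ∀ i, |MvPolynomial.eval x (A i)| < MvPolynomial.eval x B} := by
  refine congr' (SQ.iInter (fun i => absLt (A i) B)) fun x => ?_
  simp only [mem_iInter, mem_ofPred_eq]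

theorem boxLe {κ ι : Type} [Finite ι] (A : ι → MvPolynomial κ ℝ) (B : MvPolynomial κ ℝ) :
    SQ {x : κ → ℝ | ∀ i, |MvPolynomial.eval x (A i)| ≤ MvPolynomial.eval x B} := by
  refine congr' (SQ.iInter (fun i => absLe (A i) B)) fun x => ?_
  simp only [mem_iInter, mem_ofPred_eq]

theorem two {κ ι : Type} (h : S_TSn) {f : (ι → ℝ) → ℝ} (hf : SF1 f)
    (F1 F2 : ι → MvPolynomial κ ℝ) (Q : MvPolynomial κ ℝ) :
    SQ {x : κ → ℝ | |f (fun i => MvPolynomial.eval x (F1 i)) -
      f (fun i => MvPolynomial.eval x (F2 i))| ≤ MvPolynomial.eval x Q} := by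
  have h1 : SQ {y : Option (Option κ) → ℝ | |y (some none) - y none| ≤
      MvPolynomial.eval (fun k => y (some (some k))) Q} := by
    refine congr' (absLe (MvPolynomial.X (some none) - MvPolynomial.X none)
      (MvPolynomial.rename (fun k => some (some k)) Q)) fun y => ?_
    simp only [mem_ofPred_eq, map_sub, MvPolynomial.eval_X, MvPolynomial.eval_rename]
    rfl
  have h2 := subst h hf (κ := Option κ) (fun i => MvPolynomial.rename some (F2 i))
    (R := fun z r2 => |z none - r2| ≤ MvPolynomial.eval (fun k => z (some k)) Q) h1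
  have h3 : SQ {z : Option κ → ℝ |
      |z none - f (fun i => MvPolynomial.eval (fun k => z (some k)) (F2 i))| ≤
      MvPolynomial.eval (fun k => z (some k)) Q} := by
    refine congr' h2 fun z => ?_
    simp only [mem_ofPred_eq, MvPolynomial.eval_rename]
    rfl
  exact subst h hf F1 (R := fun x r1 => |r1 - f (fun i => MvPolynomial.eval x (F2 i))| ≤
    MvPolynomial.eval x Q) h3

/-- pointwise Lipschitz constant `τ` at `(t, x)` in the directions of the face -/
def PL {ι : Type} (f : (Option ι → ℝ) → ℝ) (τ t : ℝ) (x : ι → ℝ) : Prop :=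
  ∃ ρ, 0 < ρ ∧ ∀ y : ι → ℝ, (∀ i, |y i - x i| < ρ) → ∀ m, 0 ≤ m → (∀ i, |y i - x i| ≤ m) →
    |f (cns t y) - f (cns t x)| ≤ τ * m

theorem SQ_PL {ι : Type} [Finite ι] (h : S_TSn) {f : (Option ι → ℝ) → ℝ} (hf : SF1 f) :
    SQ {z : Option (Option ι) → ℝ |
      PL f (z none) (z (some none)) (fun i => z (some (some i)))} := by
  refine SQ.ex1 h (P := fun z ρ => 0 < ρ ∧ ∀ y : ι → ℝ,
    (∀ i, |y i - z (some (some i))| < ρ) →
    ∀ m, 0 ≤ m → (∀ i, |y i - z (some (some i))| ≤ m) →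
    |f (cns (z (some none)) y) - f (cns (z (some none)) (fun i => z (some (some i))))| ≤
      z none * m) ?_
  have hA : SQ {w : Option (Option (Option ι)) → ℝ | 0 < w none} := by
    refine congr' (SQ.pos (MvPolynomial.X none)) fun w => ?_
    simp
  refine hA.inter ?_
  refine SQ.all h (κ := ι) (P := fun (w : Option (Option (Option ι)) → ℝ) (y : ι → ℝ) =>
    (∀ i, |y i - w (some (some (some i)))| < w none) →
    ∀ m, 0 ≤ m → (∀ i, |y i - w (some (some (some i)))| ≤ m) →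
    |f (cns (w (some (some none))) y) -
      f (cns (w (some (some none))) (fun i => w (some (some (some i)))))| ≤
      w (some none) * m) ?_
  refine imp' ?_ ?_
  · refine congr' (box (fun i => MvPolynomial.X (Sum.inr i) -
      MvPolynomial.X (Sum.inl (some (some (some i))))) (MvPolynomial.X (Sum.inl none)))
      fun w => ?_
    simp
  · refine SQ.all1 h (P := fun (w : Option (Option (Option ι)) ⊕ ι → ℝ) m => 0 ≤ m →
      (∀ i, |w (Sum.inr i) - w (Sum.inl (some (some (some i))))| ≤ m) →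
      |f (cns (w (Sum.inl (some (some none)))) (fun i => w (Sum.inr i))) -
        f (cns (w (Sum.inl (some (some none))))
          (fun i => w (Sum.inl (some (some (some i))))))| ≤
      w (Sum.inl (some none)) * m) ?_
    refine imp' ?_ (imp' ?_ ?_)
    · refine congr' (SQ.le 0 (MvPolynomial.X none)) fun w => ?_
      simp
    · refine congr' (boxLe (fun i => MvPolynomial.X (some (Sum.inr i)) -
        MvPolynomial.X (some (Sum.inl (some (some (some i)))))) (MvPolynomial.X none))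
        fun w => ?_
      simp
    · refine congr' (two h hf
        (κ := Option (Option (Option (Option ι)) ⊕ ι))
        (fun o : Option ι => o.elim (MvPolynomial.X (some (Sum.inl (some (some none)))))
          (fun i => MvPolynomial.X (some (Sum.inr i))))
        (fun o : Option ι => o.elim (MvPolynomial.X (some (Sum.inl (some (some none)))))
          (fun i => MvPolynomial.X (some (Sum.inl (some (some (some i)))))))
        (MvPolynomial.X (some (Sum.inl (some none))) * MvPolynomial.X none)) fun w => ?_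
      have e1 : (fun o : Option ι => MvPolynomial.eval w
          (o.elim (MvPolynomial.X (some (Sum.inl (some (some none)))))
          (fun i => MvPolynomial.X (some (Sum.inr i))))) =
          cns (w (some (Sum.inl (some (some none))))) (fun i => w (some (Sum.inr i))) := by
        funext o
        cases o <;> simp
      have e2 : (fun o : Option ι => MvPolynomial.eval w
          (o.elim (MvPolynomial.X (some (Sum.inl (some (some none)))))
          (fun i => MvPolynomial.X (some (Sum.inl (some (some (some i)))))))) =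
          cns (w (some (Sum.inl (some (some none)))))
            (fun i => w (some (Sum.inl (some (some (some i)))))) := by
        funext o
        cases o <;> simp
      simp only [mem_ofPred_eq, e1, e2, map_mul, MvPolynomial.eval_X]

/-- points of the face where the Lipschitz constants do not go below `τ` -/
def Bad {ι : Type} (f : (Option ι → ℝ) → ℝ) (τ : ℝ) (x : ι → ℝ) : Prop :=
  ∀ δ, 0 < δ → ∃ x' : ι → ℝ, (∀ i, |x' i - x i| < δ) ∧ ∃ t, 0 < t ∧ t < δ ∧ ¬ PL f τ t x'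

theorem SQ_Bad {ι : Type} [Finite ι] (h : S_TSn) {f : (Option ι → ℝ) → ℝ} (hf : SF1 f) :
    SQ {z : Option ι → ℝ | Bad f (z none) (fun i => z (some i))} := by
  refine SQ.all1 h (P := fun (z : Option ι → ℝ) δ => 0 < δ → ∃ x' : ι → ℝ,
    (∀ i, |x' i - z (some i)| < δ) ∧ ∃ t, 0 < t ∧ t < δ ∧ ¬ PL f (z none) t x') ?_
  refine imp' ?_ ?_
  · refine congr' (SQ.pos (MvPolynomial.X none)) fun w => ?_
    simp
  refine SQ.ex h (κ := ι) (P := fun (w : Option (Option ι) → ℝ) (x' : ι → ℝ) =>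
    (∀ i, |x' i - w (some (some i))| < w none) ∧
      ∃ t, 0 < t ∧ t < w none ∧ ¬ PL f (w (some none)) t x') ?_
  refine SQ.inter (A := {w : Option (Option ι) ⊕ ι → ℝ |
    ∀ i, |w (Sum.inr i) - w (Sum.inl (some (some i)))| < w (Sum.inl none)}) ?_ ?_
  · refine congr' (box (fun i => MvPolynomial.X (Sum.inr i) -
      MvPolynomial.X (Sum.inl (some (some i)))) (MvPolynomial.X (Sum.inl none)))
      fun w => ?_
    simp
  · refine SQ.ex1 h (P := fun (w : Option (Option ι) ⊕ ι → ℝ) t => 0 < t ∧ t < w (Sum.inl none) ∧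
      ¬ PL f (w (Sum.inl (some none))) t (fun i => w (Sum.inr i))) ?_
    refine SQ.inter (A := {w : Option (Option (Option ι) ⊕ ι) → ℝ | 0 < w none}) ?_
      (SQ.inter (A := {w : Option (Option (Option ι) ⊕ ι) → ℝ |
        w none < w (some (Sum.inl none))}) ?_ ?_)
    · refine congr' (SQ.pos (MvPolynomial.X none)) fun w => ?_
      simp
    · refine congr' (SQ.lt (MvPolynomial.X none) (MvPolynomial.X (some (Sum.inl none))))
        fun w => ?_
      simp
    · refine SQ.compl (A := {w : Option (Option (Option ι) ⊕ ι) → ℝ |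
        PL f (w (some (Sum.inl (some none)))) (w none) (fun i => w (some (Sum.inr i)))}) ?_
      refine congr' ((SQ_PL h hf).reidx (ι := Option (Option (Option ι) ⊕ ι))
        (fun o : Option (Option ι) => o.elim (some (Sum.inl (some none)))
          (fun o' => o'.elim none (fun i => some (Sum.inr i))))) fun w => ?_
      simp

theorem SQ_Bad1 {ι : Type} [Finite ι] (h : S_TSn) {f : (Option ι → ℝ) → ℝ} (hf : SF1 f)
    (τ : ℝ) : SQ {x : ι → ℝ | Bad f τ x} := by
  refine congr' ((SQ_Bad h hf).preim (ι := ι) (fun o : Option ι =>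
    o.elim (MvPolynomial.C τ) (fun i => MvPolynomial.X i))) fun x => ?_
  simp

theorem SQ_Bad2 {ι : Type} [Finite ι] (h : S_TSn) {f : (Option ι → ℝ) → ℝ} (hf : SF1 f) :
    SQ {x : ι → ℝ | ∃ τ, 0 < τ ∧ Bad f τ x} := by
  refine SQ.ex1 h (P := fun x τ => 0 < τ ∧ Bad f τ x) ?_
  refine SQ.inter (A := {w : Option ι → ℝ | 0 < w none}) ?_ (SQ_Bad h hf)
  refine congr' (SQ.pos (MvPolynomial.X none)) fun w => ?_
  simp

theorem Bad_anti {ι : Type} {f : (Option ι → ℝ) → ℝ} {τ τ' : ℝ} (h : τ' ≤ τ) {x : ι → ℝ}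
    (hx : Bad f τ x) : Bad f τ' x := by
  intro δ hδ
  obtain ⟨x', hx', t, ht, ht', hP⟩ := hx δ hδ
  refine ⟨x', hx', t, ht, ht', fun hP' => hP ?_⟩
  obtain ⟨ρ, hρ, h1⟩ := hP'
  exact ⟨ρ, hρ, fun y hy m hm hm' => (h1 y hy m hm hm').trans (mul_le_mul_of_nonneg_right h hm)⟩

theorem tele {ι : Type} [Fintype ι] [DecidableEq ι] {f : (ι → ℝ) → ℝ} {x0 : ι → ℝ} {δ τ : ℝ}
    (hδ : 0 < δ) (hτ : 0 ≤ τ)
    (h : ∀ (i : ι), ∀ x ∈ ball x0 δ, ∀ s : ℝ, Function.update x i (x i + s) ∈ ball x0 δ →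
      |f (Function.update x i (x i + s)) - f x| ≤ τ * |s|)
    {x y : ι → ℝ} (hx : x ∈ ball x0 δ) (hy : y ∈ ball x0 δ) {m : ℝ} (hm : ∀ i, |y i - x i| ≤ m) :
    ∀ S : Finset ι, |f (S.piecewise y x) - f x| ≤ S.card * (τ * m) := by
  have hpw : ∀ S : Finset ι, S.piecewise y x ∈ ball x0 δ := by
    intro S
    rw [mem_ball, dist_pi_lt_iff hδ] at hx hy ⊢
    intro i
    by_cases hi : i ∈ S
    · rw [Finset.piecewise_eq_of_mem _ _ _ hi]; exact hy i
    · rw [Finset.piecewise_eq_of_notMem _ _ _ hi]; exact hx i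
  intro S
  induction S using Finset.induction_on with
  | empty => simp
  | insert j S hj ih =>
    have h1 : (insert j S).piecewise y x = Function.update (S.piecewise y x) j
        ((S.piecewise y x) j + (y j - x j)) := by
      rw [Finset.piecewise_insert, Finset.piecewise_eq_of_notMem _ _ _ hj]
      congr 1
      ring
    have h2 := h j (S.piecewise y x) (hpw S) (y j - x j) (by rw [← h1]; exact hpw _)
    rw [← h1] at h2
    rw [Finset.card_insert_of_notMem hj]
    have h3 : τ * |y j - x j| ≤ τ * m := mul_le_mul_of_nonneg_left (hm j) hτ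
    have h4 := abs_sub_le (f ((insert j S).piecewise y x)) (f (S.piecewise y x)) (f x)
    push_cast
    linarith

theorem notBad {ι : Type} [Fintype ι] (h2 : S_DirF) (h5 : S_NowD) {f : (Option ι → ℝ) → ℝ}
    (hf : SF1 f) {O : Set (ι → ℝ)} {C δ0 τ : ℝ} (hO : IsOpen O) (hδ0 : 0 < δ0) (hτ : 0 < τ)
    (hb : ∀ x ∈ O, ∀ t ∈ Ioo (0 : ℝ) δ0, |f (cns t x)| ≤ C * t)
    {O' : Set (ι → ℝ)} (hO' : IsOpen O') (hne : O'.Nonempty) (hsub : O' ⊆ O) :
    ∃ x ∈ O', ¬ Bad f τ x := by
  classical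
  have hcard : (0 : ℝ) < (Fintype.card ι : ℝ) + 1 := by positivity
  have hτ' : 0 < τ / ((Fintype.card ι : ℝ) + 1) := div_pos hτ hcard
  obtain ⟨q, hq, hD⟩ := h2 ι f hf O C δ0 (τ / ((Fintype.card ι : ℝ) + 1)) hO hδ0 hτ' hb
  obtain ⟨_, hdense⟩ := h5 ι q hq
  obtain ⟨x0, hx0O, hx0⟩ := hdense.inter_open_nonempty O' hO' hne
  obtain ⟨δ, hδ, hD1⟩ := hD x0 (hsub hx0O) hx0
  refine ⟨x0, hx0O, fun hB => ?_⟩
  obtain ⟨x', hx', t, ht, ht', hP⟩ := hB (δ / 2) (by linarith)
  apply hP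
  refine ⟨δ / 2, by linarith, fun y hy m hm hm' => ?_⟩
  have hxb : x' ∈ ball x0 δ := by
    rw [mem_ball, dist_pi_lt_iff hδ]
    intro i
    rw [Real.dist_eq]
    linarith [hx' i]
  have hyb : y ∈ ball x0 δ := by
    rw [mem_ball, dist_pi_lt_iff hδ]
    intro i
    rw [Real.dist_eq]
    have := abs_sub_le (y i) (x' i) (x0 i)
    linarith [hx' i, hy i]
  have h6 := tele (f := fun y => f (cns t y)) hδ hτ'.le
    (fun i x hx s hs => hD1 i x hx s hs t ⟨ht, by linarith⟩) hxb hyb hm' Finset.univ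
  rw [Finset.piecewise_univ, Finset.card_univ] at h6
  refine h6.trans ?_
  have h7 : (Fintype.card ι : ℝ) * (τ / ((Fintype.card ι : ℝ) + 1)) ≤ τ := by
    rw [← mul_div_assoc, div_le_iff₀ hcard]
    nlinarith
  calc (Fintype.card ι : ℝ) * (τ / ((Fintype.card ι : ℝ) + 1) * m)
      = (Fintype.card ι : ℝ) * (τ / ((Fintype.card ι : ℝ) + 1)) * m := by ring
    _ ≤ τ * m := mul_le_mul_of_nonneg_right h7 hm

theorem unif {ι : Type} [Fintype ι] {f : (Option ι → ℝ) → ℝ} {τ : ℝ} {K : Set (ι → ℝ)}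
    (hK : IsCompact K) (h : ∀ x ∈ K, ¬ Bad f τ x) :
    ∃ δ' > 0, ∀ x ∈ K, ∀ t ∈ Ioo (0 : ℝ) δ', PL f τ t x := by
  refine hK.induction_on (p := fun s => ∃ δ' > 0, ∀ x ∈ s, ∀ t ∈ Ioo (0 : ℝ) δ', PL f τ t x)
    ?_ ?_ ?_ ?_
  · exact ⟨1, one_pos, fun x hx => absurd hx (by simp)⟩
  · rintro s s' hss ⟨δ', hδ', h1⟩
    exact ⟨δ', hδ', fun x hx => h1 x (hss hx)⟩
  · rintro s s' ⟨δ1, hδ1, h1⟩ ⟨δ2, hδ2, h2⟩
    refine ⟨min δ1 δ2, lt_min hδ1 hδ2, ?_⟩
    rintro x (hx | hx) t ht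
    · exact h1 x hx t ⟨ht.1, ht.2.trans_le (min_le_left _ _)⟩
    · exact h2 x hx t ⟨ht.1, ht.2.trans_le (min_le_right _ _)⟩
  · intro x hx
    have h1 := h x hx
    unfold Bad at h1
    push Not at h1
    obtain ⟨δ1, hδ1, h2⟩ := h1
    refine ⟨ball x δ1, mem_nhdsWithin_of_mem_nhds (ball_mem_nhds x hδ1), δ1, hδ1, ?_⟩
    intro y hy t ht
    refine h2 y ?_ t ht.1 ht.2
    intro i
    rw [mem_ball, dist_pi_lt_iff hδ1] at hy
    have := hy i
    rwa [Real.dist_eq] at this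

end LipSAux

open LipSAux in
theorem tLipS (h1 : S_TSn) (h2 : S_DirF) (h3 : S_Bai) (h4 : S_Dich) (h5 : S_NowD)
    (h6 : S_PLip) : S_LipS := by
  intro ι _ f hf O C δ0 hO hne hδ0 hb
  have hemp : ∀ O' : Set (ι → ℝ), IsOpen O' → O'.Nonempty → O' ⊆ O →
      ¬ (O' ⊆ {x : ι → ℝ | ∃ τ, 0 < τ ∧ Bad f τ x}) := by
    intro O' hO' hne' hsub hsub2
    obtain ⟨n, hn⟩ := h3 ι O' (fun n : ℕ => {x : ι → ℝ | Bad f (1 / ((n : ℝ) + 1)) x}) hO' hne'
      (fun n => SQ_Bad1 h1 hf _) (by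
        intro x hx
        obtain ⟨τ, hτ, hB⟩ := hsub2 hx
        obtain ⟨n, hn⟩ := exists_nat_one_div_lt hτ
        exact mem_iUnion.2 ⟨n, Bad_anti hn.le hB⟩)
    obtain ⟨x, hx, hx2⟩ := notBad h2 h5 hf hO hδ0 (τ := 1 / ((n : ℝ) + 1)) (by positivity) hb
      (isOpen_interior.inter hO') hn (inter_subset_right.trans hsub)
    exact hx2 (interior_subset hx.1)
  obtain ⟨q, hq, hD⟩ := h4 ι _ (SQ_Bad2 h1 hf)
  obtain ⟨_, hdense⟩ := h5 ι q hq
  obtain ⟨x1, hx1O, hx1⟩ := hdense.inter_open_nonempty O hO hne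
  have hev := hD x1 hx1
  have hx1B : x1 ∉ {x : ι → ℝ | ∃ τ, 0 < τ ∧ Bad f τ x} := by
    intro hmem
    have hev2 : ∀ᶠ y in 𝓝 x1, y ∈ {x : ι → ℝ | ∃ τ, 0 < τ ∧ Bad f τ x} :=
      hev.mono fun y hy => hy.2 hmem
    obtain ⟨U, hU, hUo, hxU⟩ := _root_.mem_nhds_iff.1 hev2
    exact hemp (U ∩ O) (hUo.inter hO) ⟨x1, hxU, hx1O⟩ inter_subset_right
      (inter_subset_left.trans hU)
  have hev2 : ∀ᶠ y in 𝓝 x1, y ∉ {x : ι → ℝ | ∃ τ, 0 < τ ∧ Bad f τ x} ∧ y ∈ O :=
    (hev.mono fun y hy hyB => hx1B (hy.1 hyB)).and (hO.mem_nhds hx1O)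
  obtain ⟨r, hr, hrO⟩ := Metric.mem_nhds_iff.1 hev2
  have hcl : closedBall x1 (r / 2) ⊆ ball x1 r := closedBall_subset_ball (by linarith)
  refine ⟨x1, hx1O, r / 2, by linarith,
    fun y hy => (hrO (hcl (ball_subset_closedBall hy))).2, ?_⟩
  intro τ hτ
  obtain ⟨δ', hδ', hP⟩ := unif (f := f) (τ := τ) (isCompact_closedBall x1 (r / 2))
    (fun x hx hB => (hrO (hcl hx)).1 ⟨τ, hτ, hB⟩)
  refine ⟨δ', hδ', fun x hx x' hx' t ht => ?_⟩
  refine h6 ι (ball x1 (r / 2)) (fun y => f (cns t y)) τ (convex_ball _ _) hτ.le ?_ x' hx' x hx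
  intro z hz
  obtain ⟨ρ, hρ, h7⟩ := hP z (ball_subset_closedBall hz) t ht
  refine ⟨ρ, hρ, fun y hy => ?_⟩
  have h8 : ∀ i, |y i - z i| ≤ ‖y - z‖ := fun i => by
    have := norm_le_pi_norm (y - z) i
    rwa [Pi.sub_apply, Real.norm_eq_abs] at this
  refine h7 y (fun i => (h8 i).trans_lt ?_) _ (norm_nonneg _) h8
  rwa [mem_ball, dist_eq_norm] at hy

end KV
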