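import Pool.Agent.Lib.KV.SpecQ

/-! # KV, block Q: Lipschitz constant in the direction `t` -/

set_option autoImplicit false

open Set Filter Topology Metric

namespace KV

namespace LipTAux

theorem congr' {κ : Type} {A B : Set (κ → ℝ)} (h : SQ A) (e : ∀ x, x ∈ A ↔ x ∈ B) : SQ B := by
  have : A = B := Set.ext e
  rwa [this] at h

theorem imp' {κ : Type} {A B : (κ → ℝ) → Prop} (hA : SQ {x | A x}) (hB : SQ {x | B x}) :
    SQ {x | A x → B x} := by
  refine congr' (hA.compl.union hB) fun x => ?_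
  simp only [mem_union, mem_compl_iff, mem_setOf_eq]
  tauto

theorem subst {κ ι : Type} (h : S_TSn) {f : (ι → ℝ) → ℝ} (hf : SF1 f)
    (F : ι → MvPolynomial κ ℝ) {R : (κ → ℝ) → ℝ → Prop}
    (hR : SQ {z : Option κ → ℝ | R (fun i => z (some i)) (z none)}) :
    SQ {x : κ → ℝ | R x (f (fun i => MvPolynomial.eval x (F i)))} := by
  have h1 : SQ {z : Option κ → ℝ |
      z none = f (fun i => MvPolynomial.eval (fun k => z (some k)) (F i))} := by
    have h2 := SQ.preim (ι := Option κ) hf (fun o : Option ι =>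
      o.elim (MvPolynomial.X none) (fun i => MvPolynomial.rename some (F i)))
    refine congr' h2 fun z => ?_
    simp only [mem_setOf_eq, Option.elim_none, Option.elim_some, MvPolynomial.eval_X,
      MvPolynomial.eval_rename]
    rfl
  have h3 : SQ {x : κ → ℝ | ∃ t : ℝ, t = f (fun i => MvPolynomial.eval x (F i)) ∧ R x t} :=
    SQ.ex1 h (P := fun x t => t = f (fun i => MvPolynomial.eval x (F i)) ∧ R x t) (h1.inter hR)
  refine congr' h3 fun x => ?_
  simp only [mem_setOf_eq, exists_eq_left]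

theorem neg' {ι : Type} {f : (ι → ℝ) → ℝ} (hf : SF1 f) : SF1 (fun z => - f z) := by
  have h2 := SQ.preim (ι := Option ι) hf (fun o : Option ι =>
    o.elim (- MvPolynomial.X none) (fun i => MvPolynomial.X (some i)))
  refine congr' h2 fun z => ?_
  simp only [mem_setOf_eq, Option.elim_none, Option.elim_some, MvPolynomial.eval_X,
    map_neg]
  constructor
  · intro h; linarith
  · intro h; linarith

/-- the set where the increments in the direction `t` are at least `a` times the step -/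
def G {ι : Type} (a : ℝ) (f : (Option ι → ℝ) → ℝ) : Set (Option ι → ℝ) :=
  {z | ∃ ρ, 0 < ρ ∧ ∀ s, 0 < s → s < ρ →
    a * s ≤ f (cns (z none + s) (fun i => z (some i))) - f z}

theorem SQ_G {ι : Type} (h : S_TSn) (a : ℝ) {f : (Option ι → ℝ) → ℝ} (hf : SF1 f) :
    SQ (G a f) := by
  refine SQ.ex1 h (P := fun z ρ => 0 < ρ ∧ ∀ s, 0 < s → s < ρ →
    a * s ≤ f (cns (z none + s) (fun i => z (some i))) - f z) ?_
  have hA : SQ {w : Option (Option ι) → ℝ | 0 < w none} := by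
    refine congr' (SQ.pos (MvPolynomial.X none)) fun w => ?_
    simp
  refine hA.inter ?_
  refine SQ.all1 h (P := fun w s => 0 < s → s < w none →
    a * s ≤ f (cns (w (some none) + s) (fun i => w (some (some i)))) - f (fun i => w (some i))) ?_
  refine imp' ?_ (imp' ?_ ?_)
  · refine congr' (SQ.pos (MvPolynomial.X none)) fun w => ?_
    simp
  · refine congr' (SQ.lt (MvPolynomial.X none) (MvPolynomial.X (some none))) fun w => ?_
    simp
  · have h1 : SQ {y : Option (Option (Option (Option (Option ι)))) → ℝ |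
        a * y (some (some none)) ≤ y (some none) - y none} := by
      refine congr' (SQ.le (MvPolynomial.C a * MvPolynomial.X (some (some none)))
        (MvPolynomial.X (some none) - MvPolynomial.X none)) fun w => ?_
      simp
    have h2 := subst h hf (κ := Option (Option (Option (Option ι))))
      (fun i => MvPolynomial.X (some (some (some i))))
      (R := fun z r2 => a * z (some none) ≤ z none - r2) h1
    have h3 := subst h hf (κ := Option (Option (Option ι)))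
      (fun o : Option ι => o.elim (MvPolynomial.X (some (some none)) + MvPolynomial.X none)
        (fun i => MvPolynomial.X (some (some (some i)))))
      (R := fun v r1 => a * v none ≤ r1 - f (fun i => v (some (some i)))) (by
        refine congr' h2 fun w => ?_
        simp)
    refine congr' h3 fun w => ?_
    have e : (fun i : Option ι => MvPolynomial.eval w
        (i.elim (MvPolynomial.X (some (some none)) + MvPolynomial.X none)
        (fun i => MvPolynomial.X (some (some (some i)))))) =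
        cns (w (some (some none)) + w none) (fun i => w (some (some (some i)))) := by
      funext i
      cases i <;> simp
    simp only [mem_setOf_eq, e]

theorem mem_G {ι : Type} {a : ℝ} {f : (Option ι → ℝ) → ℝ} {t : ℝ} {x : ι → ℝ} :
    cns t x ∈ G a f ↔ ∃ ρ, 0 < ρ ∧ ∀ s, 0 < s → s < ρ →
      a * s ≤ f (cns (t + s) x) - f (cns t x) := Iff.rfl

theorem cont {ι : Type} [Fintype ι] {f : (Option ι → ℝ) → ℝ} {x : ι → ℝ} {δ : ℝ}
    (hc : ∀ t ∈ Ioo (0 : ℝ) δ, ContinuousAt f (cns t x)) {a b : ℝ} (ha : 0 < a) (hb : b < δ) :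
    ContinuousOn (fun s => f (cns s x)) (Icc a b) := by
  intro s hs
  have h1 : ContinuousAt (fun s : ℝ => (cns s x : Option ι → ℝ)) s := by
    refine continuousAt_pi.2 fun o => ?_
    cases o
    · exact continuousAt_id
    · exact continuousAt_const
  exact (ContinuousAt.comp (f := fun s : ℝ => (cns s x : Option ι → ℝ)) (g := f) (x := s)
    (hc s ⟨ha.trans_le hs.1, hs.2.trans_lt hb⟩) h1).continuousWithinAt

theorem notAll {ι : Type} [Fintype ι] (h : S_Dini) {f : (Option ι → ℝ) → ℝ} {x : ι → ℝ}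
    {δ C : ℝ} (hδ : 0 < δ) (hc : ∀ t ∈ Ioo (0 : ℝ) δ, ContinuousAt f (cns t x))
    (hb : ∀ t ∈ Ioo (0 : ℝ) δ, |f (cns t x)| ≤ C * t)
    (hG : ∀ t ∈ Ioo (0 : ℝ) δ, cns t x ∈ G (C + 1) f) : False := by
  have ht : δ / 2 ∈ Ioo (0 : ℝ) δ := ⟨by linarith, by linarith⟩
  have hC : 0 ≤ C := by
    have h1 := (abs_nonneg _).trans (hb _ ht)
    by_contra hC
    push Not at hC
    nlinarith [ht.1]
  set t := δ / 2 with htd
  have h4 : 0 < 4 * (C + 1) := by linarith
  set t1 := t / (4 * (C + 1)) with ht1d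
  have ht1 : 0 < t1 := div_pos ht.1 h4
  have ht1e : t1 * (4 * (C + 1)) = t := by rw [ht1d]; field_simp
  have hlt : t1 < t := by nlinarith
  have h5 := h (fun s => - f (cns s x)) t1 t (-(C + 1)) hlt (cont hc ht1 ht.2).neg (by
    intro s hs ρ hρ
    obtain ⟨ρ1, hρ1, h6⟩ := mem_G.1 (hG s ⟨ht1.trans_le hs.1, hs.2.trans ht.2⟩)
    have hm : 0 < min ρ ρ1 := lt_min hρ hρ1
    have h7 := h6 (min ρ ρ1 / 2) (by linarith) (by linarith [min_le_right ρ ρ1])
    refine ⟨s + min ρ ρ1 / 2, ⟨by linarith, by linarith [min_le_left ρ ρ1]⟩, ?_⟩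
    linarith)
  have h6 := abs_le.1 (hb t ht)
  have h7 := abs_le.1 (hb t1 ⟨ht1, hlt.trans ht.2⟩)
  nlinarith [h6.2, h7.1, h5, ht1]

theorem incr {ι : Type} [Fintype ι] (h : S_Dini) {f : (Option ι → ℝ) → ℝ} {x : ι → ℝ}
    {δ a : ℝ} (hc : ∀ t ∈ Ioo (0 : ℝ) δ, ContinuousAt f (cns t x))
    (hG : ∀ t ∈ Ioo (0 : ℝ) δ, cns t x ∉ G a f) {t t' : ℝ} (ht : t ∈ Ioo (0 : ℝ) δ)
    (ht' : t' ∈ Ioo (0 : ℝ) δ) (htt : t < t') : f (cns t' x) - f (cns t x) ≤ a * (t' - t) := by
  refine h (fun s => f (cns s x)) t t' a htt (cont hc ht.1 ht'.2) ?_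
  intro s hs ρ hρ
  have h1 := hG s ⟨ht.1.trans_le hs.1, hs.2.trans ht'.2⟩
  rw [mem_G] at h1
  push Not at h1
  obtain ⟨u, hu, hu2, h3⟩ := h1 ρ hρ
  refine ⟨s + u, ⟨by linarith, by linarith⟩, ?_⟩
  linarith

end LipTAux

open LipTAux in
theorem tLipT (h1 : S_TSn) (h2 : S_ContF) (h3 : S_DL) (h4 : S_Dini) (h5 : S_NowD) : S_LipT := by
  intro ι _ f hf O C δ0 hO hne hδ0 hb
  obtain ⟨q1, hq1, hD1⟩ := h3 ι (G (C + 1) f) (SQ_G h1 _ hf)
  obtain ⟨q2, hq2, hD2⟩ := h3 ι (G (C + 1) (fun z => - f z)) (SQ_G h1 _ (neg' hf))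
  obtain ⟨q3, hq3, hD3⟩ := h2 ι f hf
  obtain ⟨_, hdense⟩ := h5 ι (q1 * q2 * q3) (mul_ne_zero (mul_ne_zero hq1 hq2) hq3)
  obtain ⟨x0, hx0O, hx0⟩ := hdense.inter_open_nonempty O hO hne
  simp only [mem_setOf_eq, map_mul, ne_eq, mul_eq_zero, not_or] at hx0
  obtain ⟨d1, hd1, hE1⟩ := hD1 x0 hx0.1.1
  obtain ⟨d2, hd2, hE2⟩ := hD2 x0 hx0.1.2
  obtain ⟨d3, hd3, hE3⟩ := hD3 x0 hx0.2
  obtain ⟨r, hr, hrO⟩ := Metric.isOpen_iff.1 hO x0 hx0O
  set δ := min (min (min d1 d2) (min d3 r)) δ0 with hδd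
  have hδ : 0 < δ := by
    refine lt_min (lt_min (lt_min hd1 hd2) (lt_min hd3 hr)) hδ0
  have e1 : δ ≤ d1 := (min_le_left _ _).trans ((min_le_left _ _).trans (min_le_left _ _))
  have e2 : δ ≤ d2 := (min_le_left _ _).trans ((min_le_left _ _).trans (min_le_right _ _))
  have e3 : δ ≤ d3 := (min_le_left _ _).trans ((min_le_right _ _).trans (min_le_left _ _))
  have er : δ ≤ r := (min_le_left _ _).trans ((min_le_right _ _).trans (min_le_right _ _))
  have e0 : δ ≤ δ0 := min_le_right _ _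
  have hc : ∀ x ∈ ball x0 δ, ∀ t ∈ Ioo (0 : ℝ) δ, ContinuousAt f (cns t x) := fun x hx t ht =>
    hE3 x (ball_subset_ball e3 hx) t ⟨ht.1, ht.2.trans_le e3⟩
  have hbb : ∀ x ∈ ball x0 δ, ∀ t ∈ Ioo (0 : ℝ) δ, |f (cns t x)| ≤ C * t := fun x hx t ht =>
    hb x (hrO (ball_subset_ball er hx)) t ⟨ht.1, ht.2.trans_le e0⟩
  have hx0b : x0 ∈ ball x0 δ := mem_ball_self hδ
  have hG1 : ∀ x ∈ ball x0 δ, ∀ t ∈ Ioo (0 : ℝ) δ, cns t x ∉ G (C + 1) f := by
    rcases hE1 with hE | hE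
    · exact (notAll h4 hδ (hc x0 hx0b) (hbb x0 hx0b) (fun t ht =>
        hE x0 (mem_ball_self hd1) t ⟨ht.1, ht.2.trans_le e1⟩)).elim
    · exact fun x hx t ht => hE x (ball_subset_ball e1 hx) t ⟨ht.1, ht.2.trans_le e1⟩
  have hG2 : ∀ x ∈ ball x0 δ, ∀ t ∈ Ioo (0 : ℝ) δ, cns t x ∉ G (C + 1) (fun z => - f z) := by
    rcases hE2 with hE | hE
    · exact (notAll h4 (f := fun z => - f z) hδ (fun t ht => (hc x0 hx0b t ht).neg)
        (fun t ht => by rw [abs_neg]; exact hbb x0 hx0b t ht) (fun t ht =>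
        hE x0 (mem_ball_self hd2) t ⟨ht.1, ht.2.trans_le e2⟩)).elim
    · exact fun x hx t ht => hE x (ball_subset_ball e2 hx) t ⟨ht.1, ht.2.trans_le e2⟩
  refine ⟨x0, hx0O, δ, hδ, (ball_subset_ball er).trans hrO, ?_⟩
  have main : ∀ x ∈ ball x0 δ, ∀ t ∈ Ioo (0 : ℝ) δ, ∀ t' ∈ Ioo (0 : ℝ) δ, t < t' →
      |f (cns t' x) - f (cns t x)| ≤ (C + 1) * (t' - t) := by
    intro x hx t ht t' ht' htt
    have k1 := incr h4 (hc x hx) (hG1 x hx) ht ht' htt
    have k2 := incr h4 (f := fun z => - f z) (fun t ht => (hc x hx t ht).neg) (hG2 x hx) ht ht' htt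
    rw [abs_le]
    exact ⟨by linarith, k1⟩
  intro x hx t ht t' ht'
  rcases lt_trichotomy t t' with hlt | heq | hgt
  · have := main x hx t ht t' ht' hlt
    rw [abs_sub_comm, abs_sub_comm t t', abs_of_pos (sub_pos.2 hlt)]
    exact this
  · rw [heq]; simp
  · have := main x hx t' ht' t ht hgt
    rw [abs_of_pos (sub_pos.2 hgt)]
    exact this

end KV
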