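import Pool.Agent.Lib.KV.SpecQ

/-! # KV, block Q: Lipschitz constants of finitely many functions near the face -/

set_option autoImplicit false

open Set Filter Topology Metric

namespace KV

namespace LipVAux

theorem aux (h1 : S_LipS) (h2 : S_LipT) {ι κ : Type} [Fintype ι] [DecidableEq κ]
    (f : κ → (Option ι → ℝ) → ℝ) (hf : ∀ j, SF1 (f j)) (C δ0 : ℝ) (hδ0 : 0 < δ0)
    (S : Finset κ) : ∀ O : Set (ι → ℝ), IsOpen O → O.Nonempty →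
    (∀ j, ∀ x ∈ O, ∀ t ∈ Ioo (0 : ℝ) δ0, |f j (cns t x)| ≤ C * t) →
    ∃ x0 ∈ O, ∃ δ > 0, ball x0 δ ⊆ O ∧ (∀ τ > 0, ∃ δ' > 0, ∀ j ∈ S, ∀ x ∈ ball x0 δ,
        ∀ x' ∈ ball x0 δ, ∀ t ∈ Ioo (0 : ℝ) δ',
          |f j (cns t x) - f j (cns t x')| ≤ τ * ‖x - x'‖) ∧
      ∀ j ∈ S, ∀ x ∈ ball x0 δ, ∀ t ∈ Ioo (0 : ℝ) δ, ∀ t' ∈ Ioo (0 : ℝ) δ,
        |f j (cns t x) - f j (cns t' x)| ≤ (C + 1) * |t - t'| := by
  induction S using Finset.induction_on with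
  | empty =>
    intro O hO hne _
    obtain ⟨x0, hx0⟩ := hne
    obtain ⟨δ, hδ, hb⟩ := Metric.isOpen_iff.1 hO x0 hx0
    exact ⟨x0, hx0, δ, hδ, hb, fun τ _ => ⟨1, one_pos, fun j hj => absurd hj (by simp)⟩,
      fun j hj => absurd hj (by simp)⟩
  | insert j S hj ih =>
    intro O hO hne hb
    obtain ⟨x0, hx0, δ, hδ, hsub, hS, hT⟩ := ih O hO hne hb
    obtain ⟨x1, hx1, δ1, hδ1, hsub1, hS1⟩ := h1 ι (f j) (hf j) (ball x0 δ) C δ0 isOpen_ball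
      ⟨x0, mem_ball_self hδ⟩ hδ0 (fun x hx t ht => hb j x (hsub hx) t ht)
    obtain ⟨x2, hx2, δ2, hδ2, hsub2, hT2⟩ := h2 ι (f j) (hf j) (ball x1 δ1) C δ0 isOpen_ball
      ⟨x1, mem_ball_self hδ1⟩ hδ0 (fun x hx t ht => hb j x (hsub (hsub1 hx)) t ht)
    have hs3 : ball x2 (min δ2 δ) ⊆ ball x2 δ2 := ball_subset_ball (min_le_left _ _)
    refine ⟨x2, hsub (hsub1 hx2), min δ2 δ, lt_min hδ2 hδ,
      (hs3.trans hsub2).trans (hsub1.trans hsub), ?_, ?_⟩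
    · intro τ hτ
      obtain ⟨d1, hd1, hA⟩ := hS τ hτ
      obtain ⟨d2, hd2, hB⟩ := hS1 τ hτ
      refine ⟨min d1 d2, lt_min hd1 hd2, ?_⟩
      intro i hi x hx x' hx' t ht
      have hx3 := hsub2 (hs3 hx)
      have hx3' := hsub2 (hs3 hx')
      rcases Finset.mem_insert.1 hi with rfl | hi
      · exact hB x hx3 x' hx3' t ⟨ht.1, ht.2.trans_le (min_le_right _ _)⟩
      · exact hA i hi x (hsub1 hx3) x' (hsub1 hx3') t ⟨ht.1, ht.2.trans_le (min_le_left _ _)⟩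
    · intro i hi x hx t ht t' ht'
      have hx3 := hs3 hx
      rcases Finset.mem_insert.1 hi with rfl | hi
      · exact hT2 x hx3 t ⟨ht.1, ht.2.trans_le (min_le_left _ _)⟩ t'
          ⟨ht'.1, ht'.2.trans_le (min_le_left _ _)⟩
      · exact hT i hi x (hsub1 (hsub2 hx3)) t ⟨ht.1, ht.2.trans_le (min_le_right _ _)⟩ t'
          ⟨ht'.1, ht'.2.trans_le (min_le_right _ _)⟩

end LipVAux

theorem tLipV (h1 : S_LipS) (h2 : S_LipT) : S_LipV := by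
  classical
  intro ι κ _ _ f hf O C δ0 hO hne hδ0 hb
  obtain ⟨x0, hx0, δ, hδ, hsub, hS, hT⟩ :=
    LipVAux.aux h1 h2 f hf C δ0 hδ0 Finset.univ O hO hne hb
  refine ⟨x0, hx0, δ, hδ, hsub, fun τ hτ => ?_, fun j => hT j (Finset.mem_univ _)⟩
  obtain ⟨d, hd, h3⟩ := hS τ hτ
  exact ⟨d, hd, fun j => h3 j (Finset.mem_univ _)⟩

end KV
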