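import Pool.Agent.Lib.KV.SpecQ

/-!
# KV, Q/NewZ: a new zero
-/

set_option autoImplicit false

open Set Filter Topology Metric

namespace KV

private theorem sg_const (g : Polynomial ℝ) (a b : ℝ) (h : ∀ s ∈ Set.uIcc a b, g.eval s ≠ 0) :
    SignType.sign (g.eval a) = SignType.sign (g.eval b) := by
  have hc : ContinuousOn (fun s => g.eval s) (Set.uIcc a b) := g.continuous.continuousOn
  have hi := intermediate_value_uIcc hc
  have h0 : (0 : ℝ) ∉ Set.uIcc (g.eval a) (g.eval b) := by
    intro h1
    obtain ⟨s, hs, hs0⟩ := hi h1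
    exact h s hs hs0
  rcases lt_trichotomy (g.eval a) 0 with ha | ha | ha
  · rcases lt_trichotomy (g.eval b) 0 with hb | hb | hb
    · rw [sign_neg ha, sign_neg hb]
    · exact absurd hb (h b Set.right_mem_uIcc)
    · exact absurd (Set.mem_uIcc.2 (Or.inl ⟨ha.le, hb.le⟩)) h0
  · exact absurd ha (h a Set.left_mem_uIcc)
  · rcases lt_trichotomy (g.eval b) 0 with hb | hb | hb
    · exact absurd (Set.mem_uIcc.2 (Or.inr ⟨hb.le, ha.le⟩)) h0
    · exact absurd hb (h b Set.right_mem_uIcc)
    · rw [sign_pos ha, sign_pos hb]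

private theorem endR (g : Polynomial ℝ) (hd : 0 < g.natDegree) :
    ∀ᶠ t in atTop, SignType.sign (g.eval t) = SignType.sign g.leadingCoeff := by
  have hd' : 0 < g.degree := Polynomial.natDegree_pos_iff_degree_pos.1 hd
  have h0 : g.leadingCoeff ≠ 0 := by
    intro h
    rw [Polynomial.leadingCoeff_eq_zero] at h
    rw [h, Polynomial.natDegree_zero] at hd
    exact lt_irrefl _ hd
  rcases lt_or_gt_of_ne h0 with h | h
  · have h1 := Polynomial.tendsto_atBot_of_leadingCoeff_nonpos g hd' h.le
    filter_upwards [h1.eventually_lt_atBot 0] with t ht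
    rw [sign_neg ht, sign_neg h]
  · have h1 := Polynomial.tendsto_atTop_of_leadingCoeff_nonneg g hd' h.le
    filter_upwards [h1.eventually_gt_atTop 0] with t ht
    rw [sign_pos ht, sign_pos h]

private theorem endL (g : Polynomial ℝ) (hd : 0 < g.natDegree) :
    ∀ᶠ t in atBot, SignType.sign (g.eval t) =
      SignType.sign g.leadingCoeff * SignType.sign ((-1 : ℝ) ^ g.natDegree) := by
  have hn : (-Polynomial.X : Polynomial ℝ).natDegree = 1 := by
    rw [Polynomial.natDegree_neg, Polynomial.natDegree_X]
  have hl : (g.comp (-Polynomial.X)).leadingCoeff = g.leadingCoeff * (-1) ^ g.natDegree := by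
    rw [Polynomial.leadingCoeff_comp (by rw [hn]; exact one_ne_zero), Polynomial.leadingCoeff_neg,
      Polynomial.leadingCoeff_X]
  have hd2 : 0 < (g.comp (-Polynomial.X)).natDegree := by
    rw [Polynomial.natDegree_comp, hn, mul_one]
    exact hd
  have h := endR (g.comp (-Polynomial.X)) hd2
  rw [hl, sign_mul] at h
  have h2 := tendsto_neg_atBot_atTop.eventually h
  filter_upwards [h2] with t ht
  rw [← ht, Polynomial.eval_comp, Polynomial.eval_neg, Polynomial.eval_X, neg_neg]

private theorem newz_pos (p p' : Polynomial ℝ) (φ : ℝ ≃o ℝ) (F : Finset ℝ) (hM : MD p p' φ F)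
    (ζ : ℝ) (h0 : p.eval ζ = 0) (hζ : ζ ∉ F) (hd : 0 < (Polynomial.derivative p).eval ζ) :
    ∃ ζ', p'.eval ζ' = 0 ∧ (∀ y ∈ F, y < ζ ↔ φ y < ζ') ∧ ∀ y ∈ F, φ y ≠ ζ' := by
  have hd' : 0 < p'.natDegree := hM.deg ▸ hM.deg0
  -- the point on the left
  have hleft : ∃ u, p'.eval u < 0 ∧ u < φ ζ ∧ ∀ y ∈ F, y < ζ → φ y ≤ u := by
    rcases (F.filter (fun y => y < ζ)).eq_empty_or_nonempty with hL | hL
    · have hL' : ∀ y ∈ F, ¬ y < ζ := fun y hy hty => by
        have : y ∈ F.filter (fun y => y < ζ) := Finset.mem_filter.2 ⟨hy, hty⟩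
        rw [hL] at this
        exact absurd this (Finset.notMem_empty _)
      have hdp : ∀ s, s ≤ ζ → 0 < (Polynomial.derivative p).eval s := by
        intro s hs
        have e := sg_const (Polynomial.derivative p) s ζ (by
          intro r hr hr0
          rw [Set.uIcc_of_le hs] at hr
          have hrF := hM.zer r hr0
          refine hL' r hrF (lt_of_le_of_ne hr.2 ?_)
          rintro rfl
          exact hζ hrF)
        rw [sign_pos hd, sign_eq_one_iff] at e
        exact e
      have hmono : StrictMonoOn (fun x => p.eval x) (Set.Iic ζ) := by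
        apply strictMonoOn_of_deriv_pos (convex_Iic ζ) p.continuous.continuousOn
        intro x hx
        rw [interior_Iic] at hx
        rw [Polynomial.deriv]
        exact hdp x (le_of_lt hx)
      have hneg : ∀ s, s < ζ → p.eval s < 0 := by
        intro s hs
        have := hmono (Set.mem_Iic.2 hs.le) (Set.mem_Iic.2 le_rfl) hs
        rw [← h0]
        exact this
      have hsgn : SignType.sign p.leadingCoeff * SignType.sign ((-1 : ℝ) ^ p.natDegree) = -1 := by
        obtain ⟨s, hs, hs2⟩ := ((endL p hM.deg0).and (eventually_lt_atBot ζ)).exists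
        rw [← hs, sign_neg (hneg s hs2)]
      obtain ⟨u, hu, hu2⟩ := ((endL p' hd').and (eventually_lt_atBot (φ ζ))).exists
      refine ⟨u, ?_, hu2, fun y hy hyz => absurd hyz (hL' y hy)⟩
      rw [← hM.lc, ← hM.deg, hsgn] at hu
      exact sign_eq_neg_one_iff.1 hu
    · obtain ⟨a, ha, ham⟩ : ∃ a ∈ F.filter (fun y => y < ζ),
          ∀ y ∈ F.filter (fun y => y < ζ), y ≤ a :=
        ⟨_, Finset.max'_mem _ hL, fun y hy => Finset.le_max' _ _ hy⟩
      obtain ⟨haF, haζ⟩ := Finset.mem_filter.1 ha
      have ham' : ∀ y ∈ F, y ≤ ζ → y ≤ a := fun y hy hty => ham y (Finset.mem_filter.2 ⟨hy,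
        lt_of_le_of_ne hty (by rintro rfl; exact hζ hy)⟩)
      have hdp : ∀ s, a < s → s ≤ ζ → 0 < (Polynomial.derivative p).eval s := by
        intro s has hs
        have e := sg_const (Polynomial.derivative p) s ζ (by
          intro r hr hr0
          rw [Set.uIcc_of_le hs] at hr
          have hrF := hM.zer r hr0
          exact absurd (ham' r hrF hr.2) (not_le.2 (has.trans_le hr.1)))
        rw [sign_pos hd, sign_eq_one_iff] at e
        exact e
      have hmono : StrictMonoOn (fun x => p.eval x) (Set.Icc a ζ) := by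
        apply strictMonoOn_of_deriv_pos (convex_Icc a ζ) p.continuous.continuousOn
        intro x hx
        rw [interior_Icc] at hx
        rw [Polynomial.deriv]
        exact hdp x hx.1 hx.2.le
      have hpa : p.eval a < 0 := by
        have := hmono (Set.left_mem_Icc.2 haζ.le) (Set.right_mem_Icc.2 haζ.le) haζ
        rw [← h0]
        exact this
      refine ⟨φ a, ?_, φ.strictMono haζ, fun y hy hyz => φ.monotone (ham' y hy hyz.le)⟩
      have := hM.sg a haF
      rw [sign_neg hpa] at this
      exact sign_eq_neg_one_iff.1 this.symm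
  -- the point on the right
  have hright : ∃ v, 0 < p'.eval v ∧ φ ζ < v ∧ ∀ y ∈ F, ζ < y → v ≤ φ y := by
    rcases (F.filter (fun y => ζ < y)).eq_empty_or_nonempty with hR | hR
    · have hR' : ∀ y ∈ F, ¬ ζ < y := fun y hy hty => by
        have : y ∈ F.filter (fun y => ζ < y) := Finset.mem_filter.2 ⟨hy, hty⟩
        rw [hR] at this
        exact absurd this (Finset.notMem_empty _)
      have hdp : ∀ s, ζ ≤ s → 0 < (Polynomial.derivative p).eval s := by
        intro s hs
        have e := sg_const (Polynomial.derivative p) ζ s (by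
          intro r hr hr0
          rw [Set.uIcc_of_le hs] at hr
          have hrF := hM.zer r hr0
          refine hR' r hrF (lt_of_le_of_ne hr.1 ?_)
          rintro rfl
          exact hζ hrF)
        rw [sign_pos hd] at e
        exact sign_eq_one_iff.1 e.symm
      have hmono : StrictMonoOn (fun x => p.eval x) (Set.Ici ζ) := by
        apply strictMonoOn_of_deriv_pos (convex_Ici ζ) p.continuous.continuousOn
        intro x hx
        rw [interior_Ici] at hx
        rw [Polynomial.deriv]
        exact hdp x (le_of_lt hx)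
      have hpos : ∀ s, ζ < s → 0 < p.eval s := by
        intro s hs
        have := hmono (Set.mem_Ici.2 le_rfl) (Set.mem_Ici.2 hs.le) hs
        rw [← h0]
        exact this
      have hsgn : SignType.sign p.leadingCoeff = 1 := by
        obtain ⟨s, hs, hs2⟩ := ((endR p hM.deg0).and (eventually_gt_atTop ζ)).exists
        rw [← hs, sign_pos (hpos s hs2)]
      obtain ⟨v, hv, hv2⟩ := ((endR p' hd').and (eventually_gt_atTop (φ ζ))).exists
      refine ⟨v, ?_, hv2, fun y hy hyz => absurd hyz (hR' y hy)⟩
      rw [← hM.lc, hsgn] at hv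
      exact sign_eq_one_iff.1 hv
    · obtain ⟨b, hb, hbm⟩ : ∃ b ∈ F.filter (fun y => ζ < y),
          ∀ y ∈ F.filter (fun y => ζ < y), b ≤ y :=
        ⟨_, Finset.min'_mem _ hR, fun y hy => Finset.min'_le _ _ hy⟩
      obtain ⟨hbF, hζb⟩ := Finset.mem_filter.1 hb
      have hbm' : ∀ y ∈ F, ζ ≤ y → b ≤ y := fun y hy hty => hbm y (Finset.mem_filter.2 ⟨hy,
        lt_of_le_of_ne hty (by rintro rfl; exact hζ hy)⟩)
      have hdp : ∀ s, s < b → ζ ≤ s → 0 < (Polynomial.derivative p).eval s := by
        intro s hsb hs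
        have e := sg_const (Polynomial.derivative p) ζ s (by
          intro r hr hr0
          rw [Set.uIcc_of_le hs] at hr
          have hrF := hM.zer r hr0
          exact absurd (hbm' r hrF hr.1) (not_le.2 (hr.2.trans_lt hsb)))
        rw [sign_pos hd] at e
        exact sign_eq_one_iff.1 e.symm
      have hmono : StrictMonoOn (fun x => p.eval x) (Set.Icc ζ b) := by
        apply strictMonoOn_of_deriv_pos (convex_Icc ζ b) p.continuous.continuousOn
        intro x hx
        rw [interior_Icc] at hx
        rw [Polynomial.deriv]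
        exact hdp x hx.2 hx.1.le
      have hpb : 0 < p.eval b := by
        have := hmono (Set.left_mem_Icc.2 hζb.le) (Set.right_mem_Icc.2 hζb.le) hζb
        rw [← h0]
        exact this
      refine ⟨φ b, ?_, φ.strictMono hζb, fun y hy hyz => φ.monotone (hbm' y hy hyz.le)⟩
      have := hM.sg b hbF
      rw [sign_pos hpb] at this
      exact sign_eq_one_iff.1 this.symm
  obtain ⟨u, hu, huz, huF⟩ := hleft
  obtain ⟨v, hv, hvz, hvF⟩ := hright
  have huv : u ≤ v := (huz.trans hvz).le
  obtain ⟨z, hz, hz0⟩ := intermediate_value_Icc huv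
    (p'.continuous.continuousOn : ContinuousOn (fun x => p'.eval x) (Set.Icc u v))
    (Set.mem_Icc.2 ⟨hu.le, hv.le⟩)
  have hz0' : p'.eval z = 0 := hz0
  have huz' : u < z := lt_of_le_of_ne hz.1 (by rintro rfl; exact hu.ne hz0')
  have hzv' : z < v := lt_of_le_of_ne hz.2 (by rintro rfl; exact hv.ne' hz0')
  refine ⟨z, hz0', fun y hy => ⟨fun hyz => (huF y hy hyz).trans_lt huz', fun hyz => ?_⟩,
    fun y hy hyz => ?_⟩
  · by_contra hcon
    have hlt : ζ < y := lt_of_le_of_ne (not_lt.1 hcon) (by rintro rfl; exact hζ hy)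
    exact absurd (hyz.trans hzv') (not_lt.2 (hvF y hy hlt))
  · rcases lt_trichotomy y ζ with h | h | h
    · exact absurd (huF y hy h) (not_le.2 (hyz ▸ huz'))
    · exact hζ (h ▸ hy)
    · exact absurd (hvF y hy h) (not_le.2 (hyz ▸ hzv'))

theorem tNewZ : S_NewZ := by
  intro p p' φ F hM ζ h0 hζ
  rcases lt_trichotomy ((Polynomial.derivative p).eval ζ) 0 with h | h | h
  · have hM' : MD (-p) (-p') φ F :=
      { deg := by rw [Polynomial.natDegree_neg, Polynomial.natDegree_neg, hM.deg]
        deg0 := by rw [Polynomial.natDegree_neg]; exact hM.deg0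
        lc := by
          rw [Polynomial.leadingCoeff_neg, Polynomial.leadingCoeff_neg, Left.sign_neg,
            Left.sign_neg, hM.lc]
        der := fun t => by
          rw [Polynomial.derivative_neg, Polynomial.derivative_neg, Polynomial.eval_neg,
            Polynomial.eval_neg, Left.sign_neg, Left.sign_neg, hM.der t]
        zer := fun t ht => hM.zer t (by
          rw [Polynomial.derivative_neg, Polynomial.eval_neg, neg_eq_zero] at ht
          exact ht)
        sg := fun y hy => by
          rw [Polynomial.eval_neg, Polynomial.eval_neg, Left.sign_neg, Left.sign_neg,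
            hM.sg y hy] }
    obtain ⟨z, hz0, hz1, hz2⟩ := newz_pos (-p) (-p') φ F hM' ζ
      (by rw [Polynomial.eval_neg, h0, neg_zero]) hζ
      (by rw [Polynomial.derivative_neg, Polynomial.eval_neg]; exact neg_pos.2 h)
    refine ⟨z, ?_, hz1, hz2⟩
    rw [Polynomial.eval_neg, neg_eq_zero] at hz0
    exact hz0
  · exact absurd (hM.zer ζ h) hζ
  · exact newz_pos p p' φ F hM ζ h0 hζ h

end KV
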