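import Pool.Agent.Lib.KV.SpecQ

/-!
# KV (MP_64edc4_ag), block Q: the complement of the zero set of a nonzero polynomial is open and
dense
-/

set_option autoImplicit false

open Set Filter Topology Metric

namespace KV

theorem tNowD : S_NowD := by
  intro ι _ q hq
  have hc : Continuous (fun x : ι → ℝ => MvPolynomial.eval x q) := MvPolynomial.continuous_eval q
  refine ⟨isOpen_ne_fun hc continuous_const, ?_⟩
  rw [dense_iff_inter_open]
  intro U hU hne
  obtain ⟨x0, hx0⟩ := hne
  by_contra hempty
  rw [Set.not_nonempty_iff_eq_empty] at hempty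
  obtain ⟨ε, hε, hball⟩ := Metric.isOpen_iff.1 hU x0 hx0
  apply hq
  refine MvPolynomial.funext_set (fun i => Ioo (x0 i - ε / 2) (x0 i + ε / 2)) (fun i => ?_)
    (fun x hx => ?_)
  · exact Set.Ioo_infinite (by linarith)
  · rw [map_zero]
    by_contra hxq
    have hxU : x ∈ U := by
      apply hball
      rw [Metric.mem_ball]
      refine lt_of_le_of_lt ((dist_pi_le_iff (by linarith : (0 : ℝ) ≤ ε / 2)).2 (fun i => ?_))
        (by linarith : ε / 2 < ε)
      have h1 := hx i (mem_univ i)
      rw [Real.dist_eq, abs_le]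
      exact ⟨by linarith [h1.1], by linarith [h1.2]⟩
    have : x ∈ U ∩ {x : ι → ℝ | MvPolynomial.eval x q ≠ 0} := ⟨hxU, hxq⟩
    rw [hempty] at this
    exact this.elim

end KV
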