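import Pool.Agent.Lib.KV.SpecQ

/-!
# KV, block Q, module NullZ: zero sets of polynomials are null sets
-/

set_option autoImplicit false

open Set Filter Topology Metric

namespace KV

private theorem nz_meas {ι : Type} [Fintype ι] (q : MvPolynomial ι ℝ) :
    MeasurableSet {x : ι → ℝ | MvPolynomial.eval x q = 0} :=
  (isClosed_eq (MvPolynomial.continuous_eval q) continuous_const).measurableSet

private theorem nz_fin (n : ℕ) : ∀ q : MvPolynomial (Fin n) ℝ, q ≠ 0 →
    MeasureTheory.volume {x : Fin n → ℝ | MvPolynomial.eval x q = 0} = 0 := by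
  induction n with
  | zero =>
    intro q hq
    have h0 : {x : Fin 0 → ℝ | MvPolynomial.eval x q = 0} = ∅ := by
      rw [Set.eq_empty_iff_forall_notMem]
      intro x hx
      apply hq
      have e := MvPolynomial.eq_C_of_isEmpty q
      have hx' : MvPolynomial.eval x q = 0 := hx
      rw [e, MvPolynomial.eval_C] at hx'
      rw [e, hx', map_zero]
    rw [h0, MeasureTheory.measure_empty]
  | succ n ih =>
    intro q hq
    set F := MvPolynomial.finSuccEquiv ℝ n q with hF
    have hF0 : F ≠ 0 := by
      intro h0
      apply hq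
      apply (MvPolynomial.finSuccEquiv ℝ n).injective
      rw [← hF, h0, map_zero]
    have hev : ∀ (t : ℝ) (s : Fin n → ℝ), MvPolynomial.eval (Fin.cons t s : Fin (n + 1) → ℝ) q =
        MvPolynomial.eval s (F.eval (MvPolynomial.C t)) := by
      intro t s
      have h := Polynomial.eval₂_at_apply (p := F) (MvPolynomial.eval s) (MvPolynomial.C t)
      rw [MvPolynomial.eval_C] at h
      rw [MvPolynomial.eval_eq_eval_mv_eval', ← hF, Polynomial.eval_map, h]
    have hmp := MeasureTheory.volume_preserving_piFinSuccAbove (fun _ : Fin (n + 1) => ℝ) 0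
    let W : Set (ℝ × (Fin n → ℝ)) :=
      {p | MvPolynomial.eval (Fin.cons p.1 p.2 : Fin (n + 1) → ℝ) q = 0}
    have hW : MeasurableSet W := by
      refine (isClosed_eq ?_ continuous_const).measurableSet
      refine (MvPolynomial.continuous_eval q).comp ?_
      refine continuous_pi fun i => ?_
      refine Fin.cases ?_ (fun i => ?_) i
      · exact continuous_fst
      · exact (continuous_apply i).comp continuous_snd
    have hZ : {x : Fin (n + 1) → ℝ | MvPolynomial.eval x q = 0} =
        (MeasurableEquiv.piFinSuccAbove (fun _ : Fin (n + 1) => ℝ) 0) ⁻¹' W := by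
      ext x
      change MvPolynomial.eval x q = 0 ↔
        MvPolynomial.eval (Fin.cons (x 0) (fun j => x ((0 : Fin (n + 1)).succAbove j)) :
          Fin (n + 1) → ℝ) q = 0
      have e : (Fin.cons (x 0) (fun j => x ((0 : Fin (n + 1)).succAbove j)) :
          Fin (n + 1) → ℝ) = x := by
        funext i
        refine Fin.cases ?_ (fun i => ?_) i
        · rfl
        · simp
      rw [e]
    rw [hZ, hmp.measure_preimage hW.nullMeasurableSet, MeasureTheory.Measure.volume_eq_prod,
      MeasureTheory.Measure.measure_prod_null hW]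
    have hfin : {t : ℝ | F.eval (MvPolynomial.C t) = 0}.Finite := by
      have h1 : {r : MvPolynomial (Fin n) ℝ | F.IsRoot r}.Finite :=
        Polynomial.finite_setOfPred_isRoot hF0
      exact Set.Finite.preimage (MvPolynomial.C_injective (Fin n) ℝ).injOn h1
    have hae : ∀ᵐ t : ℝ, t ∉ {t : ℝ | F.eval (MvPolynomial.C t) = 0} :=
      MeasureTheory.measure_eq_zero_iff_ae_notMem.mp (hfin.measure_zero MeasureTheory.volume)
    filter_upwards [hae] with t ht
    have e : Prod.mk t ⁻¹' W =
        {s : Fin n → ℝ | MvPolynomial.eval s (F.eval (MvPolynomial.C t)) = 0} := by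
      ext s
      change MvPolynomial.eval (Fin.cons t s : Fin (n + 1) → ℝ) q = 0 ↔ _
      rw [hev]
      rfl
    rw [e]
    exact ih _ ht

theorem tNullZ : S_NullZ := by
  intro ι _ q hq
  let e : ι ≃ Fin (Fintype.card ι) := Fintype.equivFin ι
  have hmp := MeasureTheory.volume_measurePreserving_piCongrLeft (fun _ : ι => ℝ) e.symm
  rw [← hmp.measure_preimage (nz_meas q).nullMeasurableSet]
  have hne : MvPolynomial.rename e q ≠ 0 := by
    intro h0
    exact hq (MvPolynomial.rename_injective e e.injective (by rw [h0, map_zero]))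
  have h1 := nz_fin (Fintype.card ι) (MvPolynomial.rename e q) hne
  have h2 : (MeasurableEquiv.piCongrLeft (fun _ : ι => ℝ) e.symm) ⁻¹'
      {x : ι → ℝ | MvPolynomial.eval x q = 0} =
      {y : Fin (Fintype.card ι) → ℝ | MvPolynomial.eval y (MvPolynomial.rename e q) = 0} := by
    ext y
    change MvPolynomial.eval (MeasurableEquiv.piCongrLeft (fun _ : ι => ℝ) e.symm y) q = 0 ↔
      MvPolynomial.eval y (MvPolynomial.rename e q) = 0
    rw [MvPolynomial.eval_rename]
    have e1 : MeasurableEquiv.piCongrLeft (fun _ : ι => ℝ) e.symm y = y ∘ e := by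
      funext i
      have := Equiv.piCongrLeft_apply_apply (fun _ : ι => ℝ) e.symm y (e i)
      rw [Equiv.symm_apply_apply] at this
      exact this
    rw [e1]
  rw [h2]
  exact h1

end KV
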