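import Pool.Agent.Lib.KV.SpecQ

/-! # KV, block Q: from pointwise to global Lipschitz constants -/

set_option autoImplicit false

open Set Filter Topology Metric

namespace KV

namespace PLipAux

theorem half (h1 : S_Dini) {ι : Type} [Fintype ι] (C : Set (ι → ℝ)) (f : (ι → ℝ) → ℝ) (τ : ℝ)
    (hC : Convex ℝ C) (hτ : 0 ≤ τ)
    (hf : ∀ x ∈ C, ∃ ρ > 0, ∀ y ∈ ball x ρ, |f y - f x| ≤ τ * ‖y - x‖)
    (x : ι → ℝ) (hx : x ∈ C) (y : ι → ℝ) (hy : y ∈ C) : f y - f x ≤ τ * ‖y - x‖ := by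
  have hmem : ∀ s ∈ Icc (0 : ℝ) 1, x + s • (y - x) ∈ C := fun s hs =>
    hC.add_smul_sub_mem hx hy hs
  have hcont : ∀ z ∈ C, ContinuousAt f z := by
    intro z hz
    obtain ⟨ρ, hρ, hb⟩ := hf z hz
    rw [ContinuousAt, tendsto_iff_norm_sub_tendsto_zero]
    have h2 : Tendsto (fun w : ι → ℝ => τ * ‖w - z‖) (𝓝 z) (𝓝 0) := by
      have : Continuous (fun w : ι → ℝ => τ * ‖w - z‖) := by fun_prop
      have h3 := this.tendsto z
      simpa using h3
    refine squeeze_zero' (Eventually.of_forall fun w => norm_nonneg _) ?_ h2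
    filter_upwards [ball_mem_nhds z hρ] with w hw
    rw [Real.norm_eq_abs]
    exact hb w hw
  have hline : Continuous (fun s : ℝ => x + s • (y - x)) := by fun_prop
  have hg : ContinuousOn (fun s : ℝ => f (x + s • (y - x))) (Icc 0 1) := by
    intro s hs
    exact (ContinuousAt.comp (f := fun s : ℝ => x + s • (y - x)) (g := f) (x := s)
      (hcont _ (hmem s hs)) hline.continuousAt).continuousWithinAt
  have h3 := h1 (fun s : ℝ => f (x + s • (y - x))) 0 1 (τ * ‖y - x‖) zero_lt_one hg (by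
    intro s hs ρ hρ
    obtain ⟨r, hr, hb⟩ := hf _ (hmem s ⟨hs.1, hs.2.le⟩)
    have h4 : ∀ᶠ s' in 𝓝[>] s, x + s' • (y - x) ∈ ball (x + s • (y - x)) r :=
      mem_nhdsWithin_of_mem_nhds (hline.continuousAt (ball_mem_nhds _ hr))
    have h5 : ∀ᶠ s' in 𝓝[>] s, s' ∈ Ioo s (s + ρ) := Ioo_mem_nhdsGT (by linarith)
    obtain ⟨s', h6, h7⟩ := (h4.and h5).exists
    refine ⟨s', h7, ?_⟩
    have h8 := (le_abs_self _).trans (hb _ h6)
    have h9 : x + s' • (y - x) - (x + s • (y - x)) = (s' - s) • (y - x) := by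
      rw [sub_smul]; abel
    rw [h9, norm_smul, Real.norm_eq_abs, abs_of_pos (sub_pos.2 h7.1)] at h8
    calc f (x + s' • (y - x)) - f (x + s • (y - x)) ≤ τ * ((s' - s) * ‖y - x‖) := h8
      _ = τ * ‖y - x‖ * (s' - s) := by ring)
  simpa using h3

end PLipAux

theorem tPLip (h1 : S_Dini) : S_PLip := by
  intro ι _ C f τ hC hτ hf x hx y hy
  rw [abs_le]
  have h2 := PLipAux.half h1 C f τ hC hτ hf x hx y hy
  have h3 := PLipAux.half h1 C f τ hC hτ hf y hy x hx
  rw [norm_sub_rev] at h3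
  exact ⟨by linarith, h2⟩

end KV
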