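import Pool.Agent.Lib.KV.SpecQ

set_option autoImplicit false

open Set Filter Topology Metric

namespace KV

namespace PremAux

theorem step {R : Type} [CommRing R] [IsDomain R] (q : Polynomial R) (hq : q ≠ 0) :
    ∀ (n : ℕ) (p : Polynomial R), p.degree < (n : WithBot ℕ) →
      ∃ (e : ℕ) (h r : Polynomial R),
        Polynomial.C (q.leadingCoeff ^ (2 * e)) * p = h * q + r ∧ r.degree < q.degree := by
  intro n
  induction n with
  | zero =>
    intro p hp
    have hp0 : p = 0 := by
      by_contra hne
      rw [Polynomial.degree_eq_natDegree hne] at hp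
      have : p.natDegree < 0 := by exact_mod_cast hp
      omega
    refine ⟨0, 0, 0, ?_, ?_⟩
    · rw [hp0]; simp
    · rw [Polynomial.degree_zero]
      exact bot_lt_iff_ne_bot.mpr (by rwa [ne_eq, Polynomial.degree_eq_bot])
  | succ n ih =>
    intro p hp
    by_cases hlt : p.degree < q.degree
    · exact ⟨0, 0, p, by simp, hlt⟩
    have hle : q.degree ≤ p.degree := not_lt.mp hlt
    have hp0 : p ≠ 0 := by
      intro h0
      rw [h0, Polynomial.degree_zero, le_bot_iff, Polynomial.degree_eq_bot] at hle
      exact hq hle
    have hb : q.leadingCoeff ≠ 0 := Polynomial.leadingCoeff_ne_zero.mpr hq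
    have ha : p.leadingCoeff ≠ 0 := Polynomial.leadingCoeff_ne_zero.mpr hp0
    have hnd : q.natDegree ≤ p.natDegree := Polynomial.natDegree_le_natDegree hle
    set s := p.natDegree - q.natDegree with hs
    set u := Polynomial.C q.leadingCoeff * p with hu
    set v := Polynomial.C p.leadingCoeff * Polynomial.X ^ s * q with hv
    have hud : u.degree = p.degree := by
      rw [hu, Polynomial.degree_mul, Polynomial.degree_C hb, zero_add]
    have hvd : v.degree = p.degree := by
      rw [hv, Polynomial.degree_mul, Polynomial.degree_mul, Polynomial.degree_C ha, zero_add,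
        Polynomial.degree_X_pow, Polynomial.degree_eq_natDegree hq,
        Polynomial.degree_eq_natDegree hp0]
      have : s + q.natDegree = p.natDegree := by omega
      exact_mod_cast this
    have hu0 : u ≠ 0 := mul_ne_zero (Polynomial.C_ne_zero.mpr hb) hp0
    have hul : u.leadingCoeff = v.leadingCoeff := by
      rw [hu, hv, Polynomial.leadingCoeff_mul, Polynomial.leadingCoeff_mul,
        Polynomial.leadingCoeff_mul, Polynomial.leadingCoeff_C, Polynomial.leadingCoeff_C,
        Polynomial.leadingCoeff_X_pow, mul_one, mul_comm]
    have hd : (u - v).degree < u.degree :=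
      Polynomial.degree_sub_lt_left (hud.trans hvd.symm) hu0 hul
    have hd2 : (Polynomial.C q.leadingCoeff * (u - v)).degree < (n : WithBot ℕ) := by
      rw [Polynomial.degree_mul, Polynomial.degree_C hb, zero_add]
      rw [hud] at hd
      by_cases h0 : u - v = 0
      · rw [h0, Polynomial.degree_zero]
        exact WithBot.bot_lt_coe n
      · rw [Polynomial.degree_eq_natDegree h0] at hd ⊢
        rw [Polynomial.degree_eq_natDegree hp0] at hd hp
        have h1 : (u - v).natDegree < p.natDegree := by exact_mod_cast hd
        have h2 : p.natDegree < n + 1 := by exact_mod_cast hp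
        have h3 : (u - v).natDegree < n := by omega
        exact_mod_cast h3
    obtain ⟨e, h, r, he, hr⟩ := ih _ hd2
    refine ⟨e + 1, h + Polynomial.C (q.leadingCoeff ^ (2 * e)) * Polynomial.C q.leadingCoeff *
      (Polynomial.C p.leadingCoeff * Polynomial.X ^ s), r, ?_, hr⟩
    have e1 : Polynomial.C (q.leadingCoeff ^ (2 * (e + 1))) =
        Polynomial.C (q.leadingCoeff ^ (2 * e)) * Polynomial.C q.leadingCoeff *
          Polynomial.C q.leadingCoeff := by
      rw [← Polynomial.C_mul, ← Polynomial.C_mul]
      congr 1
      ring
    rw [e1]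
    rw [hu, hv] at he
    linear_combination he

end PremAux

theorem tPrem : S_Prem := by
  intro ι p q hq
  refine PremAux.step q hq (p.natDegree + 1) p ?_
  refine lt_of_le_of_lt Polynomial.degree_le_natDegree ?_
  exact_mod_cast Nat.lt_succ_self _

end KV
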