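import Pool.Agent.Lib.KV.SpecQ

/-!
# KV, block Q: module Sel (semialgebraic selection with compact fibres)
-/

set_option autoImplicit false

open Set Filter Topology Metric

namespace KV

namespace SelAux

/-- The statement for a fixed second index type. -/
def PS (κ : Type) : Prop := ∀ (ι : Type) (A : Set (ι ⊕ κ → ℝ)), SQ A →
  ∃ σ : (ι → ℝ) → (κ → ℝ), SF σ ∧
    ∀ x, IsCompact {y : κ → ℝ | pr x y ∈ A} → (∃ y, pr x y ∈ A) → pr x (σ x) ∈ A

theorem equiv {α β : Type} (e : α ≃ β) (h : PS α) : PS β := by
  intro ι A hA
  obtain ⟨σ, h1, h2⟩ := h ι {z : ι ⊕ α → ℝ | (fun s => z (Sum.map id e.symm s)) ∈ A}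
    (hA.reidx (Sum.map id e.symm))
  have key : ∀ (x : ι → ℝ) (y : α → ℝ),
      (fun s => pr x y (Sum.map id e.symm s)) = pr x (fun b => y (e.symm b)) := by
    intro x y
    ext s
    cases s <;> rfl
  refine ⟨fun x b => σ x (e.symm b), ?_, ?_⟩
  · have h3 := SQ.reidx h1 (Sum.map id e : ι ⊕ α → ι ⊕ β)
    have h4 : {z : ι ⊕ β → ℝ | (fun s => z (Sum.map id e s)) ∈
        {z : ι ⊕ α → ℝ | (fun j => z (Sum.inr j)) = σ (fun i => z (Sum.inl i))}} =
        {z : ι ⊕ β → ℝ | (fun j => z (Sum.inr j)) =
          fun b => σ (fun i => z (Sum.inl i)) (e.symm b)} := by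
      ext z
      constructor
      · intro hz
        ext b
        have h5 := congrFun hz (e.symm b)
        have h6 : z (Sum.inr (e (e.symm b))) = σ (fun i => z (Sum.inl i)) (e.symm b) := h5
        rwa [e.apply_symm_apply] at h6
      · intro hz
        ext a
        have h5 := congrFun hz (e a)
        have h6 : z (Sum.inr (e a)) = σ (fun i => z (Sum.inl i)) (e.symm (e a)) := h5
        rw [e.symm_apply_apply] at h6
        exact h6
    rw [h4] at h3
    exact h3
  · intro x hx hy
    have h3 : IsCompact {y : α → ℝ |
        pr x y ∈ {z : ι ⊕ α → ℝ | (fun s => z (Sum.map id e.symm s)) ∈ A}} := by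
      have hc : Continuous fun (y : β → ℝ) (a : α) => y (e a) :=
        continuous_pi fun a => continuous_apply (e a)
      have h4 := hx.image hc
      have h5 : (fun (y : β → ℝ) (a : α) => y (e a)) '' {y : β → ℝ | pr x y ∈ A} =
          {y : α → ℝ |
            pr x y ∈ {z : ι ⊕ α → ℝ | (fun s => z (Sum.map id e.symm s)) ∈ A}} := by
        ext y
        constructor
        · rintro ⟨y', hy', rfl⟩
          have h6 : (fun s => pr x (fun a => y' (e a)) (Sum.map id e.symm s)) ∈ A := by
            rw [key]
            have h7 : (fun b => y' (e (e.symm b))) = y' := by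
              ext b
              rw [e.apply_symm_apply]
            rw [h7]
            exact hy'
          exact h6
        · intro h6
          have h7 : (fun s => pr x y (Sum.map id e.symm s)) ∈ A := h6
          rw [key] at h7
          refine ⟨fun b => y (e.symm b), h7, ?_⟩
          ext a
          simp only [e.symm_apply_apply]
      rw [h5] at h4
      exact h4
    obtain ⟨y, hy⟩ := hy
    have h4 := h2 x h3 ⟨fun a => y (e a), by
      have h6 : (fun s => pr x (fun a => y (e a)) (Sum.map id e.symm s)) ∈ A := by
        rw [key]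
        have h7 : (fun b => y (e (e.symm b))) = y := by
          ext b
          rw [e.apply_symm_apply]
        rw [h7]
        exact hy
      exact h6⟩
    have h5 : (fun s => pr x (σ x) (Sum.map id e.symm s)) ∈ A := h4
    rw [key] at h5
    exact h5

theorem empty : PS PEmpty := by
  intro ι A hA
  refine ⟨fun _ j => j.elim, ?_, ?_⟩
  · have h : {z : ι ⊕ PEmpty → ℝ | (fun j => z (Sum.inr j)) =
        (fun (_ : ι → ℝ) (j : PEmpty) => (j.elim : ℝ)) (fun i => z (Sum.inl i))} =
        Set.univ := by
      ext z
      simp only [Set.mem_univ, iff_true]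
      exact funext fun j => j.elim
    unfold SF
    rw [h]
    exact SQ.univ'
  · rintro x - ⟨y, hy⟩
    have h : y = fun j : PEmpty => (j.elim : ℝ) := funext fun j => j.elim
    rw [h] at hy
    exact hy

theorem option (ht : S_TSn) (hs : S_Sel1) {κ : Type} [Finite κ] (h : PS κ) :
    PS (Option κ) := by
  intro ι A hA
  -- the projection to the first coordinate
  obtain ⟨σ1, s1, s2⟩ := hs ι {z : Option ι → ℝ | ∃ y : κ → ℝ,
    pr (fun i => z (some i)) (cns (z none) y) ∈ A} (by
      refine SQ.ex ht ?_
      have h1 := hA.reidx (fun s : ι ⊕ Option κ =>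
        s.elim (fun i => (Sum.inl (some i) : Option ι ⊕ κ))
          (fun o => o.elim (Sum.inl none) Sum.inr))
      have h2 : {z : Option ι ⊕ κ → ℝ | (fun s : ι ⊕ Option κ =>
          z (s.elim (fun i => (Sum.inl (some i) : Option ι ⊕ κ))
            (fun o => o.elim (Sum.inl none) Sum.inr))) ∈ A} =
          {z : Option ι ⊕ κ → ℝ | pr (fun i => z (Sum.inl (some i)))
            (cns (z (Sum.inl none)) (fun j => z (Sum.inr j))) ∈ A} := by
        ext z
        have h3 : (fun s : ι ⊕ Option κ =>
            z (s.elim (fun i => (Sum.inl (some i) : Option ι ⊕ κ))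
              (fun o => o.elim (Sum.inl none) Sum.inr))) =
            pr (fun i => z (Sum.inl (some i)))
              (cns (z (Sum.inl none)) (fun j => z (Sum.inr j))) := by
          ext s
          rcases s with i | o
          · rfl
          · cases o <;> rfl
        rw [Set.mem_ofPred_eq, h3]
        rfl
      rw [h2] at h1
      exact h1)
  -- the second step
  obtain ⟨σ2, r1, r2⟩ := h ι {z : ι ⊕ κ → ℝ | pr (fun i => z (Sum.inl i))
    (cns (σ1 (fun i => z (Sum.inl i))) (fun j => z (Sum.inr j))) ∈ A} (by
      have h0 : SQ {z : ι ⊕ κ → ℝ | ∃ t : ℝ, t = σ1 (fun i => z (Sum.inl i)) ∧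
          pr (fun i => z (Sum.inl i)) (cns t (fun j => z (Sum.inr j))) ∈ A} := by
        refine SQ.ex1 ht (P := fun (z : ι ⊕ κ → ℝ) (t : ℝ) => t = σ1 (fun i => z (Sum.inl i)) ∧
          pr (fun i => z (Sum.inl i)) (cns t (fun j => z (Sum.inr j))) ∈ A) ?_
        have h1 := s1.reidx (fun o : Option ι =>
          o.elim (none : Option (ι ⊕ κ)) (fun i => some (Sum.inl i)))
        have h2 := hA.reidx (fun s : ι ⊕ Option κ =>
          s.elim (fun i => (some (Sum.inl i) : Option (ι ⊕ κ)))
            (fun o => o.elim none (fun j => some (Sum.inr j))))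
        have h3 := h1.inter h2
        have h4 : {x : Option (ι ⊕ κ) → ℝ | (fun o : Option ι =>
            x (o.elim (none : Option (ι ⊕ κ)) (fun i => some (Sum.inl i)))) ∈
              {z : Option ι → ℝ | z none = σ1 (fun i => z (some i))}} ∩
            {x : Option (ι ⊕ κ) → ℝ | (fun s : ι ⊕ Option κ =>
              x (s.elim (fun i => (some (Sum.inl i) : Option (ι ⊕ κ)))
                (fun o => o.elim none (fun j => some (Sum.inr j))))) ∈ A} =
            {z : Option (ι ⊕ κ) → ℝ | z none = σ1 (fun i => z (some (Sum.inl i))) ∧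
              pr (fun i => z (some (Sum.inl i)))
                (cns (z none) (fun j => z (some (Sum.inr j)))) ∈ A} := by
          ext z
          have h5 : (fun s : ι ⊕ Option κ =>
              z (s.elim (fun i => (some (Sum.inl i) : Option (ι ⊕ κ)))
                (fun o => o.elim none (fun j => some (Sum.inr j))))) =
              pr (fun i => z (some (Sum.inl i)))
                (cns (z none) (fun j => z (some (Sum.inr j)))) := by
            ext s
            rcases s with i | o
            · rfl
            · cases o <;> rfl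
          rw [Set.mem_inter_iff, Set.mem_ofPred_eq (p := fun x : Option (ι ⊕ κ) → ℝ =>
            (fun s : ι ⊕ Option κ =>
              x (s.elim (fun i => (some (Sum.inl i) : Option (ι ⊕ κ)))
                (fun o => o.elim none (fun j => some (Sum.inr j))))) ∈ A), h5]
          exact Iff.rfl
        rw [h4] at h3
        exact h3
      have h6 : {z : ι ⊕ κ → ℝ | ∃ t : ℝ, t = σ1 (fun i => z (Sum.inl i)) ∧
          pr (fun i => z (Sum.inl i)) (cns t (fun j => z (Sum.inr j))) ∈ A} =
          {z : ι ⊕ κ → ℝ | pr (fun i => z (Sum.inl i))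
            (cns (σ1 (fun i => z (Sum.inl i))) (fun j => z (Sum.inr j))) ∈ A} := by
        ext z
        constructor
        · rintro ⟨t, rfl, ht⟩
          exact ht
        · intro hz
          exact ⟨_, rfl, hz⟩
      rw [h6] at h0
      exact h0)
  refine ⟨fun x => cns (σ1 x) (σ2 x), ?_, ?_⟩
  · have h1 := s1.reidx (fun o : Option ι =>
      o.elim (Sum.inr none : ι ⊕ Option κ) (fun i => Sum.inl i))
    have h2 := SQ.reidx r1 (Sum.map id some : ι ⊕ κ → ι ⊕ Option κ)
    have h3 := h1.inter h2
    have h4 : {x : ι ⊕ Option κ → ℝ | (fun o : Option ι =>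
        x (o.elim (Sum.inr none : ι ⊕ Option κ) (fun i => Sum.inl i))) ∈
          {z : Option ι → ℝ | z none = σ1 (fun i => z (some i))}} ∩
        {x : ι ⊕ Option κ → ℝ | (fun s => x (Sum.map id some s)) ∈
          {z : ι ⊕ κ → ℝ | (fun j => z (Sum.inr j)) = σ2 (fun i => z (Sum.inl i))}} =
        {z : ι ⊕ Option κ → ℝ | (fun j => z (Sum.inr j)) =
          cns (σ1 (fun i => z (Sum.inl i))) (σ2 (fun i => z (Sum.inl i)))} := by
      ext z
      constructor
      · rintro ⟨g1, g2⟩
        have g1' : z (Sum.inr none) = σ1 (fun i => z (Sum.inl i)) := g1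
        have g2' : (fun j => z (Sum.inr (some j))) = σ2 (fun i => z (Sum.inl i)) := g2
        ext o
        cases o with
        | none => exact g1'
        | some j => exact congrFun g2' j
      · intro hz
        have hz' : (fun j => z (Sum.inr j)) =
          cns (σ1 (fun i => z (Sum.inl i))) (σ2 (fun i => z (Sum.inl i))) := hz
        exact ⟨congrFun hz' none, funext fun j => congrFun hz' (some j)⟩
    rw [h4] at h3
    exact h3
  · intro x hx hy
    have c1 : IsCompact {t : ℝ | cns t x ∈ {z : Option ι → ℝ | ∃ y : κ → ℝ,
        pr (fun i => z (some i)) (cns (z none) y) ∈ A}} := by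
      have h1 := hx.image (continuous_apply (none : Option κ))
      have h2 : (fun y : Option κ → ℝ => y none) '' {y : Option κ → ℝ | pr x y ∈ A} =
          {t : ℝ | cns t x ∈ {z : Option ι → ℝ | ∃ y : κ → ℝ,
            pr (fun i => z (some i)) (cns (z none) y) ∈ A}} := by
        ext t
        constructor
        · rintro ⟨y, hy, rfl⟩
          refine ⟨fun j => y (some j), ?_⟩
          have h3 : (cns (y none) (fun j => y (some j))) = y := by
            ext o
            cases o <;> rfl
          have h4 : pr x (cns (y none) (fun j => y (some j))) ∈ A := by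
            rw [h3]
            exact hy
          exact h4
        · rintro ⟨y, hy⟩
          exact ⟨cns t y, hy, rfl⟩
      rw [h2] at h1
      exact h1
    obtain ⟨y0, hy0⟩ := hy
    have c2 : ∃ t, cns t x ∈ {z : Option ι → ℝ | ∃ y : κ → ℝ,
        pr (fun i => z (some i)) (cns (z none) y) ∈ A} := by
      refine ⟨y0 none, fun j => y0 (some j), ?_⟩
      have h3 : (cns (y0 none) (fun j => y0 (some j))) = y0 := by
        ext o
        cases o <;> rfl
      have h4 : pr x (cns (y0 none) (fun j => y0 (some j))) ∈ A := by
        rw [h3]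
        exact hy0
      exact h4
    obtain ⟨y1, hy1⟩ := s2 x c1 c2
    have hy1' : pr x (cns (σ1 x) y1) ∈ A := hy1
    have c3 : IsCompact {y : κ → ℝ | pr x y ∈ {z : ι ⊕ κ → ℝ | pr (fun i => z (Sum.inl i))
        (cns (σ1 (fun i => z (Sum.inl i))) (fun j => z (Sum.inr j))) ∈ A}} := by
      have h0 : IsClosed {y : Option κ → ℝ | y none = σ1 x} :=
        isClosed_eq (continuous_apply none) continuous_const
      have hc : Continuous fun (y : Option κ → ℝ) (j : κ) => y (some j) :=
        continuous_pi fun j => continuous_apply (some j)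
      have h1 := (hx.inter_right h0).image hc
      have h2 : (fun (y : Option κ → ℝ) (j : κ) => y (some j)) ''
          ({y : Option κ → ℝ | pr x y ∈ A} ∩ {y : Option κ → ℝ | y none = σ1 x}) =
          {y : κ → ℝ | pr x y ∈ {z : ι ⊕ κ → ℝ | pr (fun i => z (Sum.inl i))
            (cns (σ1 (fun i => z (Sum.inl i))) (fun j => z (Sum.inr j))) ∈ A}} := by
        ext y
        constructor
        · rintro ⟨y', ⟨hy', hn⟩, rfl⟩
          have hn' : y' none = σ1 x := hn
          have h3 : (cns (σ1 x) (fun j => y' (some j))) = y' := by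
            ext o
            cases o with
            | none => exact hn'.symm
            | some j => rfl
          have h4 : pr x (cns (σ1 x) (fun j => y' (some j))) ∈ A := by
            rw [h3]
            exact hy'
          exact h4
        · intro h3
          have h3' : pr x (cns (σ1 x) y) ∈ A := h3
          exact ⟨cns (σ1 x) y, ⟨h3', rfl⟩, rfl⟩
      rw [h2] at h1
      exact h1
    have h5 := r2 x c3 ⟨y1, hy1'⟩
    exact h5

end SelAux

theorem tSel (h1 : S_TSn) (h2 : S_Sel1) : S_Sel := by
  intro ι κ _ A hA
  exact Finite.induction_empty_option (P := SelAux.PS) (fun e h => SelAux.equiv e h)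
    SelAux.empty (fun h => SelAux.option h1 h2 h) κ ι A hA

end KV
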