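import Pool.Agent.Lib.KV.SpecQ

/-!
# KV, Q/SgT: changing the order isomorphism outside the zeros
-/

set_option autoImplicit false

open Set Filter Topology Metric

namespace KV

private theorem sg_const (g : Polynomial ℝ) (a b : ℝ) (h : ∀ s ∈ Set.uIcc a b, g.eval s ≠ 0) :
    SignType.sign (g.eval a) = SignType.sign (g.eval b) := by
  have hc : ContinuousOn (fun s => g.eval s) (Set.uIcc a b) := g.continuous.continuousOn
  have hi := intermediate_value_uIcc hc
  have h0 : (0 : ℝ) ∉ Set.uIcc (g.eval a) (g.eval b) := by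
    intro h1
    obtain ⟨s, hs, hs0⟩ := hi h1
    exact h s hs hs0
  rcases lt_trichotomy (g.eval a) 0 with ha | ha | ha
  · rcases lt_trichotomy (g.eval b) 0 with hb | hb | hb
    · rw [sign_neg ha, sign_neg hb]
    · exact absurd hb (h b Set.right_mem_uIcc)
    · exact absurd (Set.mem_uIcc.2 (Or.inl ⟨ha.le, hb.le⟩)) h0
  · exact absurd ha (h a Set.left_mem_uIcc)
  · rcases lt_trichotomy (g.eval b) 0 with hb | hb | hb
    · exact absurd (Set.mem_uIcc.2 (Or.inr ⟨hb.le, ha.le⟩)) h0
    · exact absurd hb (h b Set.right_mem_uIcc)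
    · rw [sign_pos ha, sign_pos hb]

theorem tSgT : S_SgT := by
  intro q q' φ ψ F h1 h2 h3 t
  by_cases ht : t ∈ F
  · rw [h3 t ht]
    exact h1 t
  · rw [h1 t]
    apply sg_const
    intro s hs hs0
    have h4 := h1 (φ.symm s)
    rw [OrderIso.apply_symm_apply, hs0, sign_zero, sign_eq_zero_iff] at h4
    have hy := h2 _ h4
    have hψ : ψ (φ.symm s) = s := by
      rw [h3 _ hy, OrderIso.apply_symm_apply]
    have hty : φ.symm s = t := by
      rcases Set.mem_uIcc.1 hs with ⟨ha, hb⟩ | ⟨ha, hb⟩
      · apply le_antisymm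
        · rw [← hψ] at hb
          exact ψ.le_iff_le.1 hb
        · exact (OrderIso.le_symm_apply φ).2 ha
      · apply le_antisymm
        · exact (OrderIso.symm_apply_le φ).2 hb
        · rw [← hψ] at ha
          exact ψ.le_iff_le.1 ha
    rw [hty] at hy
    exact ht hy

end KV
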