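import Pool.Agent.Lib.KV.SpecQ

set_option autoImplicit false

open Set Filter Topology Metric

namespace KV

namespace StepLAux

private theorem zero_of_sign {q q' : Polynomial ℝ} {φ : ℝ ≃o ℝ}
    (h : ∀ t, SignType.sign (q.eval t) = SignType.sign (q'.eval (φ t))) (hq : q = 0) : q' = 0 := by
  apply Polynomial.funext
  intro t
  have h1 := h (φ.symm t)
  rw [hq, Polynomial.eval_zero, sign_zero, OrderIso.apply_symm_apply] at h1
  rw [Polynomial.eval_zero]
  exact sign_eq_zero_iff.1 h1.symm

private theorem claim (h1 : S_Adj) (h2 : S_SgT) (h3 : S_NewZ) (h4 : S_AllZ) (σ : Type)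
    (q q' : σ → Polynomial ℝ) (i0 : σ) (p p' : Polynomial ℝ)
    (hd : q i0 = Polynomial.derivative p) (hd' : q' i0 = Polynomial.derivative p')
    (hdeg : p.natDegree = p'.natDegree) (hdeg0 : 0 < p.natDegree)
    (hlc : SignType.sign p.leadingCoeff = SignType.sign p'.leadingCoeff) (N : ℕ) :
    ∀ (φ : ℝ ≃o ℝ) (F : Finset ℝ),
    (∀ i t, SignType.sign ((q i).eval t) = SignType.sign ((q' i).eval (φ t))) →
    (∀ i t, q i ≠ 0 → (q i).eval t = 0 → t ∈ F) →
    (∀ y ∈ F, SignType.sign (p.eval y) = SignType.sign (p'.eval (φ y))) →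
    (p.roots.toFinset \ F).card ≤ N →
    ∃ ψ : ℝ ≃o ℝ, (∀ i t, SignType.sign ((q i).eval t) = SignType.sign ((q' i).eval (ψ t))) ∧
      ∀ t, SignType.sign (p.eval t) = SignType.sign (p'.eval (ψ t)) := by
  classical
  have hp : p ≠ 0 := by
    rintro rfl
    simp at hdeg0
  have hp' : p' ≠ 0 := by
    rintro rfl
    rw [hdeg] at hdeg0
    simp at hdeg0
  have hder : Polynomial.derivative p ≠ 0 := fun h => by
    have := Polynomial.natDegree_eq_zero_of_derivative_eq_zero h
    omega
  -- the data of a step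
  have key : ∀ (φ : ℝ ≃o ℝ) (F : Finset ℝ),
      (∀ i t, SignType.sign ((q i).eval t) = SignType.sign ((q' i).eval (φ t))) →
      (∀ i t, q i ≠ 0 → (q i).eval t = 0 → t ∈ F) →
      (∀ y ∈ F, SignType.sign (p.eval y) = SignType.sign (p'.eval (φ y))) →
      (∀ t, SignType.sign (p.eval t) = SignType.sign (p'.eval (φ t))) ∨
      ∃ (ψ : ℝ ≃o ℝ) (ζ : ℝ), p.eval ζ = 0 ∧ ζ ∉ F ∧ p'.eval (ψ ζ) = 0 ∧
        ∀ y ∈ F, ψ y = φ y := by
    intro φ F ha hb hc
    have hMD : MD p p' φ F := by
      refine ⟨hdeg, hdeg0, hlc, ?_, ?_, hc⟩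
      · intro t
        have := ha i0 t
        rw [hd, hd'] at this
        exact this
      · intro t ht
        refine hb i0 t ?_ ?_
        · rw [hd]; exact hder
        · rw [hd]; exact ht
    by_cases hA : ∃ ζ, p.eval ζ = 0 ∧ ζ ∉ F
    · obtain ⟨ζ, hζ, hζF⟩ := hA
      obtain ⟨ζ', hζ', hlt, hne⟩ := h3 p p' φ F hMD ζ hζ hζF
      obtain ⟨ψ, hψ, hψF⟩ := h1 φ F ζ ζ' hζF hlt hne
      exact Or.inr ⟨ψ, ζ, hζ, hζF, by rw [hψ]; exact hζ', hψF⟩
    · push Not at hA
      by_cases hB : ∃ ζ', p'.eval ζ' = 0 ∧ ζ' ∉ F.image φ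
      · obtain ⟨ζ', hζ', hζF'⟩ := hB
        have hMD' : MD p' p φ.symm (F.image φ) := by
          refine ⟨hdeg.symm, by omega, hlc.symm, ?_, ?_, ?_⟩
          · intro t
            have := hMD.der (φ.symm t)
            rw [OrderIso.apply_symm_apply] at this
            exact this.symm
          · intro t ht
            have h5 := hMD.der (φ.symm t)
            rw [OrderIso.apply_symm_apply, ht, sign_zero] at h5
            have h6 := hMD.zer _ (sign_eq_zero_iff.1 h5)
            rw [Finset.mem_image]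
            exact ⟨_, h6, OrderIso.apply_symm_apply φ t⟩
          · intro y hy
            rw [Finset.mem_image] at hy
            obtain ⟨x, hx, rfl⟩ := hy
            rw [OrderIso.symm_apply_apply]
            exact (hc x hx).symm
        obtain ⟨ζ, hζ, hlt, hne⟩ := h3 p' p φ.symm (F.image φ) hMD' ζ' hζ' hζF'
        obtain ⟨ψ', hψ, hψF⟩ := h1 φ.symm (F.image φ) ζ' ζ hζF' hlt hne
        refine Or.inr ⟨ψ'.symm, ζ, hζ, ?_, ?_, ?_⟩
        · intro hζF
          refine hne (φ ζ) (Finset.mem_image_of_mem _ hζF) ?_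
          rw [OrderIso.symm_apply_apply]
        · rw [← hψ, OrderIso.symm_apply_apply]
          exact hζ'
        · intro y hy
          have h5 := hψF (φ y) (Finset.mem_image_of_mem _ hy)
          rw [OrderIso.symm_apply_apply] at h5
          rw [OrderIso.symm_apply_eq]
          exact h5.symm
      · push Not at hB
        left
        refine h4 p p' φ F hMD hA ?_
        intro t ht
        have h5 := hB _ ht
        rw [Finset.mem_image] at h5
        obtain ⟨y, hy, hyt⟩ := h5
        have h6 : y = t := φ.injective hyt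
        rw [← h6]
        exact hy
  induction N with
  | zero =>
    intro φ F ha hb hc hN
    rcases key φ F ha hb hc with h | ⟨ψ, ζ, hζ, hζF, _, _⟩
    · exact ⟨φ, ha, h⟩
    · exfalso
      have h5 : ζ ∈ p.roots.toFinset \ F := by
        rw [Finset.mem_sdiff, Multiset.mem_toFinset, Polynomial.mem_roots hp]
        exact ⟨hζ, hζF⟩
      have h6 := Finset.card_pos.2 ⟨ζ, h5⟩
      omega
  | succ N ih =>
    intro φ F ha hb hc hN
    rcases key φ F ha hb hc with h | ⟨ψ, ζ, hζ, hζF, hζ', hψ⟩
    · exact ⟨φ, ha, h⟩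
    · refine ih ψ (insert ζ F) ?_ ?_ ?_ ?_
      · intro i t
        by_cases hq : q i = 0
        · have h5 := zero_of_sign (ha i) hq
          rw [hq, h5]
          simp
        · exact h2 (q i) (q' i) φ ψ F (ha i) (fun t ht => hb i t hq ht) hψ t
      · intro i t hq ht
        exact Finset.mem_insert_of_mem (hb i t hq ht)
      · intro y hy
        rcases Finset.mem_insert.1 hy with rfl | hy
        · rw [hζ, hζ']
        · rw [hψ y hy]
          exact hc y hy
      · have h5 : ζ ∈ p.roots.toFinset \ F := by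
          rw [Finset.mem_sdiff, Multiset.mem_toFinset, Polynomial.mem_roots hp]
          exact ⟨hζ, hζF⟩
        have h6 : p.roots.toFinset \ insert ζ F ⊆ (p.roots.toFinset \ F).erase ζ := by
          intro x hx
          rw [Finset.mem_sdiff, Finset.mem_insert] at hx
          push Not at hx
          rw [Finset.mem_erase, Finset.mem_sdiff]
          exact ⟨hx.2.1, hx.1, hx.2.2⟩
        have h7 := Finset.card_le_card h6
        rw [Finset.card_erase_of_mem h5] at h7
        omega

end StepLAux

theorem tStepL (h1 : S_Adj) (h2 : S_SgT) (h3 : S_NewZ) (h4 : S_AllZ) : S_StepL := by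
  intro σ _ q q' i0 p p' φ hd hd' hdeg hdeg0 hlc ha hz
  classical
  refine StepLAux.claim h1 h2 h3 h4 σ q q' i0 p p' hd hd' hdeg hdeg0 hlc _ φ
    (Finset.univ.biUnion fun i => (q i).roots.toFinset) ha ?_ ?_ le_rfl
  · intro i t hq ht
    rw [Finset.mem_biUnion]
    refine ⟨i, Finset.mem_univ _, ?_⟩
    rw [Multiset.mem_toFinset, Polynomial.mem_roots hq]
    exact ht
  · intro y hy
    rw [Finset.mem_biUnion] at hy
    obtain ⟨i, _, hi⟩ := hy
    rw [Multiset.mem_toFinset] at hi
    have hq : q i ≠ 0 := by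
      intro h
      rw [h, Polynomial.roots_zero] at hi
      exact absurd hi (Multiset.notMem_zero _)
    rw [Polynomial.mem_roots hq] at hi
    exact hz i y hq hi

end KV
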