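import Pool.Agent.Lib.KV.SpecQ

/-!
# KV, block Q, module TS1: projection along one variable
-/

set_option autoImplicit false

open Set Filter Topology Metric

namespace KV

private theorem ts1_eval {ι : Type} (x : ι → ℝ) (t : ℝ) (q : MvPolynomial (Option ι) ℝ) :
    (spz x (MvPolynomial.optionEquivLeft ℝ ι q)).eval t = MvPolynomial.eval (cns t x) q := by
  have h := MvPolynomial.optionEquivLeft_elim_eval ℝ ι x t q
  rw [spz, ← h]
  rfl

theorem tTS1 (h1 : S_TSrec) : S_TS1 := by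
  classical
  intro ι A hA
  obtain ⟨Q0, hQ0⟩ := hA
  obtain ⟨Q, hQ⟩ := h1 ι (Q0.image (MvPolynomial.optionEquivLeft ℝ ι))
  refine ⟨Q, fun x x' hxx hx => ?_⟩
  obtain ⟨t, ht⟩ := hx
  obtain ⟨φ, hφ⟩ := hQ x x' hxx
  refine ⟨φ t, hQ0 (cns t x) (cns (φ t) x') (fun q hq => ?_) ht⟩
  have h2 := hφ (MvPolynomial.optionEquivLeft ℝ ι q) (Finset.mem_image_of_mem _ hq) t
  rwa [ts1_eval, ts1_eval] at h2

end KV
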