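import Pool.Agent.Lib.KV.SpecQ

/-!
# KV, block Q, module TSn: the Tarski-Seidenberg theorem
-/

set_option autoImplicit false

open Set Filter Topology Metric

namespace KV

theorem tTSn (h1 : S_TS1) : S_TSn := by
  intro ι κ _ A hA
  revert ι A
  refine Finite.induction_empty_option (P := fun κ : Type => ∀ (ι : Type)
    (A : Set (ι ⊕ κ → ℝ)), SQ A → SQ {x : ι → ℝ | ∃ y : κ → ℝ, pr x y ∈ A}) ?_ ?_ ?_ κ
  · intro α β e ih ι A hA
    have h2 : SQ {z : ι ⊕ α → ℝ | (fun s : ι ⊕ β => z (Sum.map id e.symm s)) ∈ A} :=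
      hA.reidx (Sum.map id e.symm)
    have h3 := ih ι _ h2
    have h4 : {x : ι → ℝ | ∃ y : α → ℝ, pr x y ∈
        {z : ι ⊕ α → ℝ | (fun s : ι ⊕ β => z (Sum.map id e.symm s)) ∈ A}} =
        {x : ι → ℝ | ∃ y : β → ℝ, pr x y ∈ A} := by
      ext x
      constructor
      · rintro ⟨y, hy⟩
        refine ⟨fun b => y (e.symm b), ?_⟩
        have e1 : (fun s : ι ⊕ β => pr x y (Sum.map id e.symm s)) =
            pr x (fun b => y (e.symm b)) := by
          funext s
          cases s <;> rfl
        rw [← e1]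
        exact hy
      · rintro ⟨y, hy⟩
        refine ⟨fun a => y (e a), ?_⟩
        have e1 : (fun s : ι ⊕ β => pr x (fun a => y (e a)) (Sum.map id e.symm s)) = pr x y := by
          funext s
          cases s
          · rfl
          · simp [pr]
        change (fun s : ι ⊕ β => pr x (fun a => y (e a)) (Sum.map id e.symm s)) ∈ A
        rw [e1]
        exact hy
    rwa [h4] at h3
  · intro ι A hA
    have h2 := hA.reidx (Sum.elim id PEmpty.elim : ι ⊕ PEmpty → ι)
    have h3 : {x : ι → ℝ | (fun s : ι ⊕ PEmpty => x (Sum.elim id PEmpty.elim s)) ∈ A} =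
        {x : ι → ℝ | ∃ y : PEmpty → ℝ, pr x y ∈ A} := by
      ext x
      have e1 : ∀ y : PEmpty → ℝ, (fun s : ι ⊕ PEmpty => x (Sum.elim id PEmpty.elim s)) =
          pr x y := by
        intro y
        funext s
        rcases s with i | j
        · rfl
        · exact j.elim
      constructor
      · intro hx
        refine ⟨fun j => j.elim, ?_⟩
        rw [← e1]
        exact hx
      · rintro ⟨y, hy⟩
        rw [← e1] at hy
        exact hy
    rwa [h3] at h2
  · intro κ _ ih ι A hA
    let g : ι ⊕ Option κ → Option (ι ⊕ κ) :=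
      Sum.elim (fun i => some (Sum.inl i)) (fun o => o.elim none (fun j => some (Sum.inr j)))
    have h2 := h1 (ι ⊕ κ) _ (hA.reidx g)
    have h3 := ih ι _ h2
    have e1 : ∀ (x : ι → ℝ) (t : ℝ) (y : κ → ℝ),
        (fun s : ι ⊕ Option κ => cns t (pr x y) (g s)) = pr x (cns t y) := by
      intro x t y
      funext s
      rcases s with i | o
      · rfl
      · cases o <;> rfl
    have h4 : {x : ι → ℝ | ∃ y : κ → ℝ, pr x y ∈ {z : ι ⊕ κ → ℝ | ∃ t : ℝ, cns t z ∈
        {w : Option (ι ⊕ κ) → ℝ | (fun s => w (g s)) ∈ A}}} =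
        {x : ι → ℝ | ∃ y : Option κ → ℝ, pr x y ∈ A} := by
      ext x
      constructor
      · rintro ⟨y, t, hy⟩
        refine ⟨cns t y, ?_⟩
        rw [← e1]
        exact hy
      · rintro ⟨y, hy⟩
        refine ⟨fun j => y (some j), y none, ?_⟩
        change (fun s : ι ⊕ Option κ => cns (y none) (pr x fun j => y (some j)) (g s)) ∈ A
        rw [e1]
        have e2 : cns (y none) (fun j => y (some j)) = y := by
          funext o
          cases o <;> rfl
        rw [e2]
        exact hy
    rwa [h4] at h3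

end KV
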