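import Pool.Agent.Lib.KV.SpecQ

/-!
# KV, block Q: the recursion of the Tarski-Seidenberg theorem (TSrec)
-/

set_option autoImplicit false

open Set Filter Topology Metric

namespace KV

namespace TSrecAux

variable {ι : Type}

/-- The conclusion of the recursion for a finite set of polynomials. -/
def Ok (P : Finset (Polynomial (MvPolynomial ι ℝ))) : Prop :=
  ∃ Q : Finset (MvPolynomial ι ℝ), ∀ x x' : ι → ℝ, SameS Q x x' → RelP P x x'

/-- Truncation of a polynomial. -/
noncomputable def tr (q : Polynomial (MvPolynomial ι ℝ)) (k : ℕ) :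
    Polynomial (MvPolynomial ι ℝ) :=
  ∑ i ∈ Finset.range (k + 1), Polynomial.monomial i (q.coeff i)

theorem coeff_tr (q : Polynomial (MvPolynomial ι ℝ)) (k j : ℕ) :
    (tr q k).coeff j = if j ≤ k then q.coeff j else 0 := by
  classical
  unfold tr
  rw [Polynomial.finsetSum_coeff]
  simp only [Polynomial.coeff_monomial]
  rw [Finset.sum_ite_eq' (Finset.range (k + 1)) j (fun i => q.coeff i)]
  simp only [Finset.mem_range, Nat.lt_succ_iff]

theorem natDegree_tr_le (q : Polynomial (MvPolynomial ι ℝ)) (k : ℕ) :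
    (tr q k).natDegree ≤ k := by
  rw [Polynomial.natDegree_le_iff_coeff_eq_zero]
  intro N hN
  rw [coeff_tr, if_neg (not_le.2 hN)]

theorem coeff_spz (x : ι → ℝ) (q : Polynomial (MvPolynomial ι ℝ)) (i : ℕ) :
    (spz x q).coeff i = MvPolynomial.eval x (q.coeff i) := Polynomial.coeff_map _ _

theorem spz_tr (x : ι → ℝ) (q : Polynomial (MvPolynomial ι ℝ)) (k : ℕ)
    (h : ∀ i, k < i → MvPolynomial.eval x (q.coeff i) = 0) : spz x (tr q k) = spz x q := by
  ext i
  rw [coeff_spz, coeff_spz, coeff_tr]
  split_ifs with hi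
  · rfl
  · rw [map_zero, h i (not_le.1 hi)]

theorem sign_mul_pos' (c z w : ℝ) (hc : 0 < c) (h : c * z = w) :
    SignType.sign z = SignType.sign w := by
  rw [← h, sign_mul, sign_pos hc, one_mul]

theorem pow_pos_iff_of_ne (x : ι → ℝ) (t : Polynomial (MvPolynomial ι ℝ))
    (hb : MvPolynomial.eval x t.leadingCoeff ≠ 0) :
    0 < (MvPolynomial.eval x t.leadingCoeff) ^ 2 := by positivity

/-- The evaluation of the pseudo-division at a zero of the divisor. -/
theorem evalPrem (x : ι → ℝ) (y : ℝ) (p t h r : Polynomial (MvPolynomial ι ℝ)) (e : ℕ)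
    (he : Polynomial.C (t.leadingCoeff ^ (2 * e)) * p = h * t + r)
    (hb : MvPolynomial.eval x t.leadingCoeff ≠ 0) (h0 : (spz x t).eval y = 0) :
    SignType.sign ((spz x p).eval y) = SignType.sign ((spz x r).eval y) := by
  have h1 := congrArg (fun q => (spz x q).eval y) he
  simp only [spz, Polynomial.map_mul, Polynomial.map_add, Polynomial.map_C, Polynomial.eval_mul,
    Polynomial.eval_add, Polynomial.eval_C] at h1
  unfold spz at h0
  rw [h0, mul_zero, zero_add] at h1
  refine sign_mul_pos' _ _ _ ?_ h1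
  rw [map_pow, pow_mul]
  exact pow_pos (pow_pos_iff_of_ne x t hb) _

theorem card_bound (d n : ℕ) (P : Finset (Polynomial (MvPolynomial ι ℝ)))
    (p : Polynomial (MvPolynomial ι ℝ)) (hp : p ∈ P) (hd : ∀ q ∈ P, q.natDegree ≤ d + 1)
    (hpd : p.natDegree = d + 1) [DecidableEq (Polynomial (MvPolynomial ι ℝ))]
    (hn : (P.filter (fun q => q.natDegree = d + 1)).card ≤ n + 1)
    (IH : ∀ P' : Finset (Polynomial (MvPolynomial ι ℝ)), (∀ q ∈ P', q.natDegree ≤ d + 1) →
      (P'.filter (fun q => q.natDegree = d + 1)).card ≤ n → Ok P')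
    (P' : Finset (Polynomial (MvPolynomial ι ℝ)))
    (hP' : ∀ q ∈ P', q.natDegree ≤ d ∨ q ∈ P.erase p) : Ok P' := by
  refine IH P' (fun q hq => ?_) ?_
  · rcases hP' q hq with h | h
    · omega
    · exact hd q (Finset.mem_of_mem_erase h)
  · have h1 : P'.filter (fun q => q.natDegree = d + 1) ⊆
        (P.filter (fun q => q.natDegree = d + 1)).erase p := by
      intro q hq
      rw [Finset.mem_filter] at hq
      rcases hP' q hq.1 with h | h
      · omega
      · rw [Finset.mem_erase] at h
        rw [Finset.mem_erase, Finset.mem_filter]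
        exact ⟨h.1, h.2, hq.2⟩
    have h2 := Finset.card_le_card h1
    rw [Finset.card_erase_of_mem (Finset.mem_filter.2 ⟨hp, hpd⟩)] at h2
    omega

theorem sign_zero_iff' {a b : ℝ} (h : SignType.sign a = SignType.sign b) : a = 0 ↔ b = 0 := by
  rw [← sign_eq_zero_iff, h, sign_eq_zero_iff]

/-- The step of the recursion. -/
theorem step (h1 : S_Prem) (h2 : S_StepL) (d n : ℕ)
    (P : Finset (Polynomial (MvPolynomial ι ℝ)))
    (p : Polynomial (MvPolynomial ι ℝ)) (hp : p ∈ P) (hd : ∀ q ∈ P, q.natDegree ≤ d + 1)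
    (hpd : p.natDegree = d + 1) [DecidableEq (Polynomial (MvPolynomial ι ℝ))]
    (hn : (P.filter (fun q => q.natDegree = d + 1)).card ≤ n + 1)
    (IH : ∀ P' : Finset (Polynomial (MvPolynomial ι ℝ)), (∀ q ∈ P', q.natDegree ≤ d + 1) →
      (P'.filter (fun q => q.natDegree = d + 1)).card ≤ n → Ok P') : Ok P := by
  classical
  have hIH := card_bound d n P p hp hd hpd hn IH
  have key : ∀ t : Polynomial (MvPolynomial ι ℝ), ∃ (e : ℕ)
      (h r : Polynomial (MvPolynomial ι ℝ)), (t.natDegree ≤ d + 1 → r.natDegree ≤ d) ∧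
      (t ≠ 0 → Polynomial.C (t.leadingCoeff ^ (2 * e)) * p = h * t + r) := by
    intro t
    by_cases ht : t = 0
    · exact ⟨0, 0, 0, fun _ => by simp, fun h => absurd ht h⟩
    · obtain ⟨e, h, r, he, hr⟩ := h1 ι p t ht
      refine ⟨e, h, r, fun h3 => ?_, fun _ => he⟩
      by_cases hr0 : r = 0
      · rw [hr0]; simp
      · have := Polynomial.natDegree_lt_natDegree hr0 hr
        omega
  choose e h r hr he using key
  set R' : Finset (Polynomial (MvPolynomial ι ℝ)) :=
    insert (Polynomial.derivative p) (P.erase p) with hR'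
  have hderd : (Polynomial.derivative p).natDegree ≤ d := by
    have := Polynomial.natDegree_derivative_le p
    omega
  have hR'd : ∀ q ∈ R', q.natDegree ≤ d ∨ q ∈ P.erase p := by
    intro q hq
    rcases Finset.mem_insert.1 hq with rfl | hq
    · exact Or.inl hderd
    · exact Or.inr hq
  obtain ⟨Q1, hQ1⟩ := hIH (insert p.eraseLead (P.erase p)) (by
    intro q hq
    rcases Finset.mem_insert.1 hq with rfl | hq
    · left
      have := Polynomial.eraseLead_natDegree_le p
      omega
    · exact Or.inr hq)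
  obtain ⟨Q2, hQ2⟩ := hIH (R' ∪ R'.biUnion (fun q =>
      (Finset.range (q.natDegree + 1)).image (fun k => r (tr q k)))) (by
    intro q hq
    rcases Finset.mem_union.1 hq with hq | hq
    · exact hR'd q hq
    · obtain ⟨q', hq', hq⟩ := Finset.mem_biUnion.1 hq
      obtain ⟨k, hk, rfl⟩ := Finset.mem_image.1 hq
      left
      apply hr
      have h3 := natDegree_tr_le q' k
      have h4 : q'.natDegree ≤ d + 1 := by
        rcases hR'd q' hq' with h5 | h5
        · omega
        · exact hd q' (Finset.mem_of_mem_erase h5)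
      rw [Finset.mem_range] at hk
      omega)
  refine ⟨Q1 ∪ (Q2 ∪ insert p.leadingCoeff (R'.biUnion (fun q =>
      (Finset.range (q.natDegree + 1)).image q.coeff))), fun x x' hxx => ?_⟩
  have hs1 : SameS Q1 x x' := fun q hq => hxx q (Finset.mem_union_left _ hq)
  have hs2 : SameS Q2 x x' := fun q hq =>
    hxx q (Finset.mem_union_right _ (Finset.mem_union_left _ hq))
  have hsa := hxx p.leadingCoeff
    (Finset.mem_union_right _ (Finset.mem_union_right _ (Finset.mem_insert_self _ _)))
  have hsc : ∀ q ∈ R', ∀ i, SignType.sign (MvPolynomial.eval x (q.coeff i)) =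
      SignType.sign (MvPolynomial.eval x' (q.coeff i)) := by
    intro q hq i
    by_cases hi : i ≤ q.natDegree
    · refine hxx _ (Finset.mem_union_right _ (Finset.mem_union_right _
        (Finset.mem_insert_of_mem (Finset.mem_biUnion.2 ⟨q, hq, ?_⟩))))
      exact Finset.mem_image_of_mem _ (Finset.mem_range.2 (by omega))
    · rw [Polynomial.coeff_eq_zero_of_natDegree_lt (not_le.1 hi),
        map_zero (MvPolynomial.eval x), map_zero (MvPolynomial.eval x')]
  by_cases ha : MvPolynomial.eval x p.leadingCoeff = 0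
  · have ha' : MvPolynomial.eval x' p.leadingCoeff = 0 := (sign_zero_iff' hsa).1 ha
    have hsp : ∀ z : ι → ℝ, MvPolynomial.eval z p.leadingCoeff = 0 →
        spz z p = spz z p.eraseLead := by
      intro z hz
      have h3 := congrArg (spz z) (Polynomial.eraseLead_add_C_mul_X_pow p)
      unfold spz at h3 ⊢
      rw [← h3, Polynomial.map_add, Polynomial.map_mul, Polynomial.map_C, hz, map_zero, zero_mul,
        add_zero]
    obtain ⟨φ, hφ⟩ := hQ1 x x' hs1
    refine ⟨φ, fun q hq t => ?_⟩
    by_cases hqp : q = p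
    · rw [hqp, hsp x ha, hsp x' ha']
      exact hφ _ (Finset.mem_insert_self _ _) t
    · exact hφ q (Finset.mem_insert_of_mem (Finset.mem_erase.2 ⟨hqp, hq⟩)) t
  · have ha' : MvPolynomial.eval x' p.leadingCoeff ≠ 0 := fun h3 => ha ((sign_zero_iff' hsa).2 h3)
    obtain ⟨φ, hφ⟩ := hQ2 x x' hs2
    have hdx : (spz x p).natDegree = d + 1 := by
      rw [← hpd]; exact Polynomial.natDegree_map_of_leadingCoeff_ne_zero _ ha
    have hdx' : (spz x' p).natDegree = d + 1 := by
      rw [← hpd]; exact Polynomial.natDegree_map_of_leadingCoeff_ne_zero _ ha'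
    have hlx : (spz x p).leadingCoeff = MvPolynomial.eval x p.leadingCoeff :=
      Polynomial.leadingCoeff_map_of_leadingCoeff_ne_zero _ ha
    have hlx' : (spz x' p).leadingCoeff = MvPolynomial.eval x' p.leadingCoeff :=
      Polynomial.leadingCoeff_map_of_leadingCoeff_ne_zero _ ha'
    obtain ⟨ψ, hψ, hψp⟩ := h2 {q // q ∈ R'} (fun i => spz x i.1) (fun i => spz x' i.1)
      ⟨Polynomial.derivative p, Finset.mem_insert_self _ _⟩ (spz x p) (spz x' p) φ
      (Polynomial.derivative_map p _).symm (Polynomial.derivative_map p _).symm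
      (by rw [hdx, hdx']) (by rw [hdx]; omega) (by rw [hlx, hlx']; exact hsa)
      (fun i t => hφ i.1 (Finset.mem_union_left _ i.2) t) (by
        intro i y hi0 hiy
        obtain ⟨q, hq⟩ := i
        have hi0' : spz x q ≠ 0 := hi0
        have hiy' : (spz x q).eval y = 0 := hiy
        have hik : ∀ i, (spz x q).natDegree < i → MvPolynomial.eval x (q.coeff i) = 0 := by
          intro i hi
          rw [← coeff_spz]
          exact Polynomial.coeff_eq_zero_of_natDegree_lt hi
        have hik' : ∀ i, (spz x q).natDegree < i → MvPolynomial.eval x' (q.coeff i) = 0 :=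
          fun i hi => (sign_zero_iff' (hsc q hq i)).1 (hik i hi)
        have hlc : MvPolynomial.eval x (q.coeff (spz x q).natDegree) ≠ 0 := by
          rw [← coeff_spz]
          exact fun h3 => hi0' (Polynomial.leadingCoeff_eq_zero.1 h3)
        have hlc' : MvPolynomial.eval x' (q.coeff (spz x q).natDegree) ≠ 0 :=
          fun h3 => hlc ((sign_zero_iff' (hsc q hq _)).2 h3)
        have hkq : (spz x q).natDegree ≤ q.natDegree := Polynomial.natDegree_map_le
        have htc : (tr q (spz x q).natDegree).coeff (spz x q).natDegree =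
            q.coeff (spz x q).natDegree := by
          rw [coeff_tr, if_pos le_rfl]
        have hqc : q.coeff (spz x q).natDegree ≠ 0 := by
          intro h3
          rw [h3, map_zero] at hlc
          exact hlc rfl
        have htd : (tr q (spz x q).natDegree).natDegree = (spz x q).natDegree :=
          le_antisymm (natDegree_tr_le _ _) (Polynomial.le_natDegree_of_ne_zero (by
            rw [htc]; exact hqc))
        have htl : (tr q (spz x q).natDegree).leadingCoeff = q.coeff (spz x q).natDegree := by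
          rw [Polynomial.leadingCoeff, htd, htc]
        have ht0 : tr q (spz x q).natDegree ≠ 0 := by
          intro h3
          rw [h3, Polynomial.leadingCoeff_zero] at htl
          exact hqc htl.symm
        have hst := spz_tr x q _ hik
        have hst' := spz_tr x' q _ hik'
        have h3 := evalPrem x y p _ _ _ _ (he _ ht0) (by rw [htl]; exact hlc)
          (by rw [hst]; exact hiy')
        have h0' : (spz x' q).eval (φ y) = 0 :=
          (sign_zero_iff' (hφ q (Finset.mem_union_left _ hq) y)).1 hiy'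
        have h4 := evalPrem x' (φ y) p _ _ _ _ (he _ ht0) (by rw [htl]; exact hlc')
          (by rw [hst']; exact h0')
        rw [h3, h4]
        refine hφ _ (Finset.mem_union_right _ (Finset.mem_biUnion.2 ⟨q, hq, ?_⟩)) y
        exact Finset.mem_image_of_mem (fun k => r (tr q k)) (Finset.mem_range.2 (by omega)))
    refine ⟨ψ, fun q hq t => ?_⟩
    by_cases hqp : q = p
    · rw [hqp]; exact hψp t
    · exact hψ ⟨q, Finset.mem_insert_of_mem (Finset.mem_erase.2 ⟨hqp, hq⟩)⟩ t

theorem base (P : Finset (Polynomial (MvPolynomial ι ℝ))) (hP : ∀ p ∈ P, p.natDegree ≤ 0) :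
    Ok P := by
  classical
  refine ⟨P.image (fun p => p.coeff 0), fun x x' hx => ⟨OrderIso.refl ℝ, fun p hp t => ?_⟩⟩
  have h1 := hx _ (Finset.mem_image_of_mem _ hp)
  have h2 := Polynomial.eq_C_of_natDegree_le_zero (hP p hp)
  have h3 : ∀ (z : ι → ℝ) (s : ℝ), (spz z p).eval s = MvPolynomial.eval z (p.coeff 0) := by
    intro z s
    rw [h2]
    unfold spz
    rw [Polynomial.map_C, Polynomial.eval_C, Polynomial.coeff_C_zero]
  rw [h3, h3]
  exact h1

theorem main (h1 : S_Prem) (h2 : S_StepL) (d : ℕ) :
    ∀ (n : ℕ) (P : Finset (Polynomial (MvPolynomial ι ℝ))), (∀ p ∈ P, p.natDegree ≤ d) →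
      (P.filter (fun q => q.natDegree = d)).card ≤ n → Ok P := by
  classical
  induction d with
  | zero => exact fun n P hP _ => base P hP
  | succ d ihd =>
    have h0 : ∀ P : Finset (Polynomial (MvPolynomial ι ℝ)), (∀ p ∈ P, p.natDegree ≤ d + 1) →
        (∀ p ∈ P, p.natDegree ≠ d + 1) → Ok P := by
      intro P hP hP'
      refine ihd _ P (fun p hp => ?_) le_rfl
      have := hP p hp
      have := hP' p hp
      omega
    intro n
    induction n with
    | zero =>
      intro P hP hn
      refine h0 P hP (fun p hp h3 => ?_)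
      have h4 : p ∈ P.filter (fun q => q.natDegree = d + 1) := Finset.mem_filter.2 ⟨hp, h3⟩
      rw [Finset.card_eq_zero.1 (Nat.le_zero.1 hn)] at h4
      exact absurd h4 (Finset.notMem_empty _)
    | succ n ihn =>
      intro P hP hn
      by_cases hex : ∃ p ∈ P, p.natDegree = d + 1
      · obtain ⟨p, hp, hpd⟩ := hex
        exact step h1 h2 d n P p hp hP hpd hn ihn
      · exact h0 P hP (fun p hp h3 => hex ⟨p, hp, h3⟩)

end TSrecAux

theorem tTSrec (h1 : S_Prem) (h2 : S_StepL) : S_TSrec := by
  intro ι P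
  exact TSrecAux.main h1 h2 (P.sup Polynomial.natDegree) _ P
    (fun p hp => Finset.le_sup (f := Polynomial.natDegree) hp) le_rfl

end KV
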