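import Pool.Agent.Lib.KV.SpecQ

/-!
# KV, block Q, module Bai: countable unions of semialgebraic sets
-/

set_option autoImplicit false

open Set Filter Topology Metric

namespace KV

theorem tBai (h1 : S_NowD) (h2 : S_Dich) : S_Bai := by
  intro ι _ O A hO hne hA hcov
  choose q hq0 hq using fun n => h2 ι (A n) (hA n)
  have hd : Dense (⋂ n, {x : ι → ℝ | MvPolynomial.eval x (q n) ≠ 0}) :=
    dense_iInter_of_isOpen (fun n => (h1 ι (q n) (hq0 n)).1) (fun n => (h1 ι (q n) (hq0 n)).2)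
  obtain ⟨x, hx, hxO⟩ := hd.exists_mem_open hO hne
  obtain ⟨n, hn⟩ := mem_iUnion.mp (hcov hxO)
  refine ⟨n, x, ?_, hxO⟩
  rw [mem_interior_iff_mem_nhds]
  have h3 := hq n x (mem_iInter.mp hx n)
  filter_upwards [h3] with y hy
  exact hy.mpr hn

end KV
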