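import Pool.Agent.Lib.KV.SpecQ

/-!
# KV (MP_64edc4_ag), block Q: selection, one variable
-/

set_option autoImplicit false

open Set Filter Topology Metric

namespace KV

theorem tSel1 (h1 : S_TSn) : S_Sel1 := by
  classical
  intro ι A hA
  let L : (ι → ℝ) → ℝ → Prop := fun x t => cns t x ∈ A ∧ ∀ t', cns t' x ∈ A → t ≤ t'
  have hLu : ∀ x s t, L x s → L x t → s = t := fun x s t hs ht =>
    le_antisymm (hs.2 t ht.1) (ht.2 s hs.1)
  let σ : (ι → ℝ) → ℝ := fun x => if h : ∃ t, L x t then h.choose else 0
  have hσ1 : ∀ x, (∃ t, L x t) → L x (σ x) := by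
    intro x h
    have : σ x = h.choose := dif_pos h
    rw [this]
    exact h.choose_spec
  have hσ0 : ∀ x, (¬ ∃ t, L x t) → σ x = 0 := fun x h => dif_neg h
  -- the set of the pairs `(t, x)` with `L x t` is semialgebraic
  have hcs : ∀ z : Option ι → ℝ, cns (z none) (fun i => z (some i)) = z := by
    intro z
    ext o
    cases o <;> rfl
  have hL2 : SQ {z : Option ι → ℝ | ∀ t' : ℝ, cns t' (fun i => z (some i)) ∈ A → z none ≤ t'} := by
    refine SQ.all1 h1 (P := fun (z : Option ι → ℝ) (t' : ℝ) =>
      cns t' (fun i => z (some i)) ∈ A → z none ≤ t') ?_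
    have ha : SQ {z : Option (Option ι) → ℝ | cns (z none) (fun i => z (some (some i))) ∈ A} := by
      have := hA.reidx (fun o : Option ι => o.elim (none : Option (Option ι))
        (fun i => some (some i)))
      have he : {z : Option (Option ι) → ℝ | cns (z none) (fun i => z (some (some i))) ∈ A} =
          {x : Option (Option ι) → ℝ | (fun j : Option ι => x (j.elim (none : Option (Option ι))
            (fun i => some (some i)))) ∈ A} := by
        ext z
        have h3 : cns (z none) (fun i => z (some (some i))) =
            (fun j : Option ι => z (j.elim (none : Option (Option ι))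
              (fun i => some (some i)))) := by
          ext o
          cases o <;> rfl
        simp only [mem_setOf_eq, h3]
      rw [he]
      exact this
    have hb : SQ {z : Option (Option ι) → ℝ | z (some none) ≤ z none} := by
      have := SQ.le (MvPolynomial.X (some none) : MvPolynomial (Option (Option ι)) ℝ)
        (MvPolynomial.X none)
      simpa using this
    have hc := ha.compl.union hb
    have he : {z : Option (Option ι) → ℝ | cns (z none) (fun i => z (some (some i))) ∈ A →
        z (some none) ≤ z none} =
        {z : Option (Option ι) → ℝ | cns (z none) (fun i => z (some (some i))) ∈ A}ᶜ ∪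
          {z : Option (Option ι) → ℝ | z (some none) ≤ z none} := by
      ext z
      simp only [mem_setOf_eq, mem_union, mem_compl_iff]
      tauto
    have : SQ {z : Option (Option ι) → ℝ | cns (z none) (fun i => z (some (some i))) ∈ A →
        z (some none) ≤ z none} := by
      rw [he]
      exact hc
    exact this
  have hL : SQ {z : Option ι → ℝ | L (fun i => z (some i)) (z none)} := by
    have h3 := hA.inter hL2
    have he : {z : Option ι → ℝ | L (fun i => z (some i)) (z none)} = A ∩
        {z : Option ι → ℝ | ∀ t' : ℝ, cns t' (fun i => z (some i)) ∈ A → z none ≤ t'} := by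
      ext z
      simp only [mem_setOf_eq, mem_inter_iff, L, hcs]
    rw [he]
    exact h3
  have hE : SQ {x : ι → ℝ | ∃ t : ℝ, L x t} := SQ.ex1 h1 hL
  have hE' : SQ {z : Option ι → ℝ | ∃ t : ℝ, L (fun i => z (some i)) t} := hE.reidx some
  refine ⟨σ, ?_, fun x hK hne => ?_⟩
  · have h0 : SQ {z : Option ι → ℝ | z none = 0} := by
      have := SQ.zero (MvPolynomial.X none : MvPolynomial (Option ι) ℝ)
      simpa using this
    have h3 := hL.union (h0.inter hE'.compl)
    have he : {z : Option ι → ℝ | z none = σ (fun i => z (some i))} =
        {z : Option ι → ℝ | L (fun i => z (some i)) (z none)} ∪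
        ({z : Option ι → ℝ | z none = 0} ∩
          {z : Option ι → ℝ | ∃ t : ℝ, L (fun i => z (some i)) t}ᶜ) := by
      ext z
      simp only [mem_setOf_eq, mem_union, mem_inter_iff, mem_compl_iff]
      constructor
      · intro h
        by_cases hex : ∃ t, L (fun i => z (some i)) t
        · left
          rw [h]
          exact hσ1 _ hex
        · right
          exact ⟨by rw [h]; exact hσ0 _ hex, hex⟩
      · rintro (h | ⟨h, hex⟩)
        · exact hLu _ _ _ h (hσ1 _ ⟨_, h⟩)
        · rw [h, hσ0 _ hex]
    rw [he]
    exact h3
  · obtain ⟨t, ht⟩ := hK.exists_isLeast (by obtain ⟨t, ht⟩ := hne; exact ⟨t, ht⟩)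
    exact (hσ1 x ⟨t, ht.1, fun t' ht' => ht.2 ht'⟩).1

end KV
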