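import Pool.Agent.Lib.KV.SpecQ

set_option autoImplicit false

open Set Filter Topology Metric

namespace KV

namespace ThetaAux

/-- The piecewise affine map. -/
private noncomputable def F (A B u v a b t : ℝ) : ℝ :=
  if t ≤ A then t else if t ≤ u then A + a * (t - A) else if t ≤ B then v + b * (t - u) else t

private theorem F_strictMono {A B u v a b : ℝ} (h1 : A < u) (h2 : u < B) (h3 : A < v) (h4 : v < B)
    (ha : 0 < a) (hb : 0 < b) (ha' : a * (u - A) = v - A) (hb' : b * (B - u) = B - v) :
    StrictMono (F A B u v a b) := by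
  intro s t hst
  have key1 : a * (s - A) < a * (t - A) := mul_lt_mul_of_pos_left (by linarith) ha
  have key2 : b * (s - u) < b * (t - u) := mul_lt_mul_of_pos_left (by linarith) hb
  have p1 : ∀ x, A < x → 0 < a * (x - A) := fun x hx => mul_pos ha (by linarith)
  have p2 : ∀ x, x ≤ u → a * (x - A) ≤ v - A := fun x hx => by
    rw [← ha']
    exact mul_le_mul_of_nonneg_left (by linarith) ha.le
  have p3 : ∀ x, u < x → 0 < b * (x - u) := fun x hx => mul_pos hb (by linarith)
  have p4 : ∀ x, x ≤ B → b * (x - u) ≤ B - v := fun x hx => by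
    rw [← hb']
    exact mul_le_mul_of_nonneg_left (by linarith) hb.le
  unfold F
  split_ifs with c1 c2 c3 c4 c5 c6 c7 c8 c9 c10 c11 c12
  all_goals
    first
      | linarith
      | (have q1 := p1 t (by linarith); linarith)
      | (have q1 := p3 t (by linarith); linarith)
      | (have q1 := p2 s (by linarith); have q2 := p3 t (by linarith); linarith)
      | (have q1 := p4 s (by linarith); linarith)

private theorem F_inv {A B u v a b a' b' : ℝ} (h1 : A < u) (h2 : u < B) (h3 : A < v) (h4 : v < B)
    (ha : 0 < a') (hb : 0 < b') (haa : a * a' = 1) (hbb : b * b' = 1)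
    (ha' : a' * (v - A) = u - A) (hb' : b' * (B - v) = B - u) (t : ℝ) :
    F A B u v a b (F A B v u a' b' t) = t := by
  have p1 : ∀ x, A < x → 0 < a' * (x - A) := fun x hx => mul_pos ha (by linarith)
  have p2 : ∀ x, x ≤ v → a' * (x - A) ≤ u - A := fun x hx => by
    rw [← ha']
    exact mul_le_mul_of_nonneg_left (by linarith) ha.le
  have p3 : ∀ x, v < x → 0 < b' * (x - v) := fun x hx => mul_pos hb (by linarith)
  have p4 : ∀ x, x ≤ B → b' * (x - v) ≤ B - u := fun x hx => by
    rw [← hb']
    exact mul_le_mul_of_nonneg_left (by linarith) hb.le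
  rcases le_or_gt t A with c1 | c1
  · have e1 : F A B v u a' b' t = t := by rw [F, if_pos c1]
    rw [e1, F, if_pos c1]
  rcases le_or_gt t v with c2 | c2
  · have e1 : F A B v u a' b' t = A + a' * (t - A) := by
      rw [F, if_neg (by linarith), if_pos c2]
    have q1 := p1 t c1
    have q2 := p2 t c2
    rw [e1, F, if_neg (by linarith), if_pos (by linarith)]
    have e2 : a * (A + a' * (t - A) - A) = (a * a') * (t - A) := by ring
    rw [e2, haa]
    ring
  rcases le_or_gt t B with c3 | c3
  · have e1 : F A B v u a' b' t = u + b' * (t - v) := by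
      rw [F, if_neg (by linarith), if_neg (by linarith), if_pos c3]
    have q1 := p3 t c2
    have q2 := p4 t c3
    rw [e1, F, if_neg (by linarith), if_neg (by linarith), if_pos (by linarith)]
    have e2 : b * (u + b' * (t - v) - u) = (b * b') * (t - v) := by ring
    rw [e2, hbb]
    ring
  · have e1 : F A B v u a' b' t = t := by
      rw [F, if_neg (by linarith), if_neg (by linarith), if_neg (by linarith)]
    rw [e1, F, if_neg (by linarith), if_neg (by linarith), if_neg (by linarith)]

end ThetaAux

open ThetaAux in
theorem tTheta : S_Theta := by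
  intro A B u v h1 h2 h3 h4
  have u1 : 0 < u - A := by linarith
  have v1 : 0 < v - A := by linarith
  have u2 : 0 < B - u := by linarith
  have v2 : 0 < B - v := by linarith
  have hmono := F_strictMono (A := A) (B := B) (u := u) (v := v) (a := (v - A) / (u - A))
    (b := (B - v) / (B - u)) h1 h2 h3 h4 (div_pos v1 u1) (div_pos v2 u2)
    (div_mul_cancel₀ _ u1.ne') (div_mul_cancel₀ _ u2.ne')
  have hinv : Function.RightInverse (F A B v u ((u - A) / (v - A)) ((B - u) / (B - v)))
      (F A B u v ((v - A) / (u - A)) ((B - v) / (B - u))) := by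
    intro t
    refine F_inv h1 h2 h3 h4 (div_pos u1 v1) (div_pos u2 v2) ?_ ?_
      (div_mul_cancel₀ _ v1.ne') (div_mul_cancel₀ _ v2.ne') t
    · field_simp
    · field_simp
  refine ⟨StrictMono.orderIsoOfRightInverse _ hmono _ hinv, ?_, ?_, ?_⟩
  · change F A B u v ((v - A) / (u - A)) ((B - v) / (B - u)) u = v
    rw [F, if_neg (by linarith), if_pos le_rfl, div_mul_cancel₀ _ u1.ne']
    ring
  · intro t ht
    change F A B u v ((v - A) / (u - A)) ((B - v) / (B - u)) t = t
    rw [F, if_pos ht]
  · intro t ht
    change F A B u v ((v - A) / (u - A)) ((B - v) / (B - u)) t = t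
    rcases eq_or_lt_of_le ht with h | h
    · rw [F, if_neg (by linarith), if_neg (by linarith), if_pos (by linarith), ← h,
        div_mul_cancel₀ _ u2.ne']
      ring
    · rw [F, if_neg (by linarith), if_neg (by linarith), if_neg (by linarith)]

end KV
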